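import Mathlib

set_option autoImplicit false

/-! Brooks-type bound for (p,1)-total labellings, part L1: this file joins several modules to save build time. -/

section S_Defs

/-!
Brooks-type bound for (p,1)-total labellings: common definitions.

`d + 2` is the bound on the degrees. Colourings use the colours `0, ..., d + 1`; the colour `d + 1`
is the special class `W`, which is kept as small as possible.
-/

set_option autoImplicit false
set_option linter.unusedSectionVars false

namespace Pool.Agent.H44.HYB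

open Finset Classical

variable {V : Type*} [Fintype V]

/-- The neighbours of `v` of colour `i`. -/
noncomputable def N (G : SimpleGraph V) (c : V → ℕ) (v : V) (i : ℕ) : Finset V :=
  univ.filter (fun u => G.Adj v u ∧ c u = i)

/-- The degree of `v`. -/
noncomputable def dg (G : SimpleGraph V) (v : V) : ℕ := (univ.filter (fun u => G.Adj v u)).card

/-- `c` is a proper colouring with the colours `0, ..., d + 1`. -/
def PC (G : SimpleGraph V) (d : ℕ) (c : V → ℕ) : Prop :=
  (∀ v, c v ≤ d + 1) ∧ ∀ u v, G.Adj u v → c u ≠ c v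

/-- The size of the class `W` of colour `d + 1`. -/
noncomputable def wW (d : ℕ) (c : V → ℕ) : ℕ := (univ.filter (fun v => c v = d + 1)).card

/-- The weight of a colour. -/
def hh (d i : ℕ) : ℕ := if i ≤ d then 2 ^ (d + 1 - i) else 0

/-- The potential. -/
noncomputable def Psi (d : ℕ) (c : V → ℕ) : ℕ := ∑ v, hh d (c v)

/-- An optimal colouring: `W` as small as possible, then the potential as large as possible. -/
structure Opt (G : SimpleGraph V) (d : ℕ) (c : V → ℕ) : Prop where
  proper : PC G d c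
  minW : ∀ c', PC G d c' → wW d c ≤ wW d c'
  maxP : ∀ c', PC G d c' → wW d c' = wW d c → Psi d c' ≤ Psi d c

/-- A vertex outside `W` which can be given another colour `≤ d`. -/
def Free (G : SimpleGraph V) (d : ℕ) (c : V → ℕ) (v : V) : Prop :=
  c v ≤ d ∧ ∃ i ≤ d, i ≠ c v ∧ N G c v i = ∅

/-- A vertex outside `W` with exactly two neighbours in `W` and exactly one in every other
class. -/
def Tight (G : SimpleGraph V) (d : ℕ) (c : V → ℕ) (v : V) : Prop :=
  c v ≤ d ∧ (N G c v (d + 1)).card = 2 ∧ ∀ i ≤ d, i ≠ c v → (N G c v i).card = 1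

/-- The graph induced on the classes `0` and `d + 1`. -/
def Bg (G : SimpleGraph V) (d : ℕ) (c : V → ℕ) : SimpleGraph V where
  Adj a b := G.Adj a b ∧ (c a = 0 ∨ c a = d + 1) ∧ (c b = 0 ∨ c b = d + 1)
  symm := ⟨fun _ _ h => ⟨h.1.symm, h.2.2, h.2.1⟩⟩
  loopless := ⟨fun a h => G.loopless.irrefl a h.1⟩

/-- Exchange the colours `0` and `d + 1` on `T`. -/
noncomputable def flp (d : ℕ) (c : V → ℕ) (T : Finset V) : V → ℕ :=
  fun v => if v ∈ T then d + 1 - c v else c v

/-- `T` is a union of components of `Bg`. -/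
def Closed (G : SimpleGraph V) (d : ℕ) (c : V → ℕ) (T : Finset V) : Prop :=
  (∀ v ∈ T, c v = 0 ∨ c v = d + 1) ∧ ∀ a ∈ T, ∀ b, (Bg G d c).Adj a b → b ∈ T

/-- `C` is a nonempty union of `2`-regular components of `Bg`. -/
def Reg2 (G : SimpleGraph V) (d : ℕ) (c : V → ℕ) (C : Finset V) : Prop :=
  C.Nonempty ∧ Closed G d c C ∧
    (∀ v ∈ C, c v = 0 → (N G c v (d + 1)).card = 2) ∧
    ∀ v ∈ C, c v = d + 1 → (N G c v 0).card = 2

/-- A system of matchings: `F j` lives in the classes `0, ..., j`. -/
structure FS (G : SimpleGraph V) (d : ℕ) (c : V → ℕ) (F : ℕ → SimpleGraph V) : Prop where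
  le : ∀ j a b, (F j).Adj a b → G.Adj a b
  mat : ∀ j a b b', (F j).Adj a b → (F j).Adj a b' → b = b'
  lev : ∀ j a b, (F j).Adj a b → 1 ≤ j ∧ j ≤ d ∧ c a ≤ j
  cov : ∀ v, Tight G d c v → 1 ≤ c v → ∃ j b, (F j).Adj v b
  cyc : ∀ C, Reg2 G d c C → ∃ z ∈ C, c z = 0 ∧ ∃ j b, (F j).Adj z b
  ind : ∀ a b, G.Adj a b → c a ≤ d → c b ≤ d →
    (∃ j b', (F j).Adj a b') ∨ (∃ j b', (F j).Adj b b')

/-- The data produced by the treatment of the `2`-regular components of `Bg`: a set `Z` of
vertices of colour `0` meeting all of them, and an injective choice of neighbours `g z` of the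
vertices of `Z` of colours `1, ..., d - 1`. -/
structure ZG (G : SimpleGraph V) (d : ℕ) (c : V → ℕ) (Z : Finset V) (g : V → V) : Prop where
  zero : ∀ z ∈ Z, c z = 0
  one : ∀ z ∈ Z, ∀ i, 1 ≤ i → i ≤ d → (N G c z i).card = 1
  adj : ∀ z ∈ Z, G.Adj z (g z)
  lo : ∀ z ∈ Z, 1 ≤ c (g z)
  hi : ∀ z ∈ Z, c (g z) < d
  inj : ∀ z ∈ Z, ∀ z' ∈ Z, g z = g z' → z = z'
  meet : ∀ C, Reg2 G d c C → ∃ z ∈ Z, z ∈ C

/-- A `(p,1)`-total labelling with the labels `0, ..., T`. -/
def Lab (G : SimpleGraph V) (p T : ℕ) : Prop :=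
  ∃ (fV : V → ℕ) (fE : Sym2 V → ℕ),
    (∀ v : V, fV v ≤ T) ∧
    (∀ e ∈ G.edgeSet, fE e ≤ T) ∧
    (∀ u v : V, G.Adj u v → fV u ≠ fV v) ∧
    (∀ u v : V, G.Adj u v → (p : ℤ) ≤ |(fV u : ℤ) - (fE s(u, v) : ℤ)|) ∧
    (∀ u v w : V, G.Adj u v → G.Adj u w → v ≠ w → fE s(u, v) ≠ fE s(u, w))

/-! ### Elementary facts -/

theorem mem_N {G : SimpleGraph V} {c : V → ℕ} {v : V} {i : ℕ} {u : V} :
    u ∈ N G c v i ↔ G.Adj v u ∧ c u = i := by
  unfold N
  rw [mem_filter]
  exact ⟨fun h => h.2, fun h => ⟨mem_univ _, h⟩⟩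

theorem N_eq_empty {G : SimpleGraph V} {c : V → ℕ} {v : V} {i : ℕ} :
    N G c v i = ∅ ↔ ∀ u, G.Adj v u → c u ≠ i := by
  rw [Finset.eq_empty_iff_forall_notMem]
  constructor
  · intro h u hu hc
    exact h u (mem_N.2 ⟨hu, hc⟩)
  · intro h u hu
    exact h u (mem_N.1 hu).1 (mem_N.1 hu).2

/-- The degree is the sum of the numbers of neighbours of the different colours. -/
theorem dg_eq_sum {G : SimpleGraph V} {d : ℕ} {c : V → ℕ} (hc : PC G d c) (v : V) :
    dg G v = ∑ i ∈ range (d + 2), (N G c v i).card := by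
  unfold dg
  rw [Finset.card_eq_sum_card_fiberwise (f := c) (t := range (d + 2))]
  · refine Finset.sum_congr rfl fun i _ => ?_
    congr 1
    ext u
    rw [mem_filter, mem_filter, mem_N]
    exact ⟨fun h => ⟨h.1.2, h.2⟩, fun h => ⟨⟨mem_univ _, h.1⟩, h.2⟩⟩
  · intro u _
    have := hc.1 u
    simp only [coe_range, Set.mem_Iio]
    omega

end Pool.Agent.H44.HYB

end S_Defs

section S_BAS

/-!
Optimal colourings: existence, recolourings, first consequences.
-/

set_option autoImplicit false
set_option linter.unusedSectionVars false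

namespace Pool.Agent.H44.HYB

open Finset Classical

variable {V : Type*} [Fintype V]

theorem bas_Psi_le (d : ℕ) (c : V → ℕ) : Psi d c ≤ Fintype.card V * 2 ^ (d + 1) := by
  unfold Psi
  refine (Finset.sum_le_card_nsmul univ _ (2 ^ (d + 1)) ?_).trans (le_of_eq ?_)
  · intro v _
    unfold hh
    split_ifs with h
    · exact Nat.pow_le_pow_right (by norm_num) (by omega)
    · exact Nat.zero_le _
  · rw [smul_eq_mul, Finset.card_univ]

/-- There are finitely many colourings, so an optimal one exists (minimise `wW`, then maximise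
`Psi`, which is bounded by `|V| * 2^(d+1)`; `Nat.find` twice works). -/
theorem exists_opt {G : SimpleGraph V} {d : ℕ} (h : ∃ c, PC G d c) : ∃ c, Opt G d c := by
  have h1 : ∃ n, ∃ c, PC G d c ∧ wW d c = n := by
    obtain ⟨c, hc⟩ := h
    exact ⟨_, c, hc, rfl⟩
  obtain ⟨c0, hc0, hw0⟩ := Nat.find_spec h1
  have hmin : ∀ c', PC G d c' → wW d c0 ≤ wW d c' := by
    intro c' hc'
    rw [hw0]
    exact Nat.find_min' h1 ⟨c', hc', rfl⟩
  have h2 : ∃ n, ∃ c, PC G d c ∧ wW d c = wW d c0 ∧ Psi d c + n = Fintype.card V * 2 ^ (d + 1) :=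
    ⟨_, c0, hc0, rfl, Nat.add_sub_cancel' (bas_Psi_le d c0)⟩
  obtain ⟨c1, hc1, hw1, hp1⟩ := Nat.find_spec h2
  refine ⟨c1, hc1, ?_, ?_⟩
  · intro c' hc'
    rw [hw1]
    exact hmin c' hc'
  · intro c' hc' hw'
    have hb := bas_Psi_le d c'
    have h3 := Nat.find_min' h2 (m := Fintype.card V * 2 ^ (d + 1) - Psi d c')
      ⟨c', hc', hw'.trans hw1, Nat.add_sub_cancel' hb⟩
    omega

theorem hh_pos {d i : ℕ} (hi : i ≤ d) : 0 < hh d i := by
  unfold hh
  rw [if_pos hi]
  positivity

theorem hh_two {d i j : ℕ} (hij : i < j) (hj : j ≤ d) : 2 * hh d j ≤ hh d i := by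
  unfold hh
  rw [if_pos hj, if_pos (by omega), ← pow_succ']
  exact Nat.pow_le_pow_right (by norm_num) (by omega)

theorem upd_PC {G : SimpleGraph V} {d : ℕ} {c : V → ℕ} (hc : PC G d c) {v : V} {i : ℕ}
    (hi : i ≤ d + 1) (h : N G c v i = ∅) : PC G d (Function.update c v i) := by
  rw [N_eq_empty] at h
  refine ⟨?_, ?_⟩
  · intro u
    by_cases hu : u = v
    · rw [hu, Function.update_self]; exact hi
    · rw [Function.update_of_ne hu]; exact hc.1 u
  · intro u w huw
    by_cases hu : u = v
    · have hw : w ≠ v := fun hw => G.ne_of_adj huw (hu.trans hw.symm)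
      rw [hu, Function.update_self, Function.update_of_ne hw]
      rw [hu] at huw
      exact (h w huw).symm
    · rw [Function.update_of_ne hu]
      by_cases hw : w = v
      · rw [hw, Function.update_self]
        rw [hw] at huw
        exact h u huw.symm
      · rw [Function.update_of_ne hw]
        exact hc.2 u w huw

theorem bas_sum_update (g : ℕ → ℕ) (c : V → ℕ) (v : V) (i : ℕ) :
    ∑ u, g (Function.update c v i u) + g (c v) = ∑ u, g (c u) + g i := by
  rw [← Finset.add_sum_erase univ (fun u => g (Function.update c v i u)) (mem_univ v),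
    ← Finset.add_sum_erase univ (fun u => g (c u)) (mem_univ v)]
  have h : ∑ x ∈ univ.erase v, g (Function.update c v i x) = ∑ x ∈ univ.erase v, g (c x) := by
    refine Finset.sum_congr rfl fun x hx => ?_
    rw [Function.update_of_ne (Finset.ne_of_mem_erase hx)]
  rw [h]
  simp only [Function.update_self]
  omega

theorem bas_wW_eq (d : ℕ) (c : V → ℕ) : wW d c = ∑ u, (fun j => if j = d + 1 then 1 else 0) (c u) := by
  unfold wW
  rw [Finset.card_filter]

theorem upd_wW (d : ℕ) (c : V → ℕ) (v : V) (i : ℕ) :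
    wW d (Function.update c v i) + (if c v = d + 1 then 1 else 0) =
      wW d c + (if i = d + 1 then 1 else 0) := by
  rw [bas_wW_eq, bas_wW_eq]
  exact bas_sum_update (fun j => if j = d + 1 then 1 else 0) c v i

theorem upd_Psi (d : ℕ) (c : V → ℕ) (v : V) (i : ℕ) :
    Psi d (Function.update c v i) + hh d (c v) = Psi d c + hh d i :=
  bas_sum_update (hh d) c v i

/-- Give `y` the colour `k` and all elements of `L` the colour `i`. -/
noncomputable def star (c : V → ℕ) (y : V) (k : ℕ) (L : Finset V) (i : ℕ) : V → ℕ :=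
  fun v => if v = y then k else if v ∈ L then i else c v

theorem bas_star_y (c : V → ℕ) (y : V) (k : ℕ) (L : Finset V) (i : ℕ) : star c y k L i y = k := by
  unfold star; rw [if_pos rfl]

theorem bas_star_L (c : V → ℕ) {y : V} (k : ℕ) {L : Finset V} (i : ℕ) (hy : y ∉ L) {v : V} (hv : v ∈ L) :
    star c y k L i v = i := by
  have h1 : v ≠ y := by
    intro h
    rw [h] at hv
    exact hy hv
  unfold star
  rw [if_neg h1, if_pos hv]

theorem bas_star_o (c : V → ℕ) {y : V} (k : ℕ) {L : Finset V} (i : ℕ) {v : V} (h1 : v ≠ y) (h2 : v ∉ L) :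
    star c y k L i v = c v := by
  unfold star
  rw [if_neg h1, if_neg h2]

theorem star_PC {G : SimpleGraph V} {d : ℕ} {c : V → ℕ} (hc : PC G d c) {y : V} {k i : ℕ}
    {L : Finset V} (hk : k ≤ d + 1) (hi : i ≤ d + 1) (hki : k ≠ i) (hy : y ∉ L)
    (h1 : ∀ u, G.Adj y u → c u = k → u ∈ L)
    (h2 : ∀ v ∈ L, ∀ u, G.Adj v u → c u = i → u = y)
    (h3 : ∀ v ∈ L, ∀ u ∈ L, ¬ G.Adj v u) : PC G d (star c y k L i) := by
  refine ⟨?_, ?_⟩
  · intro v
    unfold star
    split_ifs
    · exact hk
    · exact hi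
    · exact hc.1 v
  · intro u v huv
    have huv' : u ≠ v := G.ne_of_adj huv
    by_cases hu : u = y
    · subst hu
      rw [bas_star_y]
      by_cases hv : v ∈ L
      · rw [bas_star_L c k i hy hv]; exact hki
      · rw [bas_star_o c k i huv'.symm hv]
        intro h
        exact hv (h1 v huv h.symm)
    · by_cases huL : u ∈ L
      · rw [bas_star_L c k i hy huL]
        by_cases hv : v = y
        · rw [hv, bas_star_y]; exact hki.symm
        · by_cases hvL : v ∈ L
          · exact absurd huv (h3 u huL v hvL)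
          · rw [bas_star_o c k i hv hvL]
            intro h
            exact hv (h2 u huL v huv h.symm)
      · rw [bas_star_o c k i hu huL]
        by_cases hv : v = y
        · subst hv
          rw [bas_star_y]
          intro h
          exact huL (h1 u huv.symm h)
        · by_cases hvL : v ∈ L
          · rw [bas_star_L c k i hy hvL]
            intro h
            exact hu (h2 v hvL u huv.symm h)
          · rw [bas_star_o c k i hv hvL]
            exact hc.2 u v huv

theorem star_wW {d : ℕ} {c : V → ℕ} {y : V} {k i : ℕ} {L : Finset V} (hk : k ≤ d) (hi : i ≤ d)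
    (hy : c y ≤ d) (hL : ∀ v ∈ L, c v ≤ d) : wW d (star c y k L i) = wW d c := by
  unfold wW
  congr 1
  ext v
  rw [mem_filter, mem_filter]
  unfold star
  split_ifs with h1 h2
  · rw [h1]
    constructor <;> intro h <;> omega
  · have := hL v h2
    constructor <;> intro h <;> omega
  · exact Iff.rfl

theorem star_Psi (d : ℕ) (c : V → ℕ) {y : V} (k i : ℕ) {L : Finset V} (hy : y ∉ L) :
    Psi d (star c y k L i) + hh d (c y) + ∑ v ∈ L, hh d (c v) =
      Psi d c + hh d k + L.card * hh d i := by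
  unfold Psi
  have e : ∀ f : V → ℕ, ∑ v, f v = ∑ v ∈ univ \ insert y L, f v + (f y + ∑ v ∈ L, f v) := by
    intro f
    rw [← Finset.sum_sdiff (Finset.subset_univ (insert y L)), Finset.sum_insert hy]
  rw [e (fun v => hh d (star c y k L i v)), e (fun v => hh d (c v))]
  have e1 : ∑ v ∈ univ \ insert y L, hh d (star c y k L i v) = ∑ v ∈ univ \ insert y L, hh d (c v) := by
    refine Finset.sum_congr rfl fun v hv => ?_
    rw [mem_sdiff, mem_insert, not_or] at hv
    rw [bas_star_o c k i hv.2.1 hv.2.2]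
  have e2 : ∑ v ∈ L, hh d (star c y k L i v) = L.card * hh d i := by
    rw [Finset.sum_congr rfl (fun v hv => by rw [bas_star_L c k i hy hv]), Finset.sum_const, smul_eq_mul]
  simp only [e1, e2, bas_star_y]
  omega

/-- A vertex of `W` sees all colours `≤ d` (otherwise recolour it: `W` gets smaller). -/
theorem see_W {G : SimpleGraph V} {d : ℕ} {c : V → ℕ} (hO : Opt G d c) {w : V}
    (hw : c w = d + 1) {i : ℕ} (hi : i ≤ d) : (N G c w i).Nonempty := by
  rw [Finset.nonempty_iff_ne_empty]
  intro h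
  have h1 := hO.minW _ (upd_PC hO.proper (by omega) h)
  have h2 := upd_wW d c w i
  rw [if_pos hw, if_neg (by omega)] at h2
  omega

/-- A vertex outside `W` sees all smaller colours (otherwise recolour it: the potential grows). -/
theorem see_low {G : SimpleGraph V} {d : ℕ} {c : V → ℕ} (hO : Opt G d c) {v : V}
    (hv : c v ≤ d) {i : ℕ} (hi : i < c v) : (N G c v i).Nonempty := by
  rw [Finset.nonempty_iff_ne_empty]
  intro h
  have h2 := upd_wW d c v i
  rw [if_neg (by omega), if_neg (by omega)] at h2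
  have h1 := hO.maxP _ (upd_PC hO.proper (by omega) h) (by omega)
  have h3 := upd_Psi d c v i
  have h4 := hh_two hi hv
  have h5 := hh_pos hv
  omega

theorem bas_sum_W {G : SimpleGraph V} {d : ℕ} {c : V → ℕ} (hO : Opt G d c)
    (hdeg : ∀ v, dg G v ≤ d + 2) (w : V) :
    ∑ i ∈ range (d + 1), (N G c w i).card ≤ d + 2 := by
  have h := hdeg w
  rw [dg_eq_sum hO.proper w, Finset.sum_range_succ] at h
  omega

/-- A vertex of `W` has degree at most `d + 2` and sees the `d + 1` colours `≤ d`, so at most one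
colour occurs twice (use `dg_eq_sum`). -/
theorem W_two {G : SimpleGraph V} {d : ℕ} {c : V → ℕ} (hO : Opt G d c)
    (hdeg : ∀ v, dg G v ≤ d + 2) {w : V} (hw : c w = d + 1) {i : ℕ} (hi : i ≤ d)
    (h2 : 2 ≤ (N G c w i).card) :
    (N G c w i).card = 2 ∧ ∀ i' ≤ d, i' ≠ i → (N G c w i').card = 1 := by
  have h := bas_sum_W hO hdeg w
  have hpos : ∀ j ≤ d, 1 ≤ (N G c w j).card := fun j hj => Finset.card_pos.2 (see_W hO hw hj)
  have hi' : i ∈ range (d + 1) := mem_range.2 (by omega)
  rw [← Finset.add_sum_erase _ _ hi'] at h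
  have hc1 : ((range (d + 1)).erase i).card = d := by
    rw [Finset.card_erase_of_mem hi', Finset.card_range]; omega
  have hlow : d ≤ ∑ j ∈ (range (d + 1)).erase i, (N G c w j).card := by
    have := Finset.card_nsmul_le_sum ((range (d + 1)).erase i) (fun j => (N G c w j).card) 1
      (fun j hj => hpos j (by have := mem_range.1 (Finset.mem_of_mem_erase hj); omega))
    rw [hc1, smul_eq_mul, mul_one] at this
    exact this
  refine ⟨by omega, ?_⟩
  intro i' hi1 hne
  have hi2 : i' ∈ (range (d + 1)).erase i := Finset.mem_erase.2 ⟨hne, mem_range.2 (by omega)⟩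
  have h5 := hpos i' hi1
  rw [← Finset.add_sum_erase _ _ hi2] at h
  have hc2 : (((range (d + 1)).erase i).erase i').card = d - 1 := by
    rw [Finset.card_erase_of_mem hi2, hc1]
  have hlow2 : d - 1 ≤ ∑ j ∈ ((range (d + 1)).erase i).erase i', (N G c w j).card := by
    have := Finset.card_nsmul_le_sum (((range (d + 1)).erase i).erase i') (fun j => (N G c w j).card) 1
      (fun j hj => hpos j (by
        have := mem_range.1 (Finset.mem_of_mem_erase (Finset.mem_of_mem_erase hj)); omega))
    rw [hc2, smul_eq_mul, mul_one] at this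
    exact this
  have hd : 1 ≤ d := by
    have : 1 ≤ ((range (d + 1)).erase i).card := Finset.card_pos.2 ⟨i', hi2⟩
    omega
  omega

theorem W_le {G : SimpleGraph V} {d : ℕ} {c : V → ℕ} (hO : Opt G d c)
    (hdeg : ∀ v, dg G v ≤ d + 2) {w : V} (hw : c w = d + 1) {i : ℕ} (hi : i ≤ d) :
    1 ≤ (N G c w i).card ∧ (N G c w i).card ≤ 2 := by
  refine ⟨Finset.card_pos.2 (see_W hO hw hi), ?_⟩
  by_contra h
  have := (W_two hO hdeg hw hi (by omega)).1
  omega

end Pool.Agent.H44.HYB

end S_BAS

section S_EXT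

/-!
Every matching is contained in a maximal one.
-/

set_option autoImplicit false
set_option linter.unusedSectionVars false

namespace Pool.Agent.H44.HYB

open Finset Classical

variable {V : Type*} [Fintype V]

/-- Take a maximal matching `M2` with `M ≤ M2 ≤ R` (`Set.Finite.exists_maximal` or
`Set.Finite.exists_minimal` for the complements). -/
theorem ext_matching (R M : SimpleGraph V) (hM : M ≤ R)
    (hm : ∀ a b b', M.Adj a b → M.Adj a b' → b = b') :
    ∃ M2 : SimpleGraph V, M ≤ M2 ∧ M2 ≤ R ∧ (∀ a b b', M2.Adj a b → M2.Adj a b' → b = b') ∧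
      ∀ a b, R.Adj a b → (∃ b', M2.Adj a b') ∨ (∃ b', M2.Adj b b') := by
  obtain ⟨M2, ⟨h1, h2, h3⟩, hmax⟩ := Set.Finite.exists_maximal
    (s := {M2 : SimpleGraph V | M ≤ M2 ∧ M2 ≤ R ∧
      ∀ a b b', M2.Adj a b → M2.Adj a b' → b = b'}) (Set.toFinite _)
    ⟨M, le_refl M, hM, hm⟩
  refine ⟨M2, h1, h2, h3, ?_⟩
  intro a b hab
  by_contra hcon
  push Not at hcon
  obtain ⟨ha, hb⟩ := hcon
  let M3 : SimpleGraph V :=
    { Adj := fun x y => M2.Adj x y ∨ (x = a ∧ y = b) ∨ (x = b ∧ y = a)
      symm := ⟨fun x y h => by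
        rcases h with h | h | h
        · exact Or.inl h.symm
        · exact Or.inr (Or.inr ⟨h.2, h.1⟩)
        · exact Or.inr (Or.inl ⟨h.2, h.1⟩)⟩
      loopless := ⟨fun x h => by
        rcases h with h | h | h
        · exact M2.loopless.irrefl x h
        · exact hab.ne (h.1.symm.trans h.2)
        · exact hab.ne (h.2.symm.trans h.1)⟩ }
  have hM3 : M3 ∈ {M2 : SimpleGraph V | M ≤ M2 ∧ M2 ≤ R ∧
      ∀ a b b', M2.Adj a b → M2.Adj a b' → b = b'} := by
    refine ⟨fun x y h => Or.inl (h1 h), ?_, ?_⟩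
    · intro x y h
      rcases h with h | ⟨rfl, rfl⟩ | ⟨rfl, rfl⟩
      · exact h2 h
      · exact hab
      · exact hab.symm
    · intro x y y' h h'
      rcases h with h | ⟨hx, hy⟩ | ⟨hx, hy⟩ <;> rcases h' with h' | ⟨hx', hy'⟩ | ⟨hx', hy'⟩
      · exact h3 x y y' h h'
      · subst hx'
        exact absurd h (ha y)
      · subst hx'
        exact absurd h (hb y)
      · subst hx
        exact absurd h' (ha y')
      · rw [hy, hy']
      · exact absurd (hx.symm.trans hx') hab.ne
      · subst hx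
        exact absurd h' (hb y')
      · exact absurd (hx'.symm.trans hx) hab.ne
      · rw [hy, hy']
  have hle : M2 ≤ M3 := fun x y h => Or.inl h
  have := hmax hM3 hle
  exact ha b (this (Or.inr (Or.inl ⟨rfl, rfl⟩)))

end Pool.Agent.H44.HYB

end S_EXT

section S_CED

/-!
Counting edges: `|T| - |S| ≤ e(T) - e(S)` if every vertex of `T` is reachable from `S`.
-/

set_option autoImplicit false
set_option linter.unusedSectionVars false

namespace Pool.Agent.H44.HYB

open Finset Classical

variable {V : Type*} [Fintype V]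

/-- Twice the number of edges of `B` inside `X`. -/
noncomputable def PP (B : SimpleGraph V) (X : Finset V) : ℕ :=
  ((X ×ˢ X).filter (fun p => B.Adj p.1 p.2)).card

theorem ced_aux (B : SimpleGraph V) (T : Finset V) : ∀ (n : ℕ) (S : Finset V), (T \ S).card = n →
    S ⊆ T → (∀ v ∈ T, ∃ s ∈ S, B.Reachable s v) → (∀ s ∈ T, ∀ v, B.Adj s v → v ∈ T) →
    PP B S + 2 * T.card ≤ PP B T + 2 * S.card := by
  intro n
  induction n with
  | zero =>
    intro S hn hST _ _
    have h1 : T \ S = ∅ := Finset.card_eq_zero.1 hn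
    have h2 : T ⊆ S := Finset.sdiff_eq_empty_iff_subset.1 h1
    have h3 : S = T := Finset.Subset.antisymm hST h2
    rw [h3]
  | succ n ih =>
    intro S hn hST hreach hcl
    have hpos : 0 < (T \ S).card := by omega
    obtain ⟨v, hv⟩ := Finset.card_pos.1 hpos
    rw [Finset.mem_sdiff] at hv
    obtain ⟨s, hs, ⟨p⟩⟩ := hreach v hv.1
    obtain ⟨e, _, he1, he2⟩ := p.exists_boundary_dart (S : Set V) (by exact_mod_cast hs)
      (by exact_mod_cast hv.2)
    have hx : e.fst ∈ S := by exact_mod_cast he1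
    have hy : e.snd ∉ S := by exact_mod_cast he2
    have hxy : B.Adj e.fst e.snd := e.adj
    have hyT : e.snd ∈ T := hcl _ (hST hx) _ hxy
    generalize e.fst = x at hx hxy
    generalize e.snd = y at hy hxy hyT
    have hcard : (T \ insert y S).card = n := by
      have h1 : T \ insert y S = (T \ S).erase y := by
        ext z
        simp only [Finset.mem_sdiff, Finset.mem_insert, Finset.mem_erase]
        tauto
      rw [h1, Finset.card_erase_of_mem (Finset.mem_sdiff.2 ⟨hyT, hy⟩)]
      omega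
    have h := ih (insert y S) hcard (Finset.insert_subset hyT hST)
      (fun v hv => by
        obtain ⟨s, hs, h⟩ := hreach v hv
        exact ⟨s, Finset.mem_insert_of_mem hs, h⟩) hcl
    have hPP : PP B S + 2 ≤ PP B (insert y S) := by
      unfold PP
      have hsub : ((S ×ˢ S).filter (fun p => B.Adj p.1 p.2)) ∪ {(x, y), (y, x)} ⊆
          ((insert y S ×ˢ insert y S).filter (fun p => B.Adj p.1 p.2)) := by
        intro q hq
        rw [Finset.mem_union] at hq
        rw [Finset.mem_filter, Finset.mem_product]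
        rcases hq with hq | hq
        · rw [Finset.mem_filter, Finset.mem_product] at hq
          exact ⟨⟨Finset.mem_insert_of_mem hq.1.1, Finset.mem_insert_of_mem hq.1.2⟩, hq.2⟩
        · rw [Finset.mem_insert, Finset.mem_singleton] at hq
          rcases hq with rfl | rfl
          · exact ⟨⟨Finset.mem_insert_of_mem hx, Finset.mem_insert_self _ _⟩, hxy⟩
          · exact ⟨⟨Finset.mem_insert_self _ _, Finset.mem_insert_of_mem hx⟩, hxy.symm⟩
      have hdis : Disjoint ((S ×ˢ S).filter (fun p => B.Adj p.1 p.2)) {(x, y), (y, x)} := by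
        rw [Finset.disjoint_left]
        intro q hq hq'
        rw [Finset.mem_filter, Finset.mem_product] at hq
        rw [Finset.mem_insert, Finset.mem_singleton] at hq'
        rcases hq' with rfl | rfl
        · exact hy hq.1.2
        · exact hy hq.1.1
      have hpair : ({(x, y), (y, x)} : Finset (V × V)).card = 2 := by
        rw [Finset.card_pair]
        intro h
        exact hxy.ne (Prod.ext_iff.1 h).1
      calc _ = (((S ×ˢ S).filter (fun p => B.Adj p.1 p.2)) ∪ {(x, y), (y, x)}).card := by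
            rw [Finset.card_union_of_disjoint hdis, hpair]
        _ ≤ _ := Finset.card_le_card hsub
    rw [Finset.card_insert_of_notMem hy] at h
    omega

/-- Add the vertices of `T` outside `S` one by one, each adjacent to an earlier one: every step
adds at least one edge. (Induction on `|T \ S|` for all `S ⊆ T` from which all of `T` is
reachable: if `S ≠ T`, some walk from `S` to a vertex of `T \ S` leaves `S` through an edge.) -/
theorem ced (B : SimpleGraph V) (S T : Finset V)
    (hT : ∀ v, v ∈ T ↔ ∃ s ∈ S, B.Reachable s v) :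
    PP B S + 2 * T.card ≤ PP B T + 2 * S.card := by
  refine ced_aux B T _ S rfl (fun s hs => (hT s).2 ⟨s, hs, SimpleGraph.Reachable.refl s⟩)
    (fun v hv => (hT v).1 hv) ?_
  intro s hs v hsv
  obtain ⟨t, ht, h⟩ := (hT s).1 hs
  exact (hT v).2 ⟨t, ht, h.trans hsv.reachable⟩

end Pool.Agent.H44.HYB

end S_CED

section S_PPW

/-!
Counting the edges of `Bg`.
-/

set_option autoImplicit false
set_option linter.unusedSectionVars false

namespace Pool.Agent.H44.HYB

open Finset Classical

variable {V : Type*} [Fintype V]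

theorem ppw_count (G : SimpleGraph V) (c : V → ℕ) (X : Finset V) (i j : ℕ) :
    ((X ×ˢ X).filter (fun p => G.Adj p.1 p.2 ∧ c p.1 = i ∧ c p.2 = j)).card =
      ∑ w ∈ X.filter (fun v => c v = i), (X.filter (fun u => G.Adj w u ∧ c u = j)).card := by
  rw [Finset.card_filter, Finset.sum_product, Finset.sum_filter]
  refine Finset.sum_congr rfl fun a _ => ?_
  by_cases ha : c a = i
  · rw [if_pos ha, Finset.card_filter]
    refine Finset.sum_congr rfl fun b _ => ?_
    congr 1
    simp [ha]
  · rw [if_neg ha]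
    refine Finset.sum_eq_zero fun b _ => ?_
    rw [if_neg]
    rintro ⟨_, h, _⟩
    exact ha h

theorem ppw_symm (G : SimpleGraph V) (c : V → ℕ) (X : Finset V) (i j : ℕ) :
    ((X ×ˢ X).filter (fun p => G.Adj p.1 p.2 ∧ c p.1 = i ∧ c p.2 = j)).card =
      ((X ×ˢ X).filter (fun p => G.Adj p.1 p.2 ∧ c p.1 = j ∧ c p.2 = i)).card := by
  refine Finset.card_bij (fun p _ => (p.2, p.1)) ?_ ?_ ?_
  · intro p hp
    rw [Finset.mem_filter, Finset.mem_product] at hp ⊢
    exact ⟨⟨hp.1.2, hp.1.1⟩, hp.2.1.symm, hp.2.2.2, hp.2.2.1⟩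
  · intro p _ q _ h
    rw [Prod.ext_iff] at h ⊢
    exact ⟨h.2, h.1⟩
  · intro p hp
    rw [Finset.mem_filter, Finset.mem_product] at hp
    refine ⟨(p.2, p.1), ?_, rfl⟩
    rw [Finset.mem_filter, Finset.mem_product]
    exact ⟨⟨hp.1.2, hp.1.1⟩, hp.2.1.symm, hp.2.2.2, hp.2.2.1⟩

theorem ppw_split {G : SimpleGraph V} {d : ℕ} {c : V → ℕ} (hc : PC G d c) (X : Finset V) :
    PP (Bg G d c) X =
      ((X ×ˢ X).filter (fun p => G.Adj p.1 p.2 ∧ c p.1 = d + 1 ∧ c p.2 = 0)).card +
      ((X ×ˢ X).filter (fun p => G.Adj p.1 p.2 ∧ c p.1 = 0 ∧ c p.2 = d + 1)).card := by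
  unfold PP
  rw [← Finset.card_union_of_disjoint]
  · congr 1
    ext p
    rw [Finset.mem_union, Finset.mem_filter, Finset.mem_filter, Finset.mem_filter]
    constructor
    · rintro ⟨hp, hadj, h1, h2⟩
      have hne := hc.2 _ _ hadj
      rcases h1 with h1 | h1 <;> rcases h2 with h2 | h2
      · exact absurd (h1.trans h2.symm) hne
      · exact Or.inr ⟨hp, hadj, h1, h2⟩
      · exact Or.inl ⟨hp, hadj, h1, h2⟩
      · exact absurd (h1.trans h2.symm) hne
    · rintro (⟨hp, hadj, h1, h2⟩ | ⟨hp, hadj, h1, h2⟩)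
      · exact ⟨hp, hadj, Or.inr h1, Or.inl h2⟩
      · exact ⟨hp, hadj, Or.inl h1, Or.inr h2⟩
  · rw [Finset.disjoint_left]
    intro p hp hp'
    rw [Finset.mem_filter] at hp hp'
    have h1 := hp.2.2.1
    have h2 := hp'.2.2.1
    omega

/-- Twice the number of edges of `Bg` inside `X`, counted from the class `W`. -/
theorem PP_W {G : SimpleGraph V} {d : ℕ} {c : V → ℕ} (hc : PC G d c) (X : Finset V) :
    PP (Bg G d c) X = 2 * ∑ w ∈ X.filter (fun v => c v = d + 1),
      (X.filter (fun u => G.Adj w u ∧ c u = 0)).card := by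
  rw [ppw_split hc, ppw_symm G c X 0 (d + 1), ← ppw_count, two_mul]

/-- Twice the number of edges of `Bg` inside `X`, counted from the class `0`. -/
theorem PP_0 {G : SimpleGraph V} {d : ℕ} {c : V → ℕ} (hc : PC G d c) (X : Finset V) :
    PP (Bg G d c) X = 2 * ∑ w ∈ X.filter (fun v => c v = 0),
      (X.filter (fun u => G.Adj w u ∧ c u = d + 1)).card := by
  rw [ppw_split hc, ppw_symm G c X (d + 1) 0, ← ppw_count, two_mul]

end Pool.Agent.H44.HYB

end S_PPW
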