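import Mathlib
import Pool.Agent.H44.HYB.L1

set_option autoImplicit false

/-! Brooks-type bound for (p,1)-total labellings, part L2: this file joins several modules to save build time. -/

section S_FRE

/-!
Free vertices.
-/

set_option autoImplicit false
set_option linter.unusedSectionVars false

namespace Pool.Agent.H44.HYB

open Finset Classical

variable {V : Type*} [Fintype V]

/-- after a recolouring which is a proper colouring, a vertex of `W` cannot be recoloured -/
theorem fre_contra {G : SimpleGraph V} {d : ℕ} {c c' : V → ℕ} (hO : Opt G d c)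
    (hc' : PC G d c') (hw' : wW d c' ≤ wW d c) {w : V} (hw : c' w = d + 1) {i : ℕ} (hi : i ≤ d)
    (h : N G c' w i = ∅) : False := by
  have h1 := upd_PC hc' (hi.trans (Nat.le_succ d)) h
  have h2 := upd_wW d c' w i
  rw [if_pos hw, if_neg (by omega)] at h2
  have h3 := hO.minW _ h1
  omega

/-- If `u` is a free neighbour of `w ∈ W`, the colour of `u` occurs at least twice at `w`:
otherwise give `u` its other colour and then `w` the old colour of `u`. -/
theorem free_two {G : SimpleGraph V} {d : ℕ} {c : V → ℕ} (hO : Opt G d c) {w u : V}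
    (hw : c w = d + 1) (hu : Free G d c u) (ha : G.Adj w u) : 2 ≤ (N G c w (c u)).card := by
  by_contra hcon
  obtain ⟨hcu, k, hk, hki, hN⟩ := hu
  have hmem : u ∈ N G c w (c u) := mem_N.2 ⟨ha, rfl⟩
  have honly : ∀ x, G.Adj w x → c x = c u → x = u := by
    intro x hx hcx
    exact (Finset.card_le_one.1 (by omega)) x (mem_N.2 ⟨hx, hcx⟩) u hmem
  have h1 := upd_PC hO.proper (hk.trans (Nat.le_succ d)) hN
  have h2 := upd_wW d c u k
  rw [if_neg (by omega), if_neg (by omega)] at h2
  have hwu : w ≠ u := fun h => G.loopless.irrefl u (h ▸ ha)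
  refine fre_contra hO h1 (by omega) (w := w) ?_ hcu ?_
  · rw [Function.update_of_ne hwu]
    exact hw
  · rw [N_eq_empty]
    intro x hx
    by_cases hxu : x = u
    · subst hxu
      rw [Function.update_self]
      exact hki
    · rw [Function.update_of_ne hxu]
      exact fun h => hxu (honly x hx h)

/-- A vertex of `W` has at most one free neighbour: by `free_two` and `W_two` two free neighbours
`u ≠ u'` have the same colour `i` and are all neighbours of `w` of this colour; recolour both
(they are not adjacent) and give `w` the colour `i`. -/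
theorem free_uniq {G : SimpleGraph V} {d : ℕ} {c : V → ℕ} (hO : Opt G d c)
    (hdeg : ∀ v, dg G v ≤ d + 2) {w u u' : V} (hw : c w = d + 1) (hu : Free G d c u)
    (hu' : Free G d c u') (ha : G.Adj w u) (ha' : G.Adj w u') : u = u' := by
  by_contra hne
  have h2 := free_two hO hw hu ha
  have h2' := free_two hO hw hu' ha'
  obtain ⟨hW1, hW2⟩ := W_two hO hdeg hw hu.1 h2
  have hcc : c u' = c u := by
    by_contra h
    have := hW2 (c u') hu'.1 h
    omega
  obtain ⟨hcu, k, hk, hki, hN⟩ := hu
  obtain ⟨hcu', k', hk', hki', hN'⟩ := hu'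
  have honly : ∀ x, G.Adj w x → c x = c u → x = u ∨ x = u' := by
    intro x hx hcx
    have hsub : ({u, u'} : Finset V) ⊆ N G c w (c u) := by
      intro y hy
      rw [mem_insert, mem_singleton] at hy
      rcases hy with rfl | rfl
      · exact mem_N.2 ⟨ha, rfl⟩
      · exact mem_N.2 ⟨ha', hcc⟩
    have heq := Finset.eq_of_subset_of_card_le hsub (by rw [hW1, Finset.card_pair hne])
    have : x ∈ N G c w (c u) := mem_N.2 ⟨hx, hcx⟩
    rw [← heq, mem_insert, mem_singleton] at this
    exact this
  have h1 := upd_PC hO.proper (hk.trans (Nat.le_succ d)) hN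
  have hw1 := upd_wW d c u k
  rw [if_neg (by omega), if_neg (by omega)] at hw1
  have hN1 : N G (Function.update c u k) u' k' = ∅ := by
    rw [N_eq_empty]
    intro x hx
    by_cases hxu : x = u
    · subst hxu
      exact absurd hcc (hO.proper.2 _ _ hx)
    · rw [Function.update_of_ne hxu]
      exact N_eq_empty.1 hN' x hx
  have h3 := upd_PC h1 (hk'.trans (Nat.le_succ d)) hN1
  have hw3 := upd_wW d (Function.update c u k) u' k'
  rw [Function.update_of_ne (Ne.symm hne), if_neg (by omega), if_neg (by omega)] at hw3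
  have hwu : w ≠ u := fun h => G.loopless.irrefl u (h ▸ ha)
  have hwu' : w ≠ u' := fun h => G.loopless.irrefl u' (h ▸ ha')
  refine fre_contra hO h3 (by omega) (w := w) ?_ hcu ?_
  · rw [Function.update_of_ne hwu', Function.update_of_ne hwu]
    exact hw
  · rw [N_eq_empty]
    intro x hx
    by_cases hxu' : x = u'
    · subst hxu'
      rw [Function.update_self, ← hcc]
      exact hki'
    · rw [Function.update_of_ne hxu']
      by_cases hxu : x = u
      · subst hxu
        rw [Function.update_self]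
        exact hki
      · rw [Function.update_of_ne hxu]
        intro h
        rcases honly x hx h with h | h
        · exact hxu h
        · exact hxu' h

/-- counting the degree in `tight_of` -/
theorem fre_count {d i : ℕ} (hi : i ≤ d) (f : ℕ → ℕ)
    (hsum : ∑ k ∈ range (d + 2), f k ≤ d + 2) (h2 : 2 ≤ f (d + 1))
    (h1 : ∀ k ≤ d, k ≠ i → 1 ≤ f k) : f (d + 1) = 2 ∧ ∀ k ≤ d, k ≠ i → f k = 1 := by
  let g : ℕ → ℕ := fun k => if k = i then 0 else if k = d + 1 then 2 else 1
  have hg : ∀ k ∈ range (d + 2), g k ≤ f k := by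
    intro k hk
    rw [mem_range] at hk
    simp only [g]
    split_ifs with e1 e2
    · exact Nat.zero_le _
    · rw [e2]; exact h2
    · exact h1 k (by omega) e1
  have hs : ∑ k ∈ range (d + 2), g k = d + 2 := by
    have e1 : ∑ k ∈ range (d + 1), (g k + if k = i then 1 else 0) =
        ∑ k ∈ range (d + 1), 1 := by
      refine Finset.sum_congr rfl fun k hk => ?_
      rw [mem_range] at hk
      simp only [g]
      split_ifs <;> omega
    rw [Finset.sum_add_distrib, Finset.sum_ite_eq',
      if_pos (mem_range.2 (by omega)), Finset.sum_const,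
      card_range, smul_eq_mul, mul_one] at e1
    rw [Finset.sum_range_succ]
    have e2 : g (d + 1) = 2 := by
      simp only [g]
      split_ifs <;> omega
    omega
  have heq : ∀ k ∈ range (d + 2), g k = f k := by
    rw [← Finset.sum_eq_sum_iff_of_le hg]
    exact le_antisymm (Finset.sum_le_sum hg) (by omega)
  refine ⟨?_, ?_⟩
  · rw [← heq (d + 1) (mem_range.2 (by omega))]
    simp only [g]
    split_ifs <;> omega
  · intro k hk hki
    rw [← heq k (mem_range.2 (by omega))]
    simp only [g]
    split_ifs <;> omega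

/-- A vertex with at least two neighbours in `W` which is not free is tight (count the degree). -/
theorem tight_of {G : SimpleGraph V} {d : ℕ} {c : V → ℕ} (hc : PC G d c)
    (hdeg : ∀ v, dg G v ≤ d + 2) {v : V} (hv : c v ≤ d) (h2 : 2 ≤ (N G c v (d + 1)).card)
    (hnf : ¬ Free G d c v) : Tight G d c v := by
  have hdv := hdeg v
  rw [dg_eq_sum hc v] at hdv
  obtain ⟨h3, h4⟩ := fre_count hv (fun k => (N G c v k).card) hdv h2 (by
    intro k hk hkv
    by_contra hcon
    apply hnf
    refine ⟨hv, k, hk, hkv, ?_⟩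
    rw [← Finset.card_eq_zero]
    omega)
  exact ⟨hv, h3, h4⟩

end Pool.Agent.H44.HYB

end S_FRE

section S_SARA

/-!
The uncovered vertices, local part.
-/

set_option autoImplicit false
set_option linter.unusedSectionVars false

namespace Pool.Agent.H44.HYB

open Finset Classical

variable {V : Type*} [Fintype V]

/-- Let `S` be a set in which all vertices have at least two neighbours in `S`, in which no two
vertices outside `W` are adjacent and in which all vertices of colour `≥ 1` outside `W` are not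
tight. Then every `w ∈ S ∩ W` has a neighbour of colour `0` in `S`, and if it has two neighbours
of colour `0` all its neighbours of colour `0` are in `S`.
Proof. Let `u ∈ S` be a neighbour of `w` with `c u ≥ 1`. All neighbours of `u` in `S` are in `W`,
so `u` has two neighbours in `W`; it is not tight, so it is free (`tight_of`). By `free_uniq` there
is at most one such `u`, which gives the first claim. If `w` has two neighbours of colour `0` there
is no such `u` by `free_two` and `W_two`; so the two neighbours of `w` in `S` have colour `0`,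
and `w` has exactly two neighbours of colour `0`. -/
theorem sara {G : SimpleGraph V} {d : ℕ} {c : V → ℕ} (hO : Opt G d c)
    (hdeg : ∀ v, dg G v ≤ d + 2) (S : Finset V)
    (h2 : ∀ v ∈ S, 2 ≤ (S.filter (fun u => G.Adj v u)).card)
    (hind : ∀ a ∈ S, ∀ b ∈ S, G.Adj a b → c a ≤ d → c b ≤ d → False)
    (ht : ∀ v ∈ S, 1 ≤ c v → ¬ Tight G d c v) {w : V} (hw : w ∈ S) (hcw : c w = d + 1) :
    (∃ u ∈ S, G.Adj w u ∧ c u = 0) ∧
      (2 ≤ (N G c w 0).card → ∀ u, G.Adj w u → c u = 0 → u ∈ S) := by
  have hle : ∀ u, G.Adj w u → c u ≤ d := by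
    intro u hu
    have h1 := hO.proper.1 u
    have h3 := hO.proper.2 w u hu
    omega
  have hfree : ∀ u ∈ S, G.Adj w u → 1 ≤ c u → Free G d c u := by
    intro u hu hwu h1
    by_contra hnf
    refine ht u hu h1 (tight_of hO.proper hdeg (hle u hwu) ?_ hnf)
    refine (h2 u hu).trans (Finset.card_le_card ?_)
    intro x hx
    rw [mem_filter] at hx
    refine mem_N.2 ⟨hx.2, ?_⟩
    by_contra hcx
    have h3 := hO.proper.1 x
    exact hind u hu x hx.1 hx.2 (hle u hwu) (by omega)
  have hS := h2 w hw
  constructor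
  · by_contra hcon
    push Not at hcon
    obtain ⟨u, hu, u', hu', hne⟩ := Finset.one_lt_card.1 (show 1 < _ from hS)
    rw [mem_filter] at hu hu'
    refine hne (free_uniq hO hdeg hcw ?_ ?_ hu.2 hu'.2)
    · exact hfree u hu.1 hu.2 (Nat.one_le_iff_ne_zero.2 (hcon u hu.1 hu.2))
    · exact hfree u' hu'.1 hu'.2 (Nat.one_le_iff_ne_zero.2 (hcon u' hu'.1 hu'.2))
  · intro hN u hwu hcu
    obtain ⟨hW1, hW2⟩ := W_two hO hdeg hcw (Nat.zero_le d) hN
    have hsub : S.filter (fun u => G.Adj w u) ⊆ N G c w 0 := by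
      intro x hx
      rw [mem_filter] at hx
      refine mem_N.2 ⟨hx.2, ?_⟩
      by_contra hcx
      have h3 := free_two hO hcw (hfree x hx.1 hx.2 (Nat.one_le_iff_ne_zero.2 hcx)) hx.2
      have h4 := hW2 (c x) (hle x hx.2) hcx
      omega
    have heq := Finset.eq_of_subset_of_card_le hsub (by omega)
    have h5 : u ∈ N G c w 0 := mem_N.2 ⟨hwu, hcu⟩
    rw [← heq, mem_filter] at h5
    exact h5.1

end Pool.Agent.H44.HYB

end S_SARA

section S_SWP

/-!
Exchanging the colours `0` and `d + 1` on unions of components of `Bg`.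
-/

set_option autoImplicit false
set_option linter.unusedSectionVars false

namespace Pool.Agent.H44.HYB

open Finset Classical

variable {V : Type*} [Fintype V]

theorem SWP_mem {d : ℕ} {c : V → ℕ} {T : Finset V}
    (hT : ∀ v ∈ T, c v = 0 ∨ c v = d + 1) (v : V) :
    (flp d c T v = 0 ∨ flp d c T v = d + 1) ↔ (c v = 0 ∨ c v = d + 1) := by
  unfold flp
  split_ifs with h
  · have := hT v h
    omega
  · rfl

theorem SWP_in {d : ℕ} {c : V → ℕ} {T : Finset V} {v : V} (h : v ∈ T) :
    flp d c T v = d + 1 - c v := by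
  unfold flp
  rw [if_pos h]

theorem SWP_out {d : ℕ} {c : V → ℕ} {T : Finset V} {v : V} (h : v ∉ T) :
    flp d c T v = c v := by
  unfold flp
  rw [if_neg h]

theorem flp_Bg {G : SimpleGraph V} {d : ℕ} {c : V → ℕ} {T : Finset V}
    (hT : ∀ v ∈ T, c v = 0 ∨ c v = d + 1) : Bg G d (flp d c T) = Bg G d c := by
  ext a b
  show (G.Adj a b ∧ _ ∧ _) ↔ (G.Adj a b ∧ _ ∧ _)
  rw [SWP_mem hT a, SWP_mem hT b]

theorem flp_PC {G : SimpleGraph V} {d : ℕ} {c : V → ℕ} {T : Finset V} (hc : PC G d c)
    (hT : Closed G d c T) : PC G d (flp d c T) := by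
  refine ⟨fun v => ?_, ?_⟩
  · unfold flp
    have := hc.1 v
    split_ifs <;> omega
  · intro u v huv
    have hne := hc.2 u v huv
    by_cases hu : u ∈ T
    · by_cases hv : v ∈ T
      · rw [SWP_in hu, SWP_in hv]
        have h1 := hT.1 u hu
        have h2 := hT.1 v hv
        omega
      · rw [SWP_in hu, SWP_out hv]
        have h1 := hT.1 u hu
        have h2 : ¬ (c v = 0 ∨ c v = d + 1) := fun h =>
          hv (hT.2 u hu v ⟨huv, h1, h⟩)
        omega
    · by_cases hv : v ∈ T
      · rw [SWP_out hu, SWP_in hv]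
        have h1 := hT.1 v hv
        have h2 : ¬ (c u = 0 ∨ c u = d + 1) := fun h =>
          hu (hT.2 v hv u ⟨huv.symm, h1, h⟩)
        omega
      · rw [SWP_out hu, SWP_out hv]
        exact hne

theorem SWP_card_filter {T : Finset V} {p : V → Prop} [DecidablePred p] :
    (T.filter p).card = ∑ v, if v ∈ T ∧ p v then 1 else 0 := by
  rw [← Finset.card_filter]
  congr 1
  ext v
  simp

theorem SWP_wW {d : ℕ} {c : V → ℕ} {T : Finset V}
    (hT : ∀ v ∈ T, c v = 0 ∨ c v = d + 1) :
    wW d (flp d c T) + (T.filter (fun v => c v = d + 1)).card =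
      wW d c + (T.filter (fun v => c v = 0)).card := by
  unfold wW
  rw [SWP_card_filter (T := T) (p := fun v => c v = d + 1),
    SWP_card_filter (T := T) (p := fun v => c v = 0), Finset.card_filter, Finset.card_filter,
    ← Finset.sum_add_distrib, ← Finset.sum_add_distrib]
  apply Finset.sum_congr rfl
  intro v _
  by_cases hv : v ∈ T
  · rw [SWP_in hv]
    rcases hT v hv with h | h <;> simp [hv, h]
  · rw [SWP_out hv]
    simp [hv]

theorem SWP_Psi {d : ℕ} {c : V → ℕ} {T : Finset V}
    (hT : ∀ v ∈ T, c v = 0 ∨ c v = d + 1) :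
    Psi d (flp d c T) + (T.filter (fun v => c v = 0)).card * hh d 0 =
      Psi d c + (T.filter (fun v => c v = d + 1)).card * hh d 0 := by
  unfold Psi
  rw [SWP_card_filter, SWP_card_filter, Finset.sum_mul, Finset.sum_mul,
    ← Finset.sum_add_distrib, ← Finset.sum_add_distrib]
  apply Finset.sum_congr rfl
  intro v _
  have h0 : hh d (d + 1) = 0 := by
    unfold hh
    rw [if_neg (by omega)]
  by_cases hv : v ∈ T
  · rw [SWP_in hv]
    rcases hT v hv with h | h <;> simp [hv, h, h0]
  · rw [SWP_out hv]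
    simp [hv]

/-- The exchange cannot make `W` smaller. -/
theorem flp_le {G : SimpleGraph V} {d : ℕ} {c : V → ℕ} {T : Finset V} (hO : Opt G d c)
    (hT : Closed G d c T) :
    (T.filter (fun v => c v = d + 1)).card ≤ (T.filter (fun v => c v = 0)).card := by
  have h1 := hO.minW _ (flp_PC hO.proper hT)
  have h2 := SWP_wW (d := d) (c := c) hT.1
  omega

theorem flp_opt {G : SimpleGraph V} {d : ℕ} {c : V → ℕ} {T : Finset V} (hO : Opt G d c)
    (hT : Closed G d c T)
    (he : (T.filter (fun v => c v = d + 1)).card = (T.filter (fun v => c v = 0)).card) :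
    Opt G d (flp d c T) := by
  have h1 := SWP_wW (d := d) (c := c) hT.1
  have h2 := SWP_Psi (d := d) (c := c) hT.1
  rw [he] at h1 h2
  have h3 : wW d (flp d c T) = wW d c := by omega
  have h4 : Psi d (flp d c T) = Psi d c := by omega
  refine ⟨flp_PC hO.proper hT, ?_, ?_⟩
  · intro c' hc'
    rw [h3]
    exact hO.minW c' hc'
  · intro c' hc' hw
    rw [h4]
    exact hO.maxP c' hc' (by rw [hw, h3])

/-- In the balanced case the vertices of `T` of colour `0` are in the class `W` of the optimal
colouring `flp d c T`; apply `W_le` and `W_two` to it (its neighbours of new colour `0` are the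
old neighbours of colour `d + 1`, its neighbours of colour `1, ..., d` are the old ones). -/
theorem flp_two {G : SimpleGraph V} {d : ℕ} {c : V → ℕ} {T : Finset V} (hO : Opt G d c)
    (hdeg : ∀ v, dg G v ≤ d + 2) (hT : Closed G d c T)
    (he : (T.filter (fun v => c v = d + 1)).card = (T.filter (fun v => c v = 0)).card)
    {u : V} (hu : u ∈ T) (hcu : c u = 0) :
    1 ≤ (N G c u (d + 1)).card ∧ (N G c u (d + 1)).card ≤ 2 ∧
      ((N G c u (d + 1)).card = 2 → ∀ i, 1 ≤ i → i ≤ d → (N G c u i).card = 1) := by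
  have hO' := flp_opt hO hT he
  have hcu' : flp d c T u = d + 1 := by
    rw [SWP_in hu, hcu]
    rfl
  have hN0 : N G (flp d c T) u 0 = N G c u (d + 1) := by
    ext x
    rw [mem_N, mem_N]
    constructor
    · rintro ⟨ha, hx⟩
      refine ⟨ha, ?_⟩
      by_cases hxT : x ∈ T
      · rw [SWP_in hxT] at hx
        rcases hT.1 x hxT with h | h
        · omega
        · exact h
      · rw [SWP_out hxT] at hx
        exact absurd (hcu.trans hx.symm) (hO.proper.2 u x ha)
    · rintro ⟨ha, hx⟩
      refine ⟨ha, ?_⟩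
      have hxT : x ∈ T := hT.2 u hu x ⟨ha, Or.inl hcu, Or.inr hx⟩
      rw [SWP_in hxT, hx]
      omega
  have hNi : ∀ i, 1 ≤ i → i ≤ d → N G (flp d c T) u i = N G c u i := by
    intro i h1 h2
    ext x
    rw [mem_N, mem_N]
    by_cases hxT : x ∈ T
    · rw [SWP_in hxT]
      have := hT.1 x hxT
      constructor
      · rintro ⟨_, hx⟩
        omega
      · rintro ⟨_, hx⟩
        omega
    · rw [SWP_out hxT]
  have h1 := W_le hO' hdeg hcu' (Nat.zero_le d)
  rw [hN0] at h1
  refine ⟨h1.1, h1.2, ?_⟩
  intro h2 i hi1 hi2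
  have h3 := (W_two hO' hdeg hcu' (Nat.zero_le d) (by rw [hN0, h2])).2 i hi2 (by omega)
  rw [hNi i hi1 hi2] at h3
  exact h3

end Pool.Agent.H44.HYB

end S_SWP

section S_SARB

/-!
The uncovered vertices, global part.
-/

set_option autoImplicit false
set_option linter.unusedSectionVars false

namespace Pool.Agent.H44.HYB

open Finset Classical

variable {V : Type*} [Fintype V]

theorem sarb_reach {G : SimpleGraph V} {d : ℕ} {c : V → ℕ} {s v : V}
    (hs : c s = 0 ∨ c s = d + 1) (h : (Bg G d c).Reachable s v) : c v = 0 ∨ c v = d + 1 := by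
  obtain ⟨p⟩ := h
  induction p with
  | nil => exact hs
  | cons hadj _ ih => exact ih hadj.2.2

/-- The neighbours of `w` of colour `i` lie in the closed set `T`. -/
theorem sarb_closed_N {G : SimpleGraph V} {d : ℕ} {c : V → ℕ} {T : Finset V}
    (hT : Closed G d c T) {w : V} (hw : w ∈ T) {i : ℕ} (hi : i = 0 ∨ i = d + 1) :
    T.filter (fun u => G.Adj w u ∧ c u = i) = N G c w i := by
  ext u
  rw [mem_filter, mem_N]
  constructor
  · exact fun h => h.2
  · intro h
    refine ⟨hT.2 w hw u ⟨h.1, hT.1 w hw, ?_⟩, h⟩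
    rw [h.2]
    exact hi

/-- Sums of numbers in `{1, 2}`. -/
theorem sarb_sum (X : Finset V) (f : V → ℕ) (h1 : ∀ w ∈ X, 1 ≤ f w) (h2 : ∀ w ∈ X, f w ≤ 2) :
    ∑ w ∈ X, f w + (X.filter (fun w => f w = 1)).card = 2 * X.card := by
  rw [Finset.card_filter, ← Finset.sum_add_distrib, Finset.card_eq_sum_ones, Finset.mul_sum]
  refine Finset.sum_congr rfl fun w hw => ?_
  have a := h1 w hw
  have b := h2 w hw
  split_ifs <;> omega

theorem sarb_card (d : ℕ) (c : V → ℕ) (X : Finset V) (h : ∀ v ∈ X, c v = 0 ∨ c v = d + 1) :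
    X.card = (X.filter (fun v => c v = d + 1)).card + (X.filter (fun v => c v = 0)).card := by
  rw [← Finset.card_filter_add_card_filter_not (fun v => c v = d + 1)]
  congr 2
  apply Finset.filter_congr
  intro v hv
  have := h v hv
  constructor
  · intro h'
    exact this.resolve_right h'
  · intro h'
    omega

/-- Under the assumptions of `sara` (whose conclusion is `hW`) the set `S` contains a nonempty
union of `2`-regular components of `Bg`.
Proof. `S0` = the vertices of `S` of colour `0` or `d + 1` (nonempty: a vertex of `S` of colour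
`≤ d` has a neighbour in `S`, which is in `W` by `hind`), `T` = all vertices reachable from `S0` in
`Bg` (so `Closed`). Write `T_W`, `T_0` for the classes, `l_T` for the number of `w ∈ T_W` with
exactly one neighbour of colour `0`, `l_S ≤ l_T` for the number of those in `S0`. Then
`|T_W| ≤ |T_0|` (`flp_le`), `PP T = 2 (2 |T_W| - l_T)` (`PP_W`, `W_le`),
`PP S0 ≥ 4 |S0_0|` (`PP_0`, `h2`, `hind`) and `PP S0 ≥ 2 (2 |S0_W| - l_S)` (`PP_W`, `hW`), so
`PP S0 ≥ 2 |S0| - l_S`. With `ced`: `2 |T| ≤ PP T + l_S ≤ 4 |T_W| - l_T`. As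
`|T| = |T_W| + |T_0| ≥ 2 |T_W|` we get `l_T = 0` and `|T_0| = |T_W|`; all `w ∈ T_W` have two
neighbours of colour `0`. Counting `PP T = 4 |T_W| = 4 |T_0|` from the class `0`, with
`flp_two`, all `u ∈ T_0` have exactly two neighbours in `W`. Now `S0` is closed under adjacency in
`Bg`: for `w ∈ S0_W` by `hW`, for `u ∈ S0_0` because `u` has two neighbours in `S`, which are in
`W`. So `C := S0` (in fact `S0 = T`) works. -/
theorem sarb {G : SimpleGraph V} {d : ℕ} {c : V → ℕ} (hO : Opt G d c)
    (hdeg : ∀ v, dg G v ≤ d + 2) (S : Finset V) (hne : S.Nonempty)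
    (h2 : ∀ v ∈ S, 2 ≤ (S.filter (fun u => G.Adj v u)).card)
    (hind : ∀ a ∈ S, ∀ b ∈ S, G.Adj a b → c a ≤ d → c b ≤ d → False)
    (hW : ∀ w ∈ S, c w = d + 1 → (∃ u ∈ S, G.Adj w u ∧ c u = 0) ∧
      (2 ≤ (N G c w 0).card → ∀ u, G.Adj w u → c u = 0 → u ∈ S)) :
    ∃ C, Reg2 G d c C ∧ ∀ v ∈ C, v ∈ S := by
  have hPC := hO.proper
  set S0 : Finset V := S.filter (fun v => c v = 0 ∨ c v = d + 1) with hS0
  have hS0mem : ∀ v, v ∈ S0 ↔ v ∈ S ∧ (c v = 0 ∨ c v = d + 1) := by
    intro v
    rw [hS0, mem_filter]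
  have hlow : ∀ v ∈ S, c v ≤ d → ∀ u ∈ S, G.Adj v u → c u = d + 1 := by
    intro v hv hcv u hu hadj
    have h1 := hPC.1 u
    by_contra hne'
    exact hind v hv u hu hadj hcv (by omega)
  have hS0ne : S0.Nonempty := by
    obtain ⟨v, hv⟩ := hne
    by_cases hcv : c v = d + 1
    · exact ⟨v, (hS0mem v).2 ⟨hv, Or.inr hcv⟩⟩
    · have h1 := hPC.1 v
      have h3 : (S.filter (fun u => G.Adj v u)).Nonempty := by
        rw [← Finset.card_pos]
        have := h2 v hv
        omega
      obtain ⟨u, hu⟩ := h3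
      rw [mem_filter] at hu
      exact ⟨u, (hS0mem u).2 ⟨hu.1, Or.inr (hlow v hv (by omega) u hu.1 hu.2)⟩⟩
  set T : Finset V := univ.filter (fun v => ∃ s ∈ S0, (Bg G d c).Reachable s v) with hTdef
  have hTmem : ∀ v, v ∈ T ↔ ∃ s ∈ S0, (Bg G d c).Reachable s v := by
    intro v
    rw [hTdef, mem_filter]
    exact ⟨fun h => h.2, fun h => ⟨mem_univ _, h⟩⟩
  have hS0T : S0 ⊆ T := fun v hv => (hTmem v).2 ⟨v, hv, SimpleGraph.Reachable.refl v⟩
  have hTcl : Closed G d c T := by
    constructor
    · intro v hv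
      obtain ⟨s, hs, hr⟩ := (hTmem v).1 hv
      exact sarb_reach ((hS0mem s).1 hs).2 hr
    · intro a ha b hab
      obtain ⟨s, hs, hr⟩ := (hTmem a).1 ha
      exact (hTmem b).2 ⟨s, hs, hr.trans hab.reachable⟩
  -- the class `W` inside `S0`
  have hWN : ∀ w ∈ S0, c w = d + 1 → S0.filter (fun u => G.Adj w u ∧ c u = 0) = N G c w 0 := by
    intro w hw hcw
    have hwS := ((hS0mem w).1 hw).1
    obtain ⟨⟨u, huS, huadj, hu0⟩, hall⟩ := hW w hwS hcw
    ext x
    rw [mem_filter, mem_N]
    constructor
    · exact fun h => h.2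
    · intro h
      refine ⟨(hS0mem x).2 ⟨?_, Or.inl h.2⟩, h⟩
      by_cases h3 : 2 ≤ (N G c w 0).card
      · exact hall h3 x h.1 h.2
      · have h4 : (N G c w 0).card ≤ 1 := by omega
        have h5 : x = u := Finset.card_le_one.1 h4 x (mem_N.2 h) u (mem_N.2 ⟨huadj, hu0⟩)
        rw [h5]
        exact huS
  -- neighbours of the vertices of colour `0` in `S0`
  have h0N : ∀ u ∈ S0, c u = 0 →
      S.filter (fun w => G.Adj u w) ⊆ S0.filter (fun w => G.Adj u w ∧ c w = d + 1) := by
    intro u hu hcu w hw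
    rw [mem_filter] at hw ⊢
    have h3 := hlow u ((hS0mem u).1 hu).1 (by omega) w hw.1 hw.2
    exact ⟨(hS0mem w).2 ⟨hw.1, Or.inr h3⟩, hw.2, h3⟩
  have hWle : ∀ w, c w = d + 1 → 1 ≤ (N G c w 0).card ∧ (N G c w 0).card ≤ 2 :=
    fun w hw => W_le hO hdeg hw (Nat.zero_le d)
  -- the counts
  have hPT : PP (Bg G d c) T = 2 * ∑ w ∈ T.filter (fun v => c v = d + 1), (N G c w 0).card := by
    rw [PP_W hPC T]
    congr 1
    refine Finset.sum_congr rfl fun w hw => ?_
    rw [mem_filter] at hw
    rw [sarb_closed_N hTcl hw.1 (Or.inl rfl)]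
  have hPT0 : PP (Bg G d c) T =
      2 * ∑ w ∈ T.filter (fun v => c v = 0), (N G c w (d + 1)).card := by
    rw [PP_0 hPC T]
    congr 1
    refine Finset.sum_congr rfl fun w hw => ?_
    rw [mem_filter] at hw
    rw [sarb_closed_N hTcl hw.1 (Or.inr rfl)]
  have hPS : PP (Bg G d c) S0 =
      2 * ∑ w ∈ S0.filter (fun v => c v = d + 1), (N G c w 0).card := by
    rw [PP_W hPC S0]
    congr 1
    refine Finset.sum_congr rfl fun w hw => ?_
    rw [mem_filter] at hw
    rw [hWN w hw.1 hw.2]
  have hPS0 : 4 * (S0.filter (fun v => c v = 0)).card ≤ PP (Bg G d c) S0 := by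
    rw [PP_0 hPC S0]
    have h3 : (S0.filter (fun v => c v = 0)).card * 2 ≤ ∑ w ∈ S0.filter (fun v => c v = 0),
        (S0.filter (fun u => G.Adj w u ∧ c u = d + 1)).card := by
      rw [← smul_eq_mul]
      apply Finset.card_nsmul_le_sum
      intro u hu
      rw [mem_filter] at hu
      exact (h2 u ((hS0mem u).1 hu.1).1).trans (Finset.card_le_card (h0N u hu.1 hu.2))
    omega
  have hTsum := sarb_sum (T.filter (fun v => c v = d + 1)) (fun w => (N G c w 0).card)
    (fun w hw => (hWle w (mem_filter.1 hw).2).1) (fun w hw => (hWle w (mem_filter.1 hw).2).2)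
  have hSsum := sarb_sum (S0.filter (fun v => c v = d + 1)) (fun w => (N G c w 0).card)
    (fun w hw => (hWle w (mem_filter.1 hw).2).1) (fun w hw => (hWle w (mem_filter.1 hw).2).2)
  have hlST : ((S0.filter (fun v => c v = d + 1)).filter (fun w => (N G c w 0).card = 1)).card ≤
      ((T.filter (fun v => c v = d + 1)).filter (fun w => (N G c w 0).card = 1)).card :=
    Finset.card_le_card (Finset.filter_subset_filter _ (Finset.filter_subset_filter _ hS0T))
  have hced := ced (Bg G d c) S0 T hTmem
  have hTle := flp_le hO hTcl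
  have hTcard := sarb_card d c T hTcl.1
  have hScard := sarb_card d c S0 (fun v hv => ((hS0mem v).1 hv).2)
  have hlT : ((T.filter (fun v => c v = d + 1)).filter (fun w => (N G c w 0).card = 1)).card = 0 := by
    omega
  have hbal : (T.filter (fun v => c v = d + 1)).card = (T.filter (fun v => c v = 0)).card := by
    omega
  have hTW2 : ∀ w ∈ T, c w = d + 1 → (N G c w 0).card = 2 := by
    intro w hw hcw
    obtain ⟨h3, h4⟩ := hWle w hcw
    by_contra h5
    have h6 : w ∈ (T.filter (fun v => c v = d + 1)).filter (fun w => (N G c w 0).card = 1) := by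
      rw [mem_filter, mem_filter]
      exact ⟨⟨hw, hcw⟩, by omega⟩
    rw [Finset.card_eq_zero] at hlT
    rw [hlT] at h6
    exact Finset.notMem_empty _ h6
  have hTsum0 := sarb_sum (T.filter (fun v => c v = 0)) (fun w => (N G c w (d + 1)).card)
    (fun w hw => (flp_two hO hdeg hTcl hbal (mem_filter.1 hw).1 (mem_filter.1 hw).2).1)
    (fun w hw => (flp_two hO hdeg hTcl hbal (mem_filter.1 hw).1 (mem_filter.1 hw).2).2.1)
  have hlT0 : ((T.filter (fun v => c v = 0)).filter
      (fun w => (N G c w (d + 1)).card = 1)).card = 0 := by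
    omega
  have hT02 : ∀ u ∈ T, c u = 0 → (N G c u (d + 1)).card = 2 := by
    intro u hu hcu
    obtain ⟨h3, h4, _⟩ := flp_two hO hdeg hTcl hbal hu hcu
    by_contra h5
    have h6 : u ∈ (T.filter (fun v => c v = 0)).filter
        (fun w => (N G c w (d + 1)).card = 1) := by
      rw [mem_filter, mem_filter]
      exact ⟨⟨hu, hcu⟩, by omega⟩
    rw [Finset.card_eq_zero] at hlT0
    rw [hlT0] at h6
    exact Finset.notMem_empty _ h6
  refine ⟨S0, ⟨hS0ne, ⟨fun v hv => ((hS0mem v).1 hv).2, ?_⟩, fun v hv => hT02 v (hS0T hv),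
    fun v hv => hTW2 v (hS0T hv)⟩, fun v hv => ((hS0mem v).1 hv).1⟩
  intro a ha b hab
  obtain ⟨hadj, hca, hcb⟩ := hab
  have haS := ((hS0mem a).1 ha).1
  rcases hca with hca | hca
  · have hcb' : c b = d + 1 := by
      rcases hcb with hcb | hcb
      · exact absurd (hca.trans hcb.symm) (hPC.2 a b hadj)
      · exact hcb
    have h3 : S0.filter (fun w => G.Adj a w ∧ c w = d + 1) = N G c a (d + 1) := by
      apply Finset.eq_of_subset_of_card_le
      · intro x hx
        rw [mem_filter] at hx
        exact mem_N.2 hx.2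
      · rw [hT02 a (hS0T ha) hca]
        exact (h2 a haS).trans (Finset.card_le_card (h0N a ha hca))
    have h4 : b ∈ S0.filter (fun w => G.Adj a w ∧ c w = d + 1) := by
      rw [h3]
      exact mem_N.2 ⟨hadj, hcb'⟩
    exact (mem_filter.1 h4).1
  · have hcb' : c b = 0 := by
      rcases hcb with hcb | hcb
      · exact hcb
      · exact absurd (hca.trans hcb.symm) (hPC.2 a b hadj)
    have h3 := (hW a haS hca).2 (by rw [hTW2 a (hS0T ha) hca]) b hadj hcb'
    exact (hS0mem b).2 ⟨h3, Or.inl hcb'⟩

end Pool.Agent.H44.HYB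

end S_SARB
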