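import Mathlib
import Pool.Agent.H44.HYB.L1

set_option autoImplicit false

/-! Brooks-type bound for (p,1)-total labellings, part L3: this file joins several modules to save build time. -/

section S_PRV

/-!
Private neighbours.
-/

set_option autoImplicit false
set_option linter.unusedSectionVars false

namespace Pool.Agent.H44.HYB

open Finset Classical

variable {V : Type*} [Fintype V]

theorem tight_N {G : SimpleGraph V} {d : ℕ} {c : V → ℕ} {v y : V} (hv : Tight G d c v)
    (hvy : G.Adj v y) (hy : c y ≤ d) (hne : c y ≠ c v) : N G c v (c y) = {y} := by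
  have h1 := hv.2.2 (c y) hy hne
  obtain ⟨z, hz⟩ := Finset.card_eq_one.1 h1
  have h2 : y ∈ N G c v (c y) := mem_N.2 ⟨hvy, rfl⟩
  rw [hz, mem_singleton] at h2
  rw [hz, h2]

/-- counting the degree of `y` in `priv` -/
theorem prv_count {d i j : ℕ} (hij : i < j) (hj : j ≤ d) (f : ℕ → ℕ)
    (hsum : ∑ k ∈ range (d + 2), f k ≤ d + 2) (h3 : 3 ≤ f j)
    (h1 : ∀ k ≤ d, k ≠ i → k ≠ j → 1 ≤ f k) :
    f j = 3 ∧ (∀ k ≤ d, k ≠ i → k ≠ j → f k = 1) ∧ f (d + 1) = 0 := by
  let g : ℕ → ℕ := fun k => if k = i then 0 else if k = j then 3 else if k = d + 1 then 0 else 1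
  have hg : ∀ k ∈ range (d + 2), g k ≤ f k := by
    intro k hk
    rw [mem_range] at hk
    simp only [g]
    split_ifs with e1 e2 e3
    · exact Nat.zero_le _
    · rw [e2]; exact h3
    · exact Nat.zero_le _
    · exact h1 k (by omega) e1 e2
  have hs : ∑ k ∈ range (d + 2), g k = d + 2 := by
    have e1 : ∑ k ∈ range (d + 1), (g k + if k = i then 1 else 0) =
        ∑ k ∈ range (d + 1), (1 + if k = j then 2 else 0) := by
      refine Finset.sum_congr rfl fun k hk => ?_
      rw [mem_range] at hk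
      simp only [g]
      split_ifs <;> omega
    rw [Finset.sum_add_distrib, Finset.sum_add_distrib, Finset.sum_ite_eq', Finset.sum_ite_eq',
      if_pos (mem_range.2 (by omega)), if_pos (mem_range.2 (by omega)), Finset.sum_const,
      card_range, smul_eq_mul, mul_one] at e1
    rw [Finset.sum_range_succ]
    have e2 : g (d + 1) = 0 := by
      simp only [g]
      split_ifs <;> omega
    omega
  have heq : ∀ k ∈ range (d + 2), g k = f k := by
    rw [← Finset.sum_eq_sum_iff_of_le hg]
    exact le_antisymm (Finset.sum_le_sum hg) (by omega)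
  refine ⟨?_, ?_, ?_⟩
  · rw [← heq j (mem_range.2 (by omega))]
    simp only [g]
    split_ifs <;> omega
  · intro k hk hki hkj
    rw [← heq k (mem_range.2 (by omega))]
    simp only [g]
    split_ifs <;> omega
  · rw [← heq (d + 1) (mem_range.2 (by omega))]
    simp only [g]
    split_ifs <;> omega

theorem prv_contra {G : SimpleGraph V} {d : ℕ} {c : V → ℕ} (hO : Opt G d c) {y : V} {k i : ℕ}
    {L : Finset V} (hk : k ≤ d) (hi : i ≤ d) (hyc : c y ≤ d) (hL : ∀ v ∈ L, c v ≤ d)
    (hki : k ≠ i) (hy : y ∉ L)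
    (h1 : ∀ u, G.Adj y u → c u = k → u ∈ L)
    (h2 : ∀ v ∈ L, ∀ u, G.Adj v u → c u = i → u = y)
    (h3 : ∀ v ∈ L, ∀ u ∈ L, ¬ G.Adj v u)
    (hlt : hh d (c y) + ∑ v ∈ L, hh d (c v) < hh d k + L.card * hh d i) : False := by
  have hPC := star_PC hO.proper (hk.trans (Nat.le_succ d)) (hi.trans (Nat.le_succ d)) hki hy
    h1 h2 h3
  have hW := star_wW (y := y) hk hi hyc hL
  have hP := hO.maxP _ hPC hW
  have hPs := star_Psi d c k i hy
  omega

/-- Let `c y = i < j` and let `v ≠ v'` be neighbours of `y` of colour `j` for which `y` is the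
only neighbour of colour `i`. Then `y` has exactly three neighbours of colour `j`, one of them
has another neighbour of colour `i`, `y` has exactly one neighbour of every other colour `≤ d`
and none in `W`.
Proof. If all neighbours of `y` of colour `j` have `y` as their only neighbour of colour `i`, let
`L` be the set of all of them and use `star c y j L i`: the potential changes by
`(|L| - 1) (hh i - hh j) > 0`. If `y` has no neighbour of colour `i'` (`i' ≤ d`, `i' ≠ i, j`) use
`star c y i' {v, v'} i`: the potential changes by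
`hh i' - hh i + 2 (hh i - hh j) = hh i' + hh i - 2 hh j ≥ hh i' > 0` by `hh_two`. Now count the
degree of `y`: `2 + 1 + (d - 1) = d + 2` neighbours are already found. -/
theorem priv {G : SimpleGraph V} {d : ℕ} {c : V → ℕ} (hO : Opt G d c)
    (hdeg : ∀ v, dg G v ≤ d + 2) {i j : ℕ} (hij : i < j) (hj : j ≤ d) {y v v' : V}
    (hy : c y = i) (hv : c v = j) (hv' : c v' = j) (ha : G.Adj y v) (ha' : G.Adj y v')
    (hne : v ≠ v') (hp : N G c v i = {y}) (hp' : N G c v' i = {y}) :
    (N G c y j).card = 3 ∧ (∃ u ∈ N G c y j, N G c u i ≠ {y}) ∧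
      (∀ i' ≤ d, i' ≠ i → i' ≠ j → (N G c y i').card = 1) ∧ N G c y (d + 1) = ∅ := by
  have hprop := hO.proper.2
  have hpos : 0 < hh d j := hh_pos hj
  have htwo : 2 * hh d j ≤ hh d i := hh_two hij hj
  have hpriv : ∀ x, N G c x i = {y} → ∀ u, G.Adj x u → c u = i → u = y := by
    intro x hx u hu hcu
    have : u ∈ N G c x i := mem_N.2 ⟨hu, hcu⟩
    rw [hx, mem_singleton] at this
    exact this
  -- two private neighbours in `N y j`
  have hvN : v ∈ N G c y j := mem_N.2 ⟨ha, hv⟩
  have hvN' : v' ∈ N G c y j := mem_N.2 ⟨ha', hv'⟩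
  have hA : ∃ u ∈ N G c y j, N G c u i ≠ {y} := by
    by_contra hcon
    push Not at hcon
    have hc2 : 2 ≤ (N G c y j).card := by
      have : ({v, v'} : Finset V) ⊆ N G c y j := by
        intro x hx
        rw [mem_insert, mem_singleton] at hx
        rcases hx with rfl | rfl
        · exact hvN
        · exact hvN'
      have h := Finset.card_le_card this
      rwa [Finset.card_pair hne] at h
    have hs : ∑ x ∈ N G c y j, hh d (c x) = (N G c y j).card * hh d j := by
      rw [Finset.sum_congr rfl (fun x hx => by rw [(mem_N.1 hx).2]), Finset.sum_const,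
        smul_eq_mul]
    refine prv_contra hO (y := y) (k := j) (i := i) (L := N G c y j) hj (by omega) (by omega)
      (fun x hx => by rw [(mem_N.1 hx).2]; exact hj) (by omega)
      (fun h => G.loopless.irrefl y (mem_N.1 h).1) (fun u hu hcu => mem_N.2 ⟨hu, hcu⟩)
      (fun x hx => hpriv x (hcon x hx))
      (fun x hx u hu hadj => hprop _ _ hadj ((mem_N.1 hx).2.trans (mem_N.1 hu).2.symm)) ?_
    rw [hs, hy]
    obtain ⟨m, hm⟩ := Nat.exists_eq_add_of_le hc2
    rw [hm]
    nlinarith
  have hB : ∀ i' ≤ d, i' ≠ i → i' ≠ j → 1 ≤ (N G c y i').card := by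
    intro i' hi' hi'i hi'j
    by_contra hcon
    have he : N G c y i' = ∅ := by
      rw [← Finset.card_eq_zero]
      omega
    refine prv_contra hO (y := y) (k := i') (i := i) (L := {v, v'}) hi' (by omega) (by omega)
      ?_ hi'i ?_ ?_ ?_ ?_ ?_
    · intro x hx
      rw [mem_insert, mem_singleton] at hx
      rcases hx with rfl | rfl <;> omega
    · rw [mem_insert, mem_singleton]
      rintro (rfl | rfl)
      · exact G.loopless.irrefl _ ha
      · exact G.loopless.irrefl _ ha'
    · intro u hu hcu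
      exact absurd hcu (N_eq_empty.1 he u hu)
    · intro x hx
      rw [mem_insert, mem_singleton] at hx
      rcases hx with rfl | rfl
      · exact hpriv _ hp
      · exact hpriv _ hp'
    · intro x hx u hu hadj
      rw [mem_insert, mem_singleton] at hx hu
      refine hprop _ _ hadj ?_
      rcases hx with rfl | rfl <;> rcases hu with rfl | rfl <;> omega
    · rw [Finset.sum_pair hne, Finset.card_pair hne, hv, hv', hy]
      have := hh_pos hi'
      omega
  have hC : 3 ≤ (N G c y j).card := by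
    obtain ⟨u, hu, hun⟩ := hA
    have huv : u ≠ v := by
      rintro rfl
      exact hun hp
    have huv' : u ≠ v' := by
      rintro rfl
      exact hun hp'
    have : ({u, v, v'} : Finset V) ⊆ N G c y j := by
      intro x hx
      rw [mem_insert, mem_insert, mem_singleton] at hx
      rcases hx with rfl | rfl | rfl
      · exact hu
      · exact hvN
      · exact hvN'
    have h := Finset.card_le_card this
    rwa [Finset.card_insert_of_notMem (by simp [huv, huv']), Finset.card_pair hne] at h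
  have hdy := hdeg y
  rw [dg_eq_sum hO.proper y] at hdy
  obtain ⟨h1, h2, h3⟩ := prv_count hij hj (fun k => (N G c y k).card) hdy hC hB
  exact ⟨h1, hA, h2, Finset.card_eq_zero.1 h3⟩

/-- At most two neighbours of `y` of colour `j` have `y` as their only neighbour of colour
`i`. -/
theorem priv_three {G : SimpleGraph V} {d : ℕ} {c : V → ℕ} (hO : Opt G d c)
    (hdeg : ∀ v, dg G v ≤ d + 2) {i j : ℕ} (hij : i < j) (hj : j ≤ d) {y v1 v2 v3 : V}
    (hy : c y = i) (h1 : c v1 = j) (h2 : c v2 = j) (h3 : c v3 = j) (ha1 : G.Adj y v1)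
    (ha2 : G.Adj y v2) (ha3 : G.Adj y v3) (h12 : v1 ≠ v2) (h13 : v1 ≠ v3) (h23 : v2 ≠ v3)
    (hp1 : N G c v1 i = {y}) (hp2 : N G c v2 i = {y}) (hp3 : N G c v3 i = {y}) : False := by
  obtain ⟨hc, ⟨u, hu, hun⟩, _, _⟩ := priv hO hdeg hij hj hy h1 h2 ha1 ha2 h12 hp1 hp2
  have hsub : ({v1, v2, v3} : Finset V) ⊆ N G c y j := by
    intro x hx
    rw [mem_insert, mem_insert, mem_singleton] at hx
    rcases hx with rfl | rfl | rfl
    · exact mem_N.2 ⟨ha1, h1⟩
    · exact mem_N.2 ⟨ha2, h2⟩
    · exact mem_N.2 ⟨ha3, h3⟩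
  have heq : ({v1, v2, v3} : Finset V) = N G c y j := by
    refine Finset.eq_of_subset_of_card_le hsub ?_
    rw [hc, Finset.card_insert_of_notMem (by simp [h12, h13]), Finset.card_pair h23]
  rw [← heq, mem_insert, mem_insert, mem_singleton] at hu
  rcases hu with rfl | rfl | rfl
  · exact hun hp1
  · exact hun hp2
  · exact hun hp3

/-- `crowd` when `x` and `v'` are not adjacent -/
theorem prv_crowd {G : SimpleGraph V} {d : ℕ} {c : V → ℕ} (hO : Opt G d c)
    (hdeg : ∀ v, dg G v ≤ d + 2) {y v v' x : V} (hy : c y = 0) (hv1 : 1 ≤ c v)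
    (hvv : c v' = c v) (hx1 : 1 ≤ c x) (hxv : c x ≠ c v) (hv : Tight G d c v)
    (hv' : Tight G d c v') (hx : Tight G d c x) (hne : v ≠ v') (ha : G.Adj y v)
    (ha' : G.Adj y v') (hax : G.Adj y x) (hnadj : ¬ G.Adj x v') : False := by
  have hpv : N G c v 0 = {y} := by
    have := tight_N hv ha.symm (by omega) (by omega)
    rwa [hy] at this
  have hpv' : N G c v' 0 = {y} := by
    have := tight_N hv' ha'.symm (by omega) (by omega)
    rwa [hy] at this
  have hpx : N G c x 0 = {y} := by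
    have := tight_N hx hax.symm (by omega) (by omega)
    rwa [hy] at this
  obtain ⟨_, _, h1, _⟩ := priv hO hdeg (i := 0) (j := c v) (by omega) hv.1 hy rfl hvv ha ha'
    hne hpv hpv'
  have hcx := h1 (c x) hx.1 (by omega) hxv
  obtain ⟨z, hz⟩ := Finset.card_eq_one.1 hcx
  have hzx : x ∈ N G c y (c x) := mem_N.2 ⟨hax, rfl⟩
  rw [hz, mem_singleton] at hzx
  subst hzx
  have hpriv : ∀ t, N G c t 0 = {y} → ∀ u, G.Adj t u → c u = 0 → u = y := by
    intro t ht u hu hcu
    have : u ∈ N G c t 0 := mem_N.2 ⟨hu, hcu⟩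
    rw [ht, mem_singleton] at this
    exact this
  have hxv' : x ≠ v' := by
    rintro rfl
    exact hxv hvv
  refine prv_contra hO (y := y) (k := c x) (i := 0) (L := {x, v'}) hx.1 (Nat.zero_le _)
    (by omega) ?_ (by omega) ?_ ?_ ?_ ?_ ?_
  · intro t ht
    rw [mem_insert, mem_singleton] at ht
    rcases ht with rfl | rfl
    · exact hx.1
    · exact hv'.1
  · rw [mem_insert, mem_singleton]
    rintro (rfl | rfl) <;> omega
  · intro u hu hcu
    have : u ∈ N G c y (c x) := mem_N.2 ⟨hu, hcu⟩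
    rw [hz, mem_singleton] at this
    rw [this]
    exact mem_insert_self _ _
  · intro t ht
    rw [mem_insert, mem_singleton] at ht
    rcases ht with rfl | rfl
    · exact hpriv _ hpx
    · exact hpriv _ hpv'
  · intro t ht u hu hadj
    rw [mem_insert, mem_singleton] at ht hu
    rcases ht with rfl | rfl <;> rcases hu with rfl | rfl
    · exact G.loopless.irrefl _ hadj
    · exact hnadj hadj
    · exact hnadj hadj.symm
    · exact G.loopless.irrefl _ hadj
  · rw [Finset.sum_pair hxv', Finset.card_pair hxv', hy, hvv]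
    have h2 : 2 * hh d (c v) ≤ hh d 0 := hh_two (by omega) hv.1
    have h3 := hh_pos hv.1
    omega

/-- If `y` of colour `0` has two tight neighbours `v ≠ v'` of colour `j ≥ 1`, it has no tight
neighbour `x` of another colour `l ≥ 1`.
Proof. `x` has exactly one neighbour of colour `j`, so it is not adjacent to `v` or not to `v'`,
say `v'`. By `priv`, `x` is the only neighbour of `y` of colour `l`. Use
`star c y l {x, v'} 0`: the potential changes by
`hh l - hh 0 + (hh 0 - hh l) + (hh 0 - hh j) = hh 0 - hh j > 0`. -/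
theorem crowd {G : SimpleGraph V} {d : ℕ} {c : V → ℕ} (hO : Opt G d c)
    (hdeg : ∀ v, dg G v ≤ d + 2) {y v v' x : V} (hy : c y = 0) (hv1 : 1 ≤ c v)
    (hvv : c v' = c v) (hx1 : 1 ≤ c x) (hxv : c x ≠ c v) (hv : Tight G d c v)
    (hv' : Tight G d c v') (hx : Tight G d c x) (hne : v ≠ v') (ha : G.Adj y v)
    (ha' : G.Adj y v') (hax : G.Adj y x) : False := by
  by_cases h1 : G.Adj x v'
  · by_cases h2 : G.Adj x v
    · obtain ⟨z, hz⟩ := Finset.card_eq_one.1 (hx.2.2 (c v) hv.1 (Ne.symm hxv))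
      have h3 : v ∈ N G c x (c v) := mem_N.2 ⟨h2, rfl⟩
      have h4 : v' ∈ N G c x (c v) := mem_N.2 ⟨h1, hvv⟩
      rw [hz, mem_singleton] at h3 h4
      exact hne (h3.trans h4.symm)
    · exact prv_crowd hO hdeg (y := y) (v := v') (v' := v) (x := x) hy (by omega) hvv.symm hx1
        (by omega) hv' hv hx hne.symm ha' ha hax h2
  · exact prv_crowd hO hdeg hy hv1 hvv hx1 hxv hv hv' hx hne ha ha' hax h1

end Pool.Agent.H44.HYB

end S_PRV

section S_HAL

/-!
Hall's theorem for the tight vertices of colour `d`.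
-/

set_option autoImplicit false
set_option linter.unusedSectionVars false

namespace Pool.Agent.H44.HYB

open Finset Classical

variable {V : Type*} [Fintype V]

/-- The tight vertices of colour `d` can be matched into the classes `0, ..., d - 1`: each of them
has one neighbour in each of these `d ≥ 2` classes, and by `tight_N` and `priv_three` every vertex
of such a class has at most two tight neighbours of colour `d`. Use
`Finset.all_card_le_biUnion_card_iff_exists_injective`. -/
theorem hal {G : SimpleGraph V} {d : ℕ} {c : V → ℕ} (hd : 2 ≤ d) (hO : Opt G d c)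
    (hdeg : ∀ v, dg G v ≤ d + 2) :
    ∃ h : V → V, (∀ x, Tight G d c x → c x = d → G.Adj x (h x) ∧ c (h x) < d) ∧
      ∀ x x', Tight G d c x → c x = d → Tight G d c x' → c x' = d → h x = h x' → x = x' := by
  set t : {x : V // Tight G d c x ∧ c x = d} → Finset V :=
    fun x => univ.filter (fun y => G.Adj x.1 y ∧ c y < d) with ht
  have htmem : ∀ x y, y ∈ t x ↔ G.Adj x.1 y ∧ c y < d := by
    intro x y
    rw [ht, mem_filter]
    exact ⟨fun h => h.2, fun h => ⟨mem_univ _, h⟩⟩
  have hone : ∀ x : {x : V // Tight G d c x ∧ c x = d}, ∀ i, i < d →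
      ∃ y, G.Adj x.1 y ∧ c y = i := by
    intro x i hi
    have h1 := x.2.1.2.2 i hi.le (by rw [x.2.2]; exact hi.ne)
    obtain ⟨y, hy⟩ := Finset.card_eq_one.1 h1
    exact ⟨y, mem_N.1 (by rw [hy]; exact mem_singleton_self y)⟩
  have hall : ∀ s : Finset {x : V // Tight G d c x ∧ c x = d}, s.card ≤ (s.biUnion t).card := by
    intro s
    have h1 : s.card * 2 ≤ (s.biUnion t).card * 2 := by
      apply Finset.card_mul_le_card_mul (fun x y => y ∈ t x)
      · intro x hx
        obtain ⟨a, ha, ha0⟩ := hone x 0 (by omega)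
        obtain ⟨b, hb, hb1⟩ := hone x 1 (by omega)
        have hab : a ≠ b := by
          intro h
          rw [h, hb1] at ha0
          omega
        rw [← Finset.card_pair hab]
        apply Finset.card_le_card
        intro y hy
        rw [Finset.mem_bipartiteAbove]
        rw [mem_insert, mem_singleton] at hy
        have h2 : y ∈ t x := by
          rw [htmem]
          rcases hy with hy | hy
          · rw [hy, ha0]
            exact ⟨ha, by omega⟩
          · rw [hy, hb1]
            exact ⟨hb, by omega⟩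
        exact ⟨mem_biUnion.2 ⟨x, hx, h2⟩, h2⟩
      · intro y _
        by_contra h2
        rw [not_le, Finset.two_lt_card] at h2
        obtain ⟨x1, m1, x2, m2, x3, m3, n12, n13, n23⟩ := h2
        rw [Finset.mem_bipartiteBelow, htmem] at m1 m2 m3
        have key : ∀ x : {x : V // Tight G d c x ∧ c x = d}, G.Adj x.1 y → c y < d →
            N G c x.1 (c y) = {y} := by
          intro x hx hy
          exact tight_N x.2.1 hx hy.le (by rw [x.2.2]; exact hy.ne)
        exact priv_three hO hdeg m1.2.2 le_rfl rfl x1.2.2 x2.2.2 x3.2.2 m1.2.1.symm m2.2.1.symm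
          m3.2.1.symm (fun h => n12 (Subtype.ext h)) (fun h => n13 (Subtype.ext h))
          (fun h => n23 (Subtype.ext h)) (key x1 m1.2.1 m1.2.2) (key x2 m2.2.1 m2.2.2)
          (key x3 m3.2.1 m3.2.2)
    omega
  obtain ⟨f, hf, hft⟩ := (Finset.all_card_le_biUnion_card_iff_exists_injective t).1 hall
  refine ⟨fun x => if hx : Tight G d c x ∧ c x = d then f ⟨x, hx⟩ else x, ?_, ?_⟩
  · intro x hx hxd
    have h1 := (htmem _ _).1 (hft ⟨x, hx, hxd⟩)
    simp only [dif_pos (And.intro hx hxd)]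
    exact h1
  · intro x x' hx hxd hx' hxd' h
    simp only [dif_pos (And.intro hx hxd), dif_pos (And.intro hx' hxd')] at h
    exact congrArg Subtype.val (hf h)

end Pool.Agent.H44.HYB

end S_HAL

section S_FSA

/-!
The matchings of the colours `1, ..., d - 1`.
-/

set_option autoImplicit false
set_option linter.unusedSectionVars false

namespace Pool.Agent.H44.HYB

open Finset Classical

variable {V : Type*} [Fintype V]

/-- the partner relation -/
def fsaP (G : SimpleGraph V) (d : ℕ) (c : V → ℕ) (Z : Finset V) (g : V → V) (j : ℕ)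
    (y v : V) : Prop :=
  (y ∈ Z ∧ c (g y) = j ∧ v = g y) ∨
    (¬ (y ∈ Z ∧ c (g y) = j) ∧ ∃ h : ∃ v, G.Adj y v ∧ Tight G d c v ∧ c v = j, v = h.choose)

theorem fsaP_spec {G : SimpleGraph V} {d : ℕ} {c : V → ℕ} {Z : Finset V} {g : V → V}
    (hZ : ZG G d c Z g) {j : ℕ} {y v : V} (h : fsaP G d c Z g j y v) :
    G.Adj y v ∧ c v = j ∧ ((y ∈ Z ∧ v = g y) ∨ Tight G d c v) := by
  rcases h with ⟨h1, h2, rfl⟩ | ⟨-, h, rfl⟩
  · exact ⟨hZ.adj y h1, h2, Or.inl ⟨h1, rfl⟩⟩
  · have := h.choose_spec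
    exact ⟨this.1, this.2.2, Or.inr this.2.1⟩

theorem fsaP_right {G : SimpleGraph V} {d : ℕ} {c : V → ℕ} {Z : Finset V} {g : V → V} {j : ℕ}
    {y v v' : V} (h : fsaP G d c Z g j y v) (h' : fsaP G d c Z g j y v') : v = v' := by
  rcases h with ⟨h1, h2, rfl⟩ | ⟨h1, h, rfl⟩
  · rcases h' with ⟨h1', h2', rfl⟩ | ⟨h1', -⟩
    · rfl
    · exact absurd ⟨h1, h2⟩ h1'
  · rcases h' with ⟨h1', h2', rfl⟩ | ⟨h1', h', rfl⟩
    · exact absurd ⟨h1', h2'⟩ h1
    · rfl

/-- a tight vertex of positive colour has only one neighbour of colour `0` -/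
theorem fsa_tight {G : SimpleGraph V} {d : ℕ} {c : V → ℕ} {v y y' : V} (hv : Tight G d c v)
    (h1 : 1 ≤ c v) (hy : G.Adj v y) (hy' : G.Adj v y') (h0 : c y = 0) (h0' : c y' = 0) :
    y = y' := by
  have h2 := hv.2.2 0 (Nat.zero_le _) (by omega)
  obtain ⟨x, hx⟩ := Finset.card_eq_one.1 h2
  have h3 : y ∈ N G c v 0 := mem_N.2 ⟨hy, h0⟩
  have h4 : y' ∈ N G c v 0 := mem_N.2 ⟨hy', h0'⟩
  rw [hx, Finset.mem_singleton] at h3 h4
  rw [h3, h4]

theorem fsaP_left {G : SimpleGraph V} {d : ℕ} {c : V → ℕ} {Z : Finset V} {g : V → V}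
    (hZ : ZG G d c Z g) {j : ℕ} (hj : 1 ≤ j) {y y' v : V} (hy : c y = 0) (hy' : c y' = 0)
    (h : fsaP G d c Z g j y v) (h' : fsaP G d c Z g j y' v) : y = y' := by
  obtain ⟨a1, a2, a3⟩ := fsaP_spec hZ h
  obtain ⟨b1, b2, b3⟩ := fsaP_spec hZ h'
  have key : Tight G d c v → y = y' := fun ht =>
    fsa_tight ht (by omega) a1.symm b1.symm hy hy'
  rcases a3 with ⟨a3, a4⟩ | a3
  · rcases b3 with ⟨b3, b4⟩ | b3
    · exact hZ.inj y a3 y' b3 (a4.symm.trans b4)
    · exact key b3
  · exact key a3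

/-- the matchings -/
def fsaE (G : SimpleGraph V) (d : ℕ) (c : V → ℕ) (Z : Finset V) (g : V → V)
    (hZ : ZG G d c Z g) (j : ℕ) : SimpleGraph V where
  Adj a b := 1 ≤ j ∧ j < d ∧ ((c a = 0 ∧ fsaP G d c Z g j a b) ∨ (c b = 0 ∧ fsaP G d c Z g j b a))
  symm := ⟨fun _ _ h => ⟨h.1, h.2.1, h.2.2.symm⟩⟩
  loopless := ⟨fun a h => by
    rcases h.2.2 with ⟨_, h⟩ | ⟨_, h⟩
    · exact G.loopless.irrefl a (fsaP_spec hZ h).1
    · exact G.loopless.irrefl a (fsaP_spec hZ h).1⟩

/-- For `1 ≤ j < d` let `E j` consist of the edges `z (g z)` with `z ∈ Z`, `c (g z) = j`, and, for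
every `y` of colour `0` with a tight neighbour of colour `j`, of one edge `y v`, `v` tight of
colour `j`. This is a matching: if `z ∈ Z` has a tight neighbour `v` of colour `j` it is its only
neighbour of colour `j`; a tight vertex has only one neighbour of colour `0`. The last conclusion:
a tight vertex `v` of colour `j` is covered or its neighbour `y` of colour `0` has another tight
neighbour of colour `j` (which is covered). -/
theorem fsa {G : SimpleGraph V} {d : ℕ} {c : V → ℕ} {Z : Finset V} {g : V → V}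
    (hZ : ZG G d c Z g) :
    ∃ E : ℕ → SimpleGraph V,
      (∀ j a b, (E j).Adj a b → G.Adj a b) ∧
      (∀ j a b b', (E j).Adj a b → (E j).Adj a b' → b = b') ∧
      (∀ j a b, (E j).Adj a b → 1 ≤ j ∧ j < d ∧ c a ≤ j) ∧
      (∀ z ∈ Z, ∃ j b, (E j).Adj z b) ∧
      (∀ v, Tight G d c v → 1 ≤ c v → c v < d → (∃ b, (E (c v)).Adj v b) ∨
        ∃ y v', c y = 0 ∧ G.Adj y v ∧ G.Adj y v' ∧ Tight G d c v' ∧ c v' = c v ∧ v' ≠ v ∧
          (E (c v)).Adj y v') := by
  have hcol : ∀ {j : ℕ} {y v : V}, fsaP G d c Z g j y v → c v = j :=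
    fun h => (fsaP_spec hZ h).2.1
  refine ⟨fsaE G d c Z g hZ, ?_, ?_, ?_, ?_, ?_⟩
  · rintro j a b ⟨-, -, h | h⟩
    · exact (fsaP_spec hZ h.2).1
    · exact (fsaP_spec hZ h.2).1.symm
  · rintro j a b b' ⟨h1, h2, h | h⟩ ⟨-, -, h' | h'⟩
    · exact fsaP_right h.2 h'.2
    · have := hcol h'.2
      omega
    · have := hcol h.2
      omega
    · exact fsaP_left hZ h1 h.1 h'.1 h.2 h'.2
  · rintro j a b ⟨h1, h2, h | h⟩
    · exact ⟨h1, h2, by omega⟩
    · exact ⟨h1, h2, (hcol h.2).le⟩
  · intro z hz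
    exact ⟨c (g z), g z, hZ.lo z hz, hZ.hi z hz, Or.inl ⟨hZ.zero z hz, Or.inl ⟨hz, rfl, rfl⟩⟩⟩
  · intro v hv h1 hd
    have h2 := hv.2.2 0 (Nat.zero_le _) (by omega)
    obtain ⟨y, hy⟩ := Finset.card_eq_one.1 h2
    have h3 : y ∈ N G c v 0 := by rw [hy]; exact Finset.mem_singleton_self y
    obtain ⟨hvy, hy0⟩ := mem_N.1 h3
    by_cases hc : y ∈ Z ∧ c (g y) = c v
    · left
      refine ⟨y, h1, hd, Or.inr ⟨hy0, Or.inl ⟨hc.1, hc.2, ?_⟩⟩⟩
      have h4 := hZ.one y hc.1 (c v) h1 hd.le
      obtain ⟨x, hx⟩ := Finset.card_eq_one.1 h4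
      have h5 : v ∈ N G c y (c v) := mem_N.2 ⟨hvy.symm, rfl⟩
      have h6 : g y ∈ N G c y (c v) := mem_N.2 ⟨hZ.adj y hc.1, hc.2⟩
      rw [hx, Finset.mem_singleton] at h5 h6
      rw [h5, h6]
    · have hex : ∃ v', G.Adj y v' ∧ Tight G d c v' ∧ c v' = c v := ⟨v, hvy.symm, hv, rfl⟩
      have hP : fsaP G d c Z g (c v) y hex.choose := Or.inr ⟨hc, hex, rfl⟩
      have hs := hex.choose_spec
      by_cases hvv : hex.choose = v
      · left
        refine ⟨y, h1, hd, Or.inr ⟨hy0, ?_⟩⟩
        rw [hvv] at hP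
        exact hP
      · right
        exact ⟨y, hex.choose, hy0, hvy.symm, hs.1, hs.2.1, hs.2.2, hvv, h1, hd,
          Or.inl ⟨hy0, hP⟩⟩

end Pool.Agent.H44.HYB

end S_FSA

section S_FSB

/-!
The matching of colour `d`.
-/

set_option autoImplicit false
set_option linter.unusedSectionVars false

namespace Pool.Agent.H44.HYB

open Finset Classical

variable {V : Type*} [Fintype V]

/-- Let `X` be a set of tight vertices of colours `1, ..., d - 1` such that the neighbour `y` of
colour `0` of every `v ∈ X` has a tight neighbour `v' ∉ X`, `c v' = c v`. Then there is a matching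
`M` outside `W`, maximal among the matchings outside `W`, which covers all tight vertices of
colour `d` and all vertices of `X`.
Proof. Start with the edges `x (h x)`, `x` tight of colour `d`, `h` from `hal`. For every
`v ∈ X` which is not of the form `h x` add the edge `v y`, `y` the neighbour of colour `0` of `v`
(unique, `tight_N`). This is a matching: `y` has no tight neighbour of colour `d` by `crowd`
(applied to `v, v'`), so it is not of the form `h x`; and `y` has no second neighbour in `X`: a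
second one `v2` of the same colour contradicts `priv_three` (for `v, v', v2`), one of another colour
contradicts `crowd`. Now apply `ext_matching` to the graph of the edges of `G` outside `W`. -/
theorem fsb {G : SimpleGraph V} {d : ℕ} {c : V → ℕ} (hd : 2 ≤ d) (hO : Opt G d c)
    (hdeg : ∀ v, dg G v ≤ d + 2) (X : Set V)
    (hX : ∀ v ∈ X, Tight G d c v ∧ 1 ≤ c v ∧ c v < d ∧ ∃ y v', c y = 0 ∧ G.Adj y v ∧
      G.Adj y v' ∧ Tight G d c v' ∧ c v' = c v ∧ v' ∉ X) :
    ∃ M : SimpleGraph V,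
      (∀ a b, M.Adj a b → G.Adj a b ∧ c a ≤ d ∧ c b ≤ d) ∧
      (∀ a b b', M.Adj a b → M.Adj a b' → b = b') ∧
      (∀ x, Tight G d c x → c x = d → ∃ b, M.Adj x b) ∧
      (∀ x ∈ X, ∃ b, M.Adj x b) ∧
      ∀ a b, G.Adj a b → c a ≤ d → c b ≤ d → (∃ b', M.Adj a b') ∨ (∃ b', M.Adj b b') := by
  obtain ⟨h, hh1, hh2⟩ := hal hd hO hdeg
  have hX' : ∀ v : V, ∃ y v' : V, v ∈ X → (Tight G d c v ∧ 1 ≤ c v ∧ c v < d ∧ c y = 0 ∧
      G.Adj y v ∧ G.Adj y v' ∧ Tight G d c v' ∧ c v' = c v ∧ v' ∉ X) := by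
    intro v
    by_cases hv : v ∈ X
    · obtain ⟨h1, h2, h3, y, v', h4⟩ := hX v hv
      exact ⟨y, v', fun _ => ⟨h1, h2, h3, h4⟩⟩
    · exact ⟨v, v, fun h => absurd h hv⟩
  choose y v' hy using hX'
  -- the two kinds of sources
  let T : Set V := {x | Tight G d c x ∧ c x = d}
  let X' : Set V := {v | v ∈ X ∧ ∀ x ∈ T, h x ≠ v}
  let m : V → V := fun v => if v ∈ T then h v else y v
  have mT : ∀ v ∈ T, m v = h v := fun v hv => if_pos hv
  have hTX : ∀ v ∈ X', v ∉ T := by
    intro v hv hvT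
    have h1 := (hy v hv.1).2.2.1
    have h2 := hvT.2
    omega
  have mX : ∀ v ∈ X', m v = y v := fun v hv => if_neg (hTX v hv)
  have inj : ∀ a b, (a ∈ T ∨ a ∈ X') → (b ∈ T ∨ b ∈ X') → m a = m b → a = b := by
    have hTXne : ∀ x v, x ∈ T → v ∈ X' → h x ≠ y v := by
      intro x v hx hv heq
      obtain ⟨t1, t2, t3, t4, t5, t6, t7, t8, t9⟩ := hy v hv.1
      have h1 := hh1 x hx.1 hx.2
      have hne : v ≠ v' v := fun h => t9 (h ▸ hv.1)
      have hx2 := hx.2
      refine crowd hO hdeg (y := y v) (v := v) (v' := v' v) (x := x) t4 t2 t8 (by omega)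
        (by omega) t1 t7 hx.1 hne t5 t6 ?_
      rw [← heq]
      exact h1.1.symm
    intro a b ha hb hab
    rcases ha with ha | ha <;> rcases hb with hb | hb
    · rw [mT a ha, mT b hb] at hab
      exact hh2 a b ha.1 ha.2 hb.1 hb.2 hab
    · rw [mT a ha, mX b hb] at hab
      exact absurd hab (hTXne a b ha hb)
    · rw [mX a ha, mT b hb] at hab
      exact absurd hab.symm (hTXne b a hb ha)
    · rw [mX a ha, mX b hb] at hab
      by_contra hne
      obtain ⟨t1, t2, t3, t4, t5, t6, t7, t8, t9⟩ := hy a ha.1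
      obtain ⟨s1, s2, s3, s4, s5, s6, s7, s8, s9⟩ := hy b hb.1
      have hnea : a ≠ v' a := fun h => t9 (h ▸ ha.1)
      have hneb : b ≠ v' a := fun h => t9 (h ▸ hb.1)
      by_cases hc : c b = c a
      · have p1 : N G c a (c (y a)) = {y a} := tight_N t1 t5.symm (by omega) (by omega)
        have p2 : N G c (v' a) (c (y a)) = {y a} := tight_N t7 t6.symm (by omega) (by omega)
        have p3 : N G c b (c (y a)) = {y a} := by
          rw [hab]
          exact tight_N s1 s5.symm (by omega) (by omega)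
        rw [t4] at p1 p2 p3
        exact priv_three hO hdeg (i := 0) (j := c a) (y := y a) (v1 := a) (v2 := v' a) (v3 := b)
          (by omega) (by omega) t4 rfl t8 hc t5 t6 (by rw [hab]; exact s5) hnea hne
          (fun h => hneb h.symm) p1 p2 p3
      · refine crowd hO hdeg (y := y a) (v := a) (v' := v' a) (x := b) t4 t2 t8 s2 hc t1 t7 s1
          hnea t5 t6 ?_
        rw [hab]
        exact s5
  have disj : ∀ a, (a ∈ T ∨ a ∈ X') → ¬ (m a ∈ T ∨ m a ∈ X') := by
    intro a ha
    rcases ha with ha | ha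
    · rw [mT a ha]
      have h1 := (hh1 a ha.1 ha.2).2
      rintro (h2 | h2)
      · have := h2.2
        omega
      · exact h2.2 a ha rfl
    · rw [mX a ha]
      have h1 := (hy a ha.1).2.2.2.1
      rintro (h2 | h2)
      · have := h2.2
        omega
      · have := (hy _ h2.1).2.1
        omega
  let M0 : SimpleGraph V :=
    { Adj := fun a b => ((a ∈ T ∨ a ∈ X') ∧ b = m a) ∨ ((b ∈ T ∨ b ∈ X') ∧ a = m b)
      symm := ⟨fun a b hab => hab.symm⟩
      loopless := ⟨fun a ha => by
        have h1 : (a ∈ T ∨ a ∈ X') ∧ a = m a := ha.elim id id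
        have h2 := disj a h1.1
        rw [← h1.2] at h2
        exact h2 h1.1⟩ }
  let R : SimpleGraph V :=
    { Adj := fun a b => G.Adj a b ∧ c a ≤ d ∧ c b ≤ d
      symm := ⟨fun a b hab => ⟨hab.1.symm, hab.2.2, hab.2.1⟩⟩
      loopless := ⟨fun a ha => G.loopless.irrefl a ha.1⟩ }
  have hRm : ∀ a, (a ∈ T ∨ a ∈ X') → R.Adj a (m a) := by
    intro a ha
    rcases ha with ha | ha
    · rw [mT a ha]
      have h1 := hh1 a ha.1 ha.2
      exact ⟨h1.1, ha.2.le, h1.2.le⟩
    · rw [mX a ha]
      obtain ⟨t1, t2, t3, t4, t5, t6, t7, t8, t9⟩ := hy a ha.1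
      exact ⟨t5.symm, t3.le, by omega⟩
  have hM0R : M0 ≤ R := by
    intro a b hab
    rcases hab with ⟨ha, rfl⟩ | ⟨hb, rfl⟩
    · exact hRm a ha
    · exact (hRm b hb).symm
  have hM0m : ∀ a b b', M0.Adj a b → M0.Adj a b' → b = b' := by
    intro a b b' h1 h2
    rcases h1 with ⟨ha, rfl⟩ | ⟨hb, hab⟩ <;> rcases h2 with ⟨ha', rfl⟩ | ⟨hb', hab'⟩
    · rfl
    · exact absurd (by rw [← hab']; exact ha) (disj b' hb')
    · exact absurd (by rw [← hab]; exact ha') (disj b hb)
    · exact inj b b' hb hb' (hab.symm.trans hab')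
  obtain ⟨M, hM1, hM2, hM3, hM4⟩ := ext_matching R M0 hM0R hM0m
  refine ⟨M, fun a b hab => hM2 hab, hM3, ?_, ?_, fun a b hab ha hb => hM4 a b ⟨hab, ha, hb⟩⟩
  · intro x hx hxd
    exact ⟨m x, hM1 (Or.inl ⟨Or.inl ⟨hx, hxd⟩, rfl⟩)⟩
  · intro x hx
    by_cases hx' : x ∈ X'
    · exact ⟨m x, hM1 (Or.inl ⟨Or.inr hx', rfl⟩)⟩
    · have : ∃ x' ∈ T, h x' = x := by
        by_contra hcon
        apply hx'
        refine ⟨hx, fun x' hx'T heq => hcon ⟨x', hx'T, heq⟩⟩
      obtain ⟨x', hx'T, heq⟩ := this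
      refine ⟨x', hM1 (Or.inr ⟨Or.inl hx'T, ?_⟩)⟩
      rw [mT x' hx'T, heq]

end Pool.Agent.H44.HYB

end S_FSB

section S_FSM

/-!
The system of matchings.
-/

set_option autoImplicit false
set_option linter.unusedSectionVars false

namespace Pool.Agent.H44.HYB

open Finset Classical

variable {V : Type*} [Fintype V]

/-- `F j = E j` from `fsa` for `j ≠ d` and `F d = M` from `fsb` for the set `X` of the tight
vertices `v` of colour `1, ..., d - 1` not covered by `E (c v)`. -/
theorem fsm {G : SimpleGraph V} {d : ℕ} {c : V → ℕ} (hd : 2 ≤ d) (hO : Opt G d c)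
    (hdeg : ∀ v, dg G v ≤ d + 2) {Z : Finset V} {g : V → V} (hZ : ZG G d c Z g) :
    ∃ F : ℕ → SimpleGraph V, FS G d c F := by
  obtain ⟨E, hE1, hE2, hE3, hE4, hE5⟩ := fsa hZ
  obtain ⟨M, hM1, hM2, hM3, hM4, hM5⟩ := fsb hd hO hdeg
    {v | Tight G d c v ∧ 1 ≤ c v ∧ c v < d ∧ ∀ b, ¬ (E (c v)).Adj v b} (by
      rintro v ⟨hv1, hv2, hv3, hv4⟩
      refine ⟨hv1, hv2, hv3, ?_⟩
      rcases hE5 v hv1 hv2 hv3 with ⟨b, hb⟩ | ⟨y, v', h1, h2, h3, h4, h5, h6, h7⟩
      · exact absurd hb (hv4 b)
      · refine ⟨y, v', h1, h2, h3, h4, h5, ?_⟩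
        rintro ⟨_, _, _, h8⟩
        rw [h5] at h8
        exact h8 y h7.symm)
  refine ⟨fun j => if j = d then M else E j, ?_⟩
  have hFd : ∀ j, j = d → (if j = d then M else E j) = M := fun j h => if_pos h
  have hFE : ∀ j, j ≠ d → (if j = d then M else E j) = E j := fun j h => if_neg h
  constructor
  · intro j a b hab
    by_cases hj : j = d
    · simp only [hFd j hj] at hab
      exact (hM1 a b hab).1
    · simp only [hFE j hj] at hab
      exact hE1 j a b hab
  · intro j a b b' hab hab'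
    by_cases hj : j = d
    · simp only [hFd j hj] at hab hab'
      exact hM2 a b b' hab hab'
    · simp only [hFE j hj] at hab hab'
      exact hE2 j a b b' hab hab'
  · intro j a b hab
    by_cases hj : j = d
    · simp only [hFd j hj] at hab
      have := (hM1 a b hab).2.1
      omega
    · simp only [hFE j hj] at hab
      have := hE3 j a b hab
      omega
  · intro v hv h1
    by_cases hcv : c v = d
    · obtain ⟨b, hb⟩ := hM3 v hv hcv
      exact ⟨d, b, by simpa [hFd d rfl] using hb⟩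
    · have hlt : c v < d := lt_of_le_of_ne hv.1 hcv
      by_cases hb : ∃ b, (E (c v)).Adj v b
      · obtain ⟨b, hb⟩ := hb
        exact ⟨c v, b, by simpa [hFE (c v) hcv] using hb⟩
      · push Not at hb
        obtain ⟨b', hb'⟩ := hM4 v ⟨hv, h1, hlt, hb⟩
        exact ⟨d, b', by simpa [hFd d rfl] using hb'⟩
  · intro C hC
    obtain ⟨z, hz, hzC⟩ := hZ.meet C hC
    obtain ⟨j, b, hb⟩ := hE4 z hz
    have hj := (hE3 j z b hb).2.1
    exact ⟨z, hzC, hZ.zero z hz, j, b, by simpa [hFE j (by omega)] using hb⟩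
  · intro a b hab ha hb
    rcases hM5 a b hab ha hb with ⟨b', h⟩ | ⟨b', h⟩
    · exact Or.inl ⟨d, b', by simpa [hFd d rfl] using h⟩
    · exact Or.inr ⟨d, b', by simpa [hFd d rfl] using h⟩

end Pool.Agent.H44.HYB

end S_FSM
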