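import Mathlib
import Pool.Agent.H44.HYB.L2

set_option autoImplicit false

/-! Brooks-type bound for (p,1)-total labellings, part L4: this file joins several modules to save build time. -/

section S_CYCA

/-!
The `2`-regular components of `Bg`, structure.
-/

set_option autoImplicit false
set_option linter.unusedSectionVars false

namespace Pool.Agent.H44.HYB

open Finset Classical

variable {V : Type*} [Fintype V]

/-- Double counting the edges between the two classes of `C`. -/
theorem reg_bal {G : SimpleGraph V} {d : ℕ} {c : V → ℕ} (hc : PC G d c) {C : Finset V}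
    (hC : Reg2 G d c C) :
    (C.filter (fun v => c v = d + 1)).card = (C.filter (fun v => c v = 0)).card := by
  obtain ⟨-, hcl, h0, h1⟩ := hC
  have hd := Finset.sum_card_bipartiteAbove_eq_sum_card_bipartiteBelow
    (s := C.filter (fun v => c v = 0)) (t := C.filter (fun v => c v = d + 1)) G.Adj
  have e1 : ∑ a ∈ C.filter (fun v => c v = 0),
      ((C.filter (fun v => c v = d + 1)).bipartiteAbove G.Adj a).card =
      ∑ _a ∈ C.filter (fun v => c v = 0), 2 := by
    refine Finset.sum_congr rfl fun a ha => ?_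
    rw [mem_filter] at ha
    rw [← h0 a ha.1 ha.2]
    congr 1
    ext x
    rw [mem_N, Finset.mem_bipartiteAbove, mem_filter]
    constructor
    · rintro ⟨⟨_, hx⟩, hax⟩
      exact ⟨hax, hx⟩
    · rintro ⟨hax, hx⟩
      exact ⟨⟨hcl.2 a ha.1 x ⟨hax, Or.inl ha.2, Or.inr hx⟩, hx⟩, hax⟩
  have e2 : ∑ b ∈ C.filter (fun v => c v = d + 1),
      ((C.filter (fun v => c v = 0)).bipartiteBelow G.Adj b).card =
      ∑ _b ∈ C.filter (fun v => c v = d + 1), 2 := by
    refine Finset.sum_congr rfl fun b hb => ?_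
    rw [mem_filter] at hb
    rw [← h1 b hb.1 hb.2]
    congr 1
    ext x
    rw [mem_N, Finset.mem_bipartiteBelow, mem_filter]
    constructor
    · rintro ⟨⟨_, hx⟩, hax⟩
      exact ⟨hax.symm, hx⟩
    · rintro ⟨hax, hx⟩
      exact ⟨⟨hcl.2 b hb.1 x ⟨hax, Or.inr hb.2, Or.inl hx⟩, hx⟩, hax.symm⟩
  rw [e1, e2, Finset.sum_const, Finset.sum_const, smul_eq_mul, smul_eq_mul] at hd
  omega

theorem cyca_card {G : SimpleGraph V} {d : ℕ} {c : V → ℕ} {C : Finset V}
    (hcl : Closed G d c C) :
    C.card = (C.filter (fun v => c v = d + 1)).card + (C.filter (fun v => c v = 0)).card := by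
  rw [← Finset.card_union_of_disjoint]
  · congr 1
    ext v
    rw [mem_union, mem_filter, mem_filter]
    constructor
    · intro hv
      rcases hcl.1 v hv with h | h
      · exact Or.inr ⟨hv, h⟩
      · exact Or.inl ⟨hv, h⟩
    · rintro (h | h) <;> exact h.1
  · rw [Finset.disjoint_left]
    intro v hv hv'
    rw [mem_filter] at hv hv'
    omega

/-- Both classes of `C` have at least two elements. -/
theorem reg_four {G : SimpleGraph V} {d : ℕ} {c : V → ℕ} (hc : PC G d c) {C : Finset V}
    (hC : Reg2 G d c C) : 4 ≤ C.card := by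
  have hb := reg_bal hc hC
  obtain ⟨⟨v, hv⟩, hcl, h0, h1⟩ := hC
  have hcard := cyca_card hcl
  rcases hcl.1 v hv with h | h
  · have h2 : 2 ≤ (C.filter (fun v => c v = d + 1)).card := by
      rw [← h0 v hv h]
      refine Finset.card_le_card fun x hx => ?_
      rw [mem_N] at hx
      rw [mem_filter]
      exact ⟨hcl.2 v hv x ⟨hx.1, Or.inl h, Or.inr hx.2⟩, hx.2⟩
    omega
  · have h2 : 2 ≤ (C.filter (fun v => c v = 0)).card := by
      rw [← h1 v hv h]
      refine Finset.card_le_card fun x hx => ?_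
      rw [mem_N] at hx
      rw [mem_filter]
      exact ⟨hcl.2 v hv x ⟨hx.1, Or.inr h, Or.inl hx.2⟩, hx.2⟩
    omega

/-- Every vertex of `C` has exactly one neighbour of every colour `1, ..., d` (`W_two` and
`flp_two`). -/
theorem reg_one {G : SimpleGraph V} {d : ℕ} {c : V → ℕ} (hO : Opt G d c)
    (hdeg : ∀ v, dg G v ≤ d + 2) {C : Finset V} (hC : Reg2 G d c C) {z : V} (hz : z ∈ C)
    {i : ℕ} (h1 : 1 ≤ i) (hi : i ≤ d) : (N G c z i).card = 1 := by
  have hb := reg_bal hO.proper hC
  rcases hC.2.1.1 z hz with h | h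
  · exact (flp_two hO hdeg hC.2.1 hb hz h).2.2 (hC.2.2.1 z hz h) i h1 hi
  · have h2 := hC.2.2.2 z hz h
    exact (W_two hO hdeg h (Nat.zero_le d) h2.ge).2 i hi (by omega)

/-- the neighbours of the opposite colour do not change -/
theorem cyca_N {G : SimpleGraph V} {d : ℕ} {c : V → ℕ} (hc : PC G d c) {T : Finset V}
    (hT : Closed G d c T) {v : V} (hv : c v = 0 ∨ c v = d + 1) :
    N G (flp d c T) v (d + 1 - flp d c T v) = N G c v (d + 1 - c v) := by
  ext x
  rw [mem_N, mem_N]
  refine and_congr_right fun hax => ?_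
  have hx1 := hc.1 x
  by_cases hvT : v ∈ T
  · rw [SWP_in hvT]
    by_cases hxT : x ∈ T
    · rw [SWP_in hxT]
      have := hT.1 x hxT
      omega
    · rw [SWP_out hxT]
      have : ¬ (c x = 0 ∨ c x = d + 1) := fun h => hxT (hT.2 v hvT x ⟨hax, hv, h⟩)
      omega
  · rw [SWP_out hvT]
    by_cases hxT : x ∈ T
    · exact absurd (hT.2 x hxT v ⟨hax.symm, hT.1 x hxT, hv⟩) hvT
    · rw [SWP_out hxT]

/-- Exchanging the two colours on `T` (a balanced closed set) does not change which sets are
`Reg2`. -/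
theorem reg_flp {G : SimpleGraph V} {d : ℕ} {c : V → ℕ} (hc : PC G d c) {T C : Finset V}
    (hT : Closed G d c T) (hC : Reg2 G d (flp d c T) C) : Reg2 G d c C := by
  obtain ⟨hne, hcl, h0, h1⟩ := hC
  have key : ∀ v ∈ C, (N G c v (d + 1 - c v)).card = 2 := by
    intro v hv
    have hcv := (SWP_mem hT.1 v).1 (hcl.1 v hv)
    rw [← cyca_N hc hT hcv]
    rcases hcl.1 v hv with h | h
    · rw [h]
      exact h0 v hv h
    · rw [h, Nat.sub_self]
      exact h1 v hv h
  refine ⟨hne, ⟨fun v hv => (SWP_mem hT.1 v).1 (hcl.1 v hv), ?_⟩, ?_, ?_⟩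
  · intro a ha b hab
    exact hcl.2 a ha b (by rw [flp_Bg hT.1]; exact hab)
  · intro v hv h
    have := key v hv
    rwa [h] at this
  · intro v hv h
    have := key v hv
    rwa [h, Nat.sub_self] at this

end Pool.Agent.H44.HYB

end S_CYCA

section S_CYCB

/-!
The `2`-regular components of `Bg`: choice of the vertices to be covered.
-/

set_option autoImplicit false
set_option linter.unusedSectionVars false

namespace Pool.Agent.H44.HYB

open Finset Classical

variable {V : Type*} [Fintype V]

theorem cycb_count {G : SimpleGraph V} {d : ℕ} {c : V → ℕ} {z : V} (B : Finset V)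
    (h1 : ∀ i, 1 ≤ i → i ≤ d → (N G c z i).card = 1)
    (hB : ∀ v, G.Adj z v → 1 ≤ c v → c v < d → v ∈ B) :
    d - 1 ≤ (B.filter (fun v => G.Adj z v)).card := by
  have hsub : (Finset.Icc 1 (d - 1)).biUnion (N G c z) ⊆ B.filter (fun v => G.Adj z v) := by
    intro v hv
    rw [Finset.mem_biUnion] at hv
    obtain ⟨i, hi, hv⟩ := hv
    rw [Finset.mem_Icc] at hi
    rw [mem_N] at hv
    rw [Finset.mem_filter]
    exact ⟨hB v hv.1 (by omega) (by omega), hv.1⟩
  have hcard : ((Finset.Icc 1 (d - 1)).biUnion (N G c z)).card = d - 1 := by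
    rw [Finset.card_biUnion]
    · rw [Finset.sum_congr rfl (g := fun _ => 1)]
      · simp
      · intro i hi
        rw [Finset.mem_Icc] at hi
        exact h1 i (by omega) (by omega)
    · intro i _ j _ hij
      refine Finset.disjoint_left.2 ?_
      intro v hv hv'
      rw [mem_N] at hv hv'
      exact hij (by rw [← hv.2, hv'.2])
  rw [← hcard]
  exact Finset.card_le_card hsub

/-- Let `I` be the finite type of the connected components `K` of `Bg G d c0` whose support (as a
`Finset`) is `Reg2`. For `K` let `A K` be the set of the vertices of colour `1, ..., d - 1` with a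
neighbour in `K`. Hall's condition holds for `A` (`Finset.all_card_le_biUnion_card_iff_exists_injective`):
for a finset `s` of components the number of adjacent pairs `(z, v)` with `z` in the union of the
components of `s` and `v` of colour in `1, ..., d - 1` is at least `4 (d - 1) |s| ≥ (d + 2) |s|`
(`reg_four`, `reg_one`) and at most `(d + 2) |⋃ A|`. -/
theorem cyc_hall {G : SimpleGraph V} {d : ℕ} {c : V → ℕ} (hd : 2 ≤ d) (hO : Opt G d c)
    (hdeg : ∀ v, dg G v ≤ d + 2) :
    ∃ f : (Bg G d c).ConnectedComponent → V, ∀ K : (Bg G d c).ConnectedComponent,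
      Reg2 G d c K.supp.toFinset →
        (1 ≤ c (f K) ∧ c (f K) < d ∧ ∃ z ∈ K.supp, G.Adj z (f K)) ∧
        ∀ K' : (Bg G d c).ConnectedComponent, Reg2 G d c K'.supp.toFinset → f K = f K' →
          K = K' := by
  set t : {K : (Bg G d c).ConnectedComponent // Reg2 G d c K.supp.toFinset} → Finset V :=
    fun K => univ.filter (fun v => 1 ≤ c v ∧ c v < d ∧ ∃ z ∈ K.1.supp, G.Adj z v) with ht
  have hall : ∀ s : Finset {K : (Bg G d c).ConnectedComponent // Reg2 G d c K.supp.toFinset},
      s.card ≤ (s.biUnion t).card := by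
    intro s
    set B := s.biUnion t with hB
    set U := s.biUnion (fun K => K.1.supp.toFinset) with hU
    have hUcard : 4 * s.card ≤ U.card := by
      rw [hU, Finset.card_biUnion]
      · have h1 := Finset.card_nsmul_le_sum s (fun K => (K.1.supp.toFinset).card) 4
          (fun K _ => reg_four hO.proper K.2)
        rw [smul_eq_mul] at h1
        omega
      · intro K _ K' _ hne
        refine Finset.disjoint_left.2 ?_
        intro v hv hv'
        rw [Set.mem_toFinset, SimpleGraph.ConnectedComponent.mem_supp_iff] at hv hv'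
        exact hne (Subtype.ext (by rw [← hv, hv']))
    have hz : ∀ z ∈ U, d - 1 ≤ (B.filter (fun v => G.Adj z v)).card := by
      intro z hz
      rw [hU, Finset.mem_biUnion] at hz
      obtain ⟨K, hK, hzK⟩ := hz
      refine cycb_count B (fun i h1 h2 => reg_one hO hdeg K.2 hzK h1 h2) fun v hv h1 h2 => ?_
      rw [hB, Finset.mem_biUnion]
      refine ⟨K, hK, ?_⟩
      rw [ht]
      simp only [Finset.mem_filter]
      exact ⟨mem_univ _, h1, h2, z, Set.mem_toFinset.1 hzK, hv⟩
    have hv : ∀ v ∈ B, (U.filter (fun z => G.Adj z v)).card ≤ d + 2 := by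
      intro v _
      refine le_trans (Finset.card_le_card ?_) (hdeg v)
      intro z hz
      rw [Finset.mem_filter] at hz ⊢
      exact ⟨mem_univ _, hz.2.symm⟩
    have hdc : ∑ z ∈ U, (B.filter (fun v => G.Adj z v)).card =
        ∑ v ∈ B, (U.filter (fun z => G.Adj z v)).card :=
      Finset.sum_card_bipartiteAbove_eq_sum_card_bipartiteBelow (fun z v => G.Adj z v)
    have h1 := Finset.card_nsmul_le_sum U _ (d - 1) hz
    have h2 := Finset.sum_le_card_nsmul B _ (d + 2) hv
    rw [smul_eq_mul] at h1 h2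
    rw [hdc] at h1
    have h3 : U.card * (d - 1) ≤ B.card * (d + 2) := le_trans h1 h2
    obtain ⟨e, rfl⟩ : ∃ e, d = e + 2 := ⟨d - 2, by omega⟩
    have h4 : e + 2 - 1 = e + 1 := by omega
    rw [h4] at h3
    by_contra hcon
    push Not at hcon
    have h5 : 4 * s.card * (e + 1) ≤ B.card * (e + 2 + 2) :=
      le_trans (Nat.mul_le_mul_right _ hUcard) h3
    have h6 : (B.card + 1) * (4 * (e + 1)) ≤ s.card * (4 * (e + 1)) :=
      Nat.mul_le_mul_right _ hcon
    nlinarith
  obtain ⟨f, hinj, hf⟩ := (Finset.all_card_le_biUnion_card_iff_exists_injective t).1 hall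
  refine ⟨fun K => if h : Reg2 G d c K.supp.toFinset then f ⟨K, h⟩ else Quot.out K, ?_⟩
  intro K hK
  simp only [dif_pos hK]
  have h1 := hf ⟨K, hK⟩
  rw [ht] at h1
  simp only [Finset.mem_filter] at h1
  refine ⟨h1.2, fun K' hK' heq => ?_⟩
  rw [dif_pos hK'] at heq
  exact congrArg Subtype.val (hinj heq)

end Pool.Agent.H44.HYB

end S_CYCB

section S_CYCC

/-!
The `2`-regular components of `Bg`: end of the choice.
-/

set_option autoImplicit false
set_option linter.unusedSectionVars false

namespace Pool.Agent.H44.HYB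

open Finset Classical

variable {V : Type*} [Fintype V]

/-- A closed set contains the components of its elements. -/
theorem CYCC_supp {G : SimpleGraph V} {d : ℕ} {c : V → ℕ} {C : Finset V}
    (hC : Closed G d c C) {v : V} (hv : v ∈ C) {u : V}
    (hu : (Bg G d c).connectedComponentMk u = (Bg G d c).connectedComponentMk v) : u ∈ C := by
  have hr : (Bg G d c).Reachable v u := (SimpleGraph.ConnectedComponent.eq.1 hu).symm
  obtain ⟨p⟩ := hr
  induction p with
  | nil => exact hv
  | cons h _ ih =>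
    exact ih (hC.2 _ hv _ h)
      (hu.trans (SimpleGraph.ConnectedComponent.sound h.reachable))

/-- Choose `f` by `cyc_hall`, for every `Reg2` component `K` a vertex `z K ∈ K` adjacent to `f K`,
and exchange the colours `0` and `d + 1` on the union `T` of the supports of the `K` with
`c (z K) = d + 1` (closed; balanced by `reg_bal`; `flp_opt`). Then `Z` = the set of the `z K`,
`g (z K) = f K`. Every `Reg2` set is a union of supports of `Reg2` components. -/
theorem cyc_main {G : SimpleGraph V} {d : ℕ} {c0 : V → ℕ} (hd : 2 ≤ d) (hO : Opt G d c0)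
    (hdeg : ∀ v, dg G v ≤ d + 2) :
    ∃ (c : V → ℕ) (Z : Finset V) (g : V → V), Opt G d c ∧ ZG G d c Z g := by
  obtain ⟨f, hf⟩ := cyc_hall hd hO hdeg
  have hz : ∀ K : (Bg G d c0).ConnectedComponent, ∃ z : V, Reg2 G d c0 K.supp.toFinset →
      z ∈ K.supp ∧ G.Adj z (f K) := by
    intro K
    by_cases hK : Reg2 G d c0 K.supp.toFinset
    · obtain ⟨⟨-, -, z, hz1, hz2⟩, -⟩ := hf K hK
      exact ⟨z, fun _ => ⟨hz1, hz2⟩⟩
    · obtain ⟨v, hv⟩ := K.nonempty_supp
      exact ⟨v, fun h => absurd h hK⟩
  choose z hz using hz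
  set cm : V → (Bg G d c0).ConnectedComponent := (Bg G d c0).connectedComponentMk with hcm
  -- the set to be exchanged
  set T : Finset V := univ.filter (fun v => Reg2 G d c0 (cm v).supp.toFinset ∧
    c0 (z (cm v)) = d + 1) with hTdef
  have hmemT : ∀ v, v ∈ T ↔ Reg2 G d c0 (cm v).supp.toFinset ∧ c0 (z (cm v)) = d + 1 := by
    intro v
    rw [hTdef, mem_filter]
    exact ⟨fun h => h.2, fun h => ⟨mem_univ _, h⟩⟩
  have hself : ∀ v, v ∈ (cm v).supp.toFinset := by
    intro v
    rw [Set.mem_toFinset]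
    exact SimpleGraph.ConnectedComponent.connectedComponentMk_mem
  have hT : Closed G d c0 T := by
    refine ⟨fun v hv => ?_, fun a ha b hab => ?_⟩
    · exact ((hmemT v).1 hv).1.2.1.1 v (hself v)
    · have : cm b = cm a := SimpleGraph.ConnectedComponent.sound hab.symm.reachable
      rw [hmemT, this]
      exact (hmemT a).1 ha
  have hbal : (T.filter (fun v => c0 v = d + 1)).card = (T.filter (fun v => c0 v = 0)).card := by
    by_cases hne : T.Nonempty
    · apply reg_bal hO.proper
      exact ⟨hne, hT, fun v hv => ((hmemT v).1 hv).1.2.2.1 v (hself v),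
        fun v hv => ((hmemT v).1 hv).1.2.2.2 v (hself v)⟩
    · rw [Finset.not_nonempty_iff_eq_empty] at hne
      rw [hne]
      rfl
  have hO' := flp_opt hO hT hbal
  have hzc : ∀ K : (Bg G d c0).ConnectedComponent, Reg2 G d c0 K.supp.toFinset →
      cm (z K) = K := by
    intro K hK
    exact (hz K hK).1
  have hoff : ∀ v, c0 v ≠ 0 → c0 v ≠ d + 1 → flp d c0 T v = c0 v := by
    intro v h1 h2
    unfold flp
    rw [if_neg]
    intro hv
    rcases hT.1 v hv with h | h
    · exact h1 h
    · exact h2 h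
  have hN : ∀ v i, 1 ≤ i → i ≤ d → N G (flp d c0 T) v i = N G c0 v i := by
    intro v i h1 h2
    ext u
    rw [mem_N, mem_N]
    refine and_congr_right fun _ => ?_
    by_cases hu : u ∈ T
    · have h3 : flp d c0 T u = d + 1 - c0 u := by
        unfold flp
        rw [if_pos hu]
      rw [h3]
      rcases hT.1 u hu with h | h <;> rw [h] <;> constructor <;> intro h4 <;> omega
    · have h3 : flp d c0 T u = c0 u := by
        unfold flp
        rw [if_neg hu]
      rw [h3]
  set Z : Finset V := univ.filter (fun v => ∃ K : (Bg G d c0).ConnectedComponent,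
    Reg2 G d c0 K.supp.toFinset ∧ z K = v) with hZdef
  have hmemZ : ∀ v, v ∈ Z ↔ ∃ K : (Bg G d c0).ConnectedComponent,
      Reg2 G d c0 K.supp.toFinset ∧ z K = v := by
    intro v
    rw [hZdef, mem_filter]
    exact ⟨fun h => h.2, fun h => ⟨mem_univ _, h⟩⟩
  refine ⟨flp d c0 T, Z, fun v => f (cm v), hO', ?_⟩
  constructor
  · -- zero
    intro v hv
    obtain ⟨K, hK, rfl⟩ := (hmemZ v).1 hv
    have hKm : z K ∈ K.supp.toFinset := by
      rw [Set.mem_toFinset]; exact (hz K hK).1
    by_cases hc : c0 (z K) = d + 1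
    · have hmem : z K ∈ T := by
        rw [hmemT, hzc K hK]
        exact ⟨hK, hc⟩
      unfold flp
      rw [if_pos hmem, hc, Nat.sub_self]
    · have hmem : z K ∉ T := by
        rw [hmemT, hzc K hK]
        exact fun h => hc h.2
      unfold flp
      rw [if_neg hmem]
      exact (hK.2.1.1 _ hKm).resolve_right hc
  · -- one
    intro v hv i h1 h2
    obtain ⟨K, hK, rfl⟩ := (hmemZ v).1 hv
    rw [hN _ i h1 h2]
    refine reg_one hO hdeg hK ?_ h1 h2
    rw [Set.mem_toFinset]; exact (hz K hK).1
  · -- adj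
    intro v hv
    obtain ⟨K, hK, rfl⟩ := (hmemZ v).1 hv
    show G.Adj (z K) (f (cm (z K)))
    rw [hzc K hK]
    exact (hz K hK).2
  · -- lo
    intro v hv
    obtain ⟨K, hK, rfl⟩ := (hmemZ v).1 hv
    show 1 ≤ flp d c0 T (f (cm (z K)))
    rw [hzc K hK]
    obtain ⟨⟨h1, h2, -⟩, -⟩ := hf K hK
    rw [hoff _ (by omega) (by omega)]
    exact h1
  · -- hi
    intro v hv
    obtain ⟨K, hK, rfl⟩ := (hmemZ v).1 hv
    show flp d c0 T (f (cm (z K))) < d
    rw [hzc K hK]
    obtain ⟨⟨h1, h2, -⟩, -⟩ := hf K hK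
    rw [hoff _ (by omega) (by omega)]
    exact h2
  · -- inj
    intro v hv v' hv' he
    obtain ⟨K, hK, rfl⟩ := (hmemZ v).1 hv
    obtain ⟨K', hK', rfl⟩ := (hmemZ v').1 hv'
    have he' : f (cm (z K)) = f (cm (z K')) := he
    rw [hzc K hK, hzc K' hK'] at he'
    rw [(hf K hK).2 K' hK' he']
  · -- meet
    intro C hC
    have hC0 := reg_flp hO.proper hT hC
    obtain ⟨v, hv⟩ := hC0.1
    have hsub : ∀ u ∈ (cm v).supp.toFinset, u ∈ C := by
      intro u hu
      rw [Set.mem_toFinset] at hu
      exact CYCC_supp hC0.2.1 hv hu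
    have hK : Reg2 G d c0 (cm v).supp.toFinset := by
      refine ⟨⟨v, hself v⟩, ⟨fun u hu => hC0.2.1.1 u (hsub u hu), ?_⟩,
        fun u hu => hC0.2.2.1 u (hsub u hu), fun u hu => hC0.2.2.2 u (hsub u hu)⟩
      intro a ha b hab
      rw [Set.mem_toFinset] at ha ⊢
      have h1 : cm b = cm a := SimpleGraph.ConnectedComponent.sound hab.symm.reachable
      have h2 : cm a = cm v := ha
      exact h1.trans h2
    refine ⟨z (cm v), (hmemZ _).2 ⟨cm v, hK, rfl⟩, hsub _ ?_⟩
    rw [Set.mem_toFinset]
    exact (hz _ hK).1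

end Pool.Agent.H44.HYB

end S_CYCC
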