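import Mathlib
import Pool.Agent.H44.HYB.L1

set_option autoImplicit false

/-! Brooks-type bound for (p,1)-total labellings, part L5: this file joins several modules to save build time. -/

section S_GRE

/-!
Greedy colouring along a path.
-/

set_option autoImplicit false
set_option linter.unusedSectionVars false

namespace Pool.Agent.H44.HYB

open Finset Classical

variable {V : Type*} [Fintype V]

/-- `c` is a proper colouring of `G[B]` with the colours `< k`. -/
def PCol (G : SimpleGraph V) (k : ℕ) (B : Finset V) (c : V → ℕ) : Prop :=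
  (∀ v ∈ B, c v < k) ∧ ∀ u ∈ B, ∀ v ∈ B, G.Adj u v → c u ≠ c v

/-- One more vertex `x`, which sees fewer than `k` colours in `B`. The colours of the vertices of
`B` do not change. -/
theorem gre_one {G : SimpleGraph V} {k : ℕ} {B : Finset V} {c : V → ℕ} (hc : PCol G k B c)
    {x : V} (hx : x ∉ B) (hk : ((B.filter (fun u => G.Adj x u)).image c).card < k) :
    ∃ c', PCol G k (insert x B) c' ∧ ∀ v ∈ B, c' v = c v := by
  have h1 : ((B.filter (fun u => G.Adj x u)).image c).card < (Finset.range k).card := by
    rw [Finset.card_range]; exact hk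
  obtain ⟨j, hj, hj'⟩ := Finset.exists_mem_notMem_of_card_lt_card h1
  have hjk : j < k := Finset.mem_range.mp hj
  have hne : ∀ v ∈ B, v ≠ x := fun v hv h => hx (h ▸ hv)
  have hold : ∀ v ∈ B, Function.update c x j v = c v := fun v hv =>
    Function.update_of_ne (hne v hv) _ _
  have hnew : Function.update c x j x = j := Function.update_self _ _ _
  have hj2 : ∀ v ∈ B, G.Adj x v → c v ≠ j := by
    intro v hv hadj h
    apply hj'
    rw [Finset.mem_image]
    exact ⟨v, Finset.mem_filter.mpr ⟨hv, hadj⟩, h⟩
  refine ⟨Function.update c x j, ⟨?_, ?_⟩, hold⟩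
  · intro v hv
    rcases Finset.mem_insert.mp hv with rfl | hv
    · rw [hnew]; exact hjk
    · rw [hold v hv]; exact hc.1 v hv
  · intro u hu v hv hadj
    rcases Finset.mem_insert.mp hu with hux | hu
    · rcases Finset.mem_insert.mp hv with hvx | hv
      · exact absurd (hux.trans hvx.symm) hadj.ne
      · rw [hold v hv, hux, hnew]
        exact (hj2 v hv (hux ▸ hadj)).symm
    · rcases Finset.mem_insert.mp hv with hvx | hv
      · rw [hold u hu, hvx, hnew]
        exact hj2 u hu (hvx ▸ hadj.symm)
      · rw [hold u hu, hold v hv]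
        exact hc.2 u hu v hv hadj

/-- Colour the vertices of the list `L` in this order: each of them has a neighbour (in `A`) which
is not yet coloured: the next one in the list, or `y` for the last one. -/
theorem gre_list {G : SimpleGraph V} {k : ℕ} {A : Finset V}
    (hA : ∀ v ∈ A, (A.filter (fun u => G.Adj v u)).card ≤ k) (L : List V) (y : V) :
    ∀ (B : Finset V) (c : V → ℕ), PCol G k B c → B ⊆ A → y ∈ A → y ∉ B → y ∉ L →
      (∀ x ∈ L, x ∈ A ∧ x ∉ B) → (L ++ [y]).Nodup → (L ++ [y]).IsChain G.Adj →
      ∃ c', PCol G k (B ∪ L.toFinset) c' ∧ ∀ v ∈ B, c' v = c v := by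
  induction L with
  | nil =>
    intro B c hc _ _ _ _ _ _ _
    refine ⟨c, ?_, fun _ _ => rfl⟩
    simpa using hc
  | cons x L ih =>
    intro B c hc hBA hyA hyB hyL hL hnd hch
    obtain ⟨hxA, hxB⟩ := hL x (List.mem_cons_self)
    -- the next vertex
    obtain ⟨z, hz1, hz2, hz3⟩ : ∃ z, G.Adj x z ∧ z ∈ A ∧ z ∉ B := by
      cases L with
      | nil =>
        refine ⟨y, ?_, hyA, hyB⟩
        simpa using hch
      | cons w L =>
        refine ⟨w, ?_, hL w (by simp)⟩
        simp only [List.cons_append, List.isChain_cons_cons] at hch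
        exact hch.1
    have hcard : ((B.filter (fun u => G.Adj x u)).image c).card < k := by
      refine lt_of_le_of_lt Finset.card_image_le ?_
      refine lt_of_lt_of_le ?_ (hA x hxA)
      apply Finset.card_lt_card
      refine ⟨Finset.filter_subset_filter _ hBA, ?_⟩
      intro hsub
      have := hsub (Finset.mem_filter.mpr ⟨hz2, hz1⟩)
      exact hz3 (Finset.mem_filter.mp this).1
    obtain ⟨c₁, hc₁, hc₁'⟩ := gre_one hc hxB hcard
    have hnd' : x ∉ L ++ [y] ∧ (L ++ [y]).Nodup := by
      rw [List.cons_append, List.nodup_cons] at hnd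
      exact hnd
    obtain ⟨c₂, hc₂, hc₂'⟩ := ih (insert x B) c₁ hc₁ (Finset.insert_subset hxA hBA) hyA
      (by
        rw [Finset.mem_insert, not_or]
        exact ⟨fun h => hyL (by simp [h]), hyB⟩)
      (fun h => hyL (List.mem_cons_of_mem _ h))
      (by
        intro u hu
        refine ⟨(hL u (List.mem_cons_of_mem _ hu)).1, ?_⟩
        rw [Finset.mem_insert, not_or]
        refine ⟨?_, (hL u (List.mem_cons_of_mem _ hu)).2⟩
        rintro rfl
        exact hnd'.1 (List.mem_append_left _ hu))
      hnd'.2
      (by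
        rw [List.cons_append] at hch
        exact hch.tail)
    refine ⟨c₂, ?_, ?_⟩
    · have : B ∪ (x :: L).toFinset = insert x B ∪ L.toFinset := by
        ext u
        simp only [List.toFinset_cons, Finset.mem_union, Finset.mem_insert]
        tauto
      rw [this]
      exact hc₂
    · intro v hv
      rw [hc₂' v (Finset.mem_insert_of_mem hv), hc₁' v hv]

end Pool.Agent.H44.HYB

end S_GRE

section S_BRO

/-!
Brooks' theorem (proof of Zajac).
-/

set_option autoImplicit false
set_option linter.unusedSectionVars false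

namespace Pool.Agent.H44.HYB

open Finset Classical

variable {V : Type*} [Fintype V]

/-- Colouring with one colour more than the maximum degree. -/
theorem greedy {G : SimpleGraph V} {D : ℕ} (hdeg : ∀ v, dg G v ≤ D) :
    ∃ c : V → ℕ, (∀ v, c v ≤ D) ∧ ∀ u v, G.Adj u v → c u ≠ c v := by
  have key : ∀ A : Finset V, ∃ c : V → ℕ, PCol G (D + 1) A c := by
    intro A
    induction A using Finset.induction_on with
    | empty => exact ⟨fun _ => 0, by simp, by simp⟩
    | insert x B hx ih =>
      obtain ⟨c, hc⟩ := ih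
      have hcard : ((B.filter (fun u => G.Adj x u)).image c).card < D + 1 := by
        refine Nat.lt_succ_of_le (Finset.card_image_le.trans ?_)
        refine le_trans (Finset.card_le_card ?_) (hdeg x)
        exact Finset.filter_subset_filter _ (Finset.subset_univ _)
      obtain ⟨c', hc', -⟩ := gre_one hc hx hcard
      exact ⟨c', hc'⟩
  obtain ⟨c, hc1, hc2⟩ := key univ
  exact ⟨c, fun v => Nat.lt_succ_iff.mp (hc1 v (mem_univ v)),
    fun u v h => hc2 u (mem_univ u) v (mem_univ v) h⟩

/-- Case 1 of the induction: the path `v1 v2 v3 ... vr` (here `[a, b, e] ++ L`) contains all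
vertices of `A`, `a`, `e` not adjacent, and `b` has another neighbour `x` on it (`x ∈ L`).
Write `L = L1 ++ x :: L2`. Colour `a`, `e` with `0`, then `L1` (each vertex has the next one of
`L1 ++ [x]` not yet coloured), then `L2.reverse` (the same), then `x` (`b` is not yet coloured),
then `b` (which has two neighbours of colour `0`, so sees at most `k - 1` colours). -/
theorem bro_ham {G : SimpleGraph V} {k : ℕ} (hk : 1 ≤ k) {A : Finset V}
    (hA : ∀ v ∈ A, (A.filter (fun u => G.Adj v u)).card ≤ k) {a b e x : V} {L : List V}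
    (hnd : (a :: b :: e :: L).Nodup) (hch : (a :: b :: e :: L).IsChain G.Adj)
    (hall : ∀ v, v ∈ A ↔ v ∈ (a :: b :: e :: L)) (hae : ¬ G.Adj a e) (hx : x ∈ L)
    (hbx : G.Adj b x) : ∃ c, PCol G k A c := by
  obtain ⟨L1, L2, rfl⟩ := List.append_of_mem hx
  simp only [List.isChain_cons_cons] at hch
  obtain ⟨hab, hbe, hch⟩ := hch
  have hch' : (L1 ++ x :: L2).IsChain G.Adj := hch.tail
  have hndL : (L1 ++ x :: L2).Nodup := by
    simp only [List.nodup_cons] at hnd
    exact hnd.2.2.2
  simp only [List.nodup_cons, List.mem_cons, List.mem_append, not_or] at hnd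
  obtain ⟨⟨hab', hae', haL1, hax, haL2⟩, ⟨hbe', hbL1, hbx', hbL2⟩, ⟨heL1, hex, heL2⟩, -⟩ := hnd
  rw [List.nodup_append] at hndL
  obtain ⟨hn1, hn2, hn3⟩ := hndL
  rw [List.nodup_cons] at hn2
  obtain ⟨hxL2, hn2⟩ := hn2
  have hxL1 : x ∉ L1 := fun h => hn3 x h x (by simp) rfl
  have hL12 : ∀ z ∈ L1, z ∉ L2 := fun z hz hz2 => hn3 z hz z (by simp [hz2]) rfl
  have hmA : ∀ v, v ∈ A ↔ v = a ∨ v = b ∨ v = e ∨ v ∈ L1 ∨ v = x ∨ v ∈ L2 := by
    intro v
    rw [hall v]
    simp only [List.mem_cons, List.mem_append]
  -- the start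
  have h0 : PCol G k {a, e} (fun _ => 0) := by
    refine ⟨fun _ _ => hk, ?_⟩
    intro u hu v hv hadj
    exfalso
    simp only [Finset.mem_insert, Finset.mem_singleton] at hu hv
    rcases hu with rfl | rfl <;> rcases hv with rfl | rfl
    · exact hadj.ne rfl
    · exact hae hadj
    · exact hae hadj.symm
    · exact hadj.ne rfl
  -- L1
  obtain ⟨c₁, hc₁, hc₁'⟩ := gre_list hA L1 x {a, e} (fun _ => 0) h0
    (by
      intro v hv
      simp only [Finset.mem_insert, Finset.mem_singleton] at hv
      rw [hmA]; tauto)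
    (by rw [hmA]; tauto)
    (by
      simp only [Finset.mem_insert, Finset.mem_singleton, not_or]
      exact ⟨fun h => hax h.symm, fun h => hex h.symm⟩)
    hxL1
    (by
      intro z hz
      refine ⟨by rw [hmA]; tauto, ?_⟩
      simp only [Finset.mem_insert, Finset.mem_singleton, not_or]
      exact ⟨fun h => haL1 (h ▸ hz), fun h => heL1 (h ▸ hz)⟩)
    (by
      rw [List.nodup_append]
      refine ⟨hn1, List.nodup_singleton _, ?_⟩
      intro u hu v hv
      rw [List.mem_singleton] at hv
      rintro rfl
      exact hxL1 (hv ▸ hu))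
    (by
      have : L1 ++ x :: L2 = (L1 ++ [x]) ++ L2 := by simp
      rw [this] at hch'
      exact hch'.left_of_append)
  -- L2
  obtain ⟨c₂, hc₂, hc₂'⟩ := gre_list hA L2.reverse x ({a, e} ∪ L1.toFinset) c₁ hc₁
    (by
      intro v hv
      simp only [Finset.mem_union, Finset.mem_insert, Finset.mem_singleton, List.mem_toFinset] at hv
      rw [hmA]; tauto)
    (by rw [hmA]; tauto)
    (by
      simp only [Finset.mem_union, Finset.mem_insert, Finset.mem_singleton, List.mem_toFinset,
        not_or]
      exact ⟨⟨fun h => hax h.symm, fun h => hex h.symm⟩, hxL1⟩)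
    (by rw [List.mem_reverse]; exact hxL2)
    (by
      intro z hz
      rw [List.mem_reverse] at hz
      refine ⟨by rw [hmA]; tauto, ?_⟩
      simp only [Finset.mem_union, Finset.mem_insert, Finset.mem_singleton, List.mem_toFinset,
        not_or]
      exact ⟨⟨fun h => haL2 (h ▸ hz), fun h => heL2 (h ▸ hz)⟩, fun h => hL12 z h hz⟩)
    (by
      have : L2.reverse ++ [x] = (x :: L2).reverse := by simp
      rw [this, List.nodup_reverse, List.nodup_cons]
      exact ⟨hxL2, hn2⟩)
    (by
      have : L2.reverse ++ [x] = (x :: L2).reverse := by simp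
      rw [this, List.isChain_reverse]
      have h1 : (x :: L2).IsChain G.Adj := hch'.right_of_append
      exact h1.imp (fun u v h => SimpleGraph.Adj.symm h))
  -- x
  obtain ⟨c₃, hc₃, hc₃'⟩ := gre_list hA [x] b ({a, e} ∪ L1.toFinset ∪ L2.reverse.toFinset) c₂ hc₂
    (by
      intro v hv
      simp only [Finset.mem_union, Finset.mem_insert, Finset.mem_singleton, List.mem_toFinset,
        List.mem_reverse] at hv
      rw [hmA]; tauto)
    (by rw [hmA]; tauto)
    (by
      simp only [Finset.mem_union, Finset.mem_insert, Finset.mem_singleton, List.mem_toFinset,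
        List.mem_reverse, not_or]
      exact ⟨⟨⟨fun h => hab' h.symm, hbe'⟩, hbL1⟩, hbL2⟩)
    (by rw [List.mem_singleton]; exact hbx')
    (by
      intro z hz
      rw [List.mem_singleton] at hz
      subst hz
      refine ⟨by rw [hmA]; tauto, ?_⟩
      simp only [Finset.mem_union, Finset.mem_insert, Finset.mem_singleton, List.mem_toFinset,
        List.mem_reverse, not_or]
      exact ⟨⟨⟨fun h => hax h.symm, fun h => hex h.symm⟩, hxL1⟩, hxL2⟩)
    (by
      simp only [List.cons_append, List.nil_append, List.nodup_cons, List.mem_singleton,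
        List.not_mem_nil, not_false_eq_true, List.nodup_nil, and_true]
      exact fun h => hbx' h.symm)
    (by simpa using hbx.symm)
  -- b
  set B := ({a, e} ∪ L1.toFinset ∪ L2.reverse.toFinset ∪ [x].toFinset : Finset V) with hB
  have hmB : ∀ v, v ∈ B ↔ v = a ∨ v = e ∨ v ∈ L1 ∨ v ∈ L2 ∨ v = x := by
    intro v
    simp only [hB, Finset.mem_union, Finset.mem_insert, Finset.mem_singleton, List.mem_toFinset,
      List.mem_reverse, List.mem_singleton]
    tauto
  have hbB : b ∉ B := by
    rw [hmB]
    simp only [not_or]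
    exact ⟨fun h => hab' h.symm, hbe', hbL1, hbL2, hbx'⟩
  have hca : c₃ a = 0 := by
    rw [hc₃' a (by simp), hc₂' a (by simp), hc₁' a (by simp)]
  have hce : c₃ e = 0 := by
    rw [hc₃' e (by simp), hc₂' e (by simp), hc₁' e (by simp)]
  have haS : a ∈ B.filter (fun u => G.Adj b u) :=
    Finset.mem_filter.mpr ⟨by rw [hmB]; tauto, hab.symm⟩
  have heS : e ∈ B.filter (fun u => G.Adj b u) :=
    Finset.mem_filter.mpr ⟨by rw [hmB]; tauto, hbe⟩
  have hcard : ((B.filter (fun u => G.Adj b u)).image c₃).card < k := by
    have h1 : (B.filter (fun u => G.Adj b u)).image c₃ =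
        ((B.filter (fun u => G.Adj b u)).erase a).image c₃ := by
      apply le_antisymm
      · intro j hj
        rw [Finset.mem_image] at hj ⊢
        obtain ⟨u, hu, rfl⟩ := hj
        rcases eq_or_ne u a with rfl | hne
        · exact ⟨e, Finset.mem_erase.mpr ⟨fun h => hae' h.symm, heS⟩, hce.trans hca.symm⟩
        · exact ⟨u, Finset.mem_erase.mpr ⟨hne, hu⟩, rfl⟩
      · exact Finset.image_subset_image (Finset.erase_subset _ _)
    rw [h1]
    refine lt_of_le_of_lt Finset.card_image_le ?_
    refine lt_of_lt_of_le (Finset.card_erase_lt_of_mem haS) ?_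
    refine le_trans (Finset.card_le_card (Finset.filter_subset_filter _ ?_))
      (hA b (by rw [hmA]; tauto))
    intro v hv
    rw [hmB] at hv
    rw [hmA]; tauto
  obtain ⟨c₄, hc₄, -⟩ := gre_one hc₃ hbB hcard
  refine ⟨c₄, ?_⟩
  have : A = insert b B := by
    ext v
    rw [hmA, Finset.mem_insert, hmB]
    tauto
  rw [this]
  exact hc₄

end Pool.Agent.H44.HYB

end S_BRO

section S_BRC

/-!
Brooks' theorem (proof of Zajac), cycle case.
-/

set_option autoImplicit false
set_option linter.unusedSectionVars false

namespace Pool.Agent.H44.HYB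

open Finset Classical

variable {V : Type*} [Fintype V]

/-- The last element of a list with a property which the last element does not have. -/
theorem BRC_split {P : V → Prop} : ∀ (C : List V), (∃ v ∈ C, P v) →
    (∀ x, C.getLast? = some x → ¬ P x) →
    ∃ L1 a b L2, C = L1 ++ a :: b :: L2 ∧ P a ∧ ¬ P b
  | [], h, _ => by
    obtain ⟨v, hv, _⟩ := h
    simp at hv
  | [x], h, hl => by
    obtain ⟨v, hv, hp⟩ := h
    rw [List.mem_singleton] at hv
    subst hv
    exact absurd hp (hl v rfl)
  | x :: y :: C1, h, hl => by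
    by_cases h1 : ∃ v ∈ y :: C1, P v
    · obtain ⟨L1, a, b, L2, he, ha, hb⟩ := BRC_split (y :: C1) h1 (fun z hz => hl z (by
        rw [List.getLast?_cons_cons]
        exact hz))
      exact ⟨x :: L1, a, b, L2, by rw [he]; rfl, ha, hb⟩
    · push Not at h1
      obtain ⟨v, hv, hp⟩ := h
      rcases List.mem_cons.mp hv with h2 | h2
      · subst h2
        exact ⟨[], v, y, C1, rfl, hp, h1 y (List.mem_cons_self ..)⟩
      · exact absurd hp (h1 v h2)

/-- Case 2: a cycle `C = [u1, ..., um]` in `A` (`um` adjacent to `u1`) such that `A \ C` is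
coloured, some vertex of `C` has a neighbour in `A \ C` and `um` has none. Let `t` be the last
index such that `ut` has a neighbour `u ∈ A \ C`; so `t < m` and `u(t+1)` has no neighbour in
`A \ C`. Give `u(t+1)` the colour of `u`, then colour `u(t+2), ..., um, u1, ..., u(t-1)` (each has
the next one not yet coloured; `gre_list` with `y = ut`) and at last `ut`, which has the two
neighbours `u`, `u(t+1)` of the same colour. -/
theorem bro_cyc {G : SimpleGraph V} {k : ℕ} {A : Finset V}
    (hA : ∀ v ∈ A, (A.filter (fun u => G.Adj v u)).card ≤ k) {C : List V} {u1 um : V}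
    {C' : List V} (hC : C = u1 :: C' ++ [um]) (hC' : C' ≠ []) (hnd : C.Nodup)
    (hch : C.IsChain G.Adj)
    (hcl : G.Adj um u1) (hCA : ∀ v ∈ C, v ∈ A) {c : V → ℕ}
    (hc : PCol G k (A \ C.toFinset) c) (hout : ∃ v ∈ C, ∃ u ∈ A, u ∉ C ∧ G.Adj v u)
    (hum : ∀ u ∈ A, u ∉ C → ¬ G.Adj um u) : ∃ c', PCol G k A c' := by
  have hlast : C.getLast? = some um := by
    rw [hC]
    exact List.getLast?_concat
  have hhead : C.head? = some u1 := by
    rw [hC]
    simp
  obtain ⟨L1, a, b, L2, he, ⟨u, huA, huC, hau⟩, hb⟩ := BRC_split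
    (P := fun v => ∃ u ∈ A, u ∉ C ∧ G.Adj v u) C hout (fun x hx => by
      rw [hlast] at hx
      obtain rfl : um = x := Option.some.inj hx
      rintro ⟨u, h1, h2, h3⟩
      exact hum u h1 h2 h3)
  push Not at hb
  have hne : a ∈ C := by rw [he]; simp
  have hbC : b ∈ C := by rw [he]; simp
  have hab : G.Adj a b := by
    rw [he, List.isChain_append] at hch
    exact (List.isChain_cons_cons.mp hch.2.1).1
  -- the set coloured first
  set A0 : Finset V := A \ C.toFinset with hA0
  have hA0m : ∀ v, v ∈ A0 ↔ v ∈ A ∧ v ∉ C := by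
    intro v
    rw [hA0, Finset.mem_sdiff, List.mem_toFinset]
  have hbA0 : b ∉ A0 := fun h => ((hA0m b).mp h).2 hbC
  have huA0 : u ∈ A0 := (hA0m u).mpr ⟨huA, huC⟩
  have hPB : PCol G k (insert b A0) (Function.update c b (c u)) := by
    refine ⟨fun v hv => ?_, fun v hv w hw hvw => ?_⟩
    · rcases Finset.mem_insert.mp hv with rfl | hv
      · rw [Function.update_self]
        exact hc.1 u huA0
      · have hvb : v ≠ b := fun h => hbA0 (h ▸ hv)
        rw [Function.update_of_ne hvb]
        exact hc.1 v hv
    · rcases Finset.mem_insert.mp hv with hvb | hv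
      · rcases Finset.mem_insert.mp hw with hwb | hw
        · rw [hvb, hwb] at hvw
          exact absurd hvw (G.loopless.irrefl b)
        · rw [hvb] at hvw
          exact absurd hvw (hb w ((hA0m w).mp hw).1 ((hA0m w).mp hw).2)
      · rcases Finset.mem_insert.mp hw with hwb | hw
        · rw [hwb] at hvw
          exact absurd hvw.symm (hb v ((hA0m v).mp hv).1 ((hA0m v).mp hv).2)
        · have hvb : v ≠ b := fun h => hbA0 (h ▸ hv)
          have hwb : w ≠ b := fun h => hbA0 (h ▸ hw)
          rw [Function.update_of_ne hvb, Function.update_of_ne hwb]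
          exact hc.2 v hv w hw hvw
  -- nodup facts
  have hnd' := hnd
  rw [he] at hnd'
  have hperm : List.Perm (L1 ++ a :: b :: L2) (b :: ((L2 ++ L1) ++ [a])) := by
    have h1 : List.Perm (L1 ++ a :: b :: L2) ((a :: b :: L2) ++ L1) := List.perm_append_comm
    refine h1.trans ?_
    have h2 : (a :: b :: L2) ++ L1 = [a] ++ (b :: (L2 ++ L1)) := rfl
    rw [h2]
    exact List.perm_append_comm
  have hnd2 : (b :: ((L2 ++ L1) ++ [a])).Nodup := hperm.nodup_iff.mp hnd'
  have hmemC : ∀ v, v ∈ C ↔ v = b ∨ v ∈ L2 ++ L1 ∨ v = a := by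
    intro v
    rw [he, hperm.mem_iff]
    simp only [List.mem_cons, List.mem_append, List.not_mem_nil, or_false]
  rw [List.nodup_cons] at hnd2
  have haL : a ∉ L2 ++ L1 := by
    intro h
    have h3 := (List.nodup_append.mp hnd2.2).2.2
    exact h3 a h a (List.mem_singleton_self a) rfl
  have hab' : a ≠ b := G.ne_of_adj hab
  have hbL : b ∉ L2 ++ L1 := fun h => hnd2.1 (List.mem_append_left _ h)
  have hchain : ((L2 ++ L1) ++ [a]).IsChain G.Adj := by
    rw [List.append_assoc, List.isChain_append]
    refine ⟨?_, ?_, ?_⟩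
    · rw [he, List.isChain_append] at hch
      have h3 := hch.2.1
      exact (List.IsChain.tail (List.IsChain.tail h3))
    · have h4 : L1 ++ a :: b :: L2 = (L1 ++ [a]) ++ (b :: L2) := by simp
      rw [he, h4, List.isChain_append] at hch
      exact hch.1
    · intro x hx y hy
      have h5 : x = um := by
        have h6 : (L1 ++ a :: b :: L2).getLast? = some x := by
          rw [List.getLast?_append_of_ne_nil _ (by simp)]
          rcases L2 with _ | ⟨z, L⟩
          · simp at hx
          · rw [List.getLast?_cons_cons, List.getLast?_cons_cons]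
            exact hx
        rw [← he, hlast] at h6
        exact (Option.some.inj h6).symm
      have h7 : y = u1 := by
        have h8 : (L1 ++ a :: b :: L2).head? = some y := by
          rcases L1 with _ | ⟨z, L⟩
          · simpa using hy
          · simpa using hy
        rw [← he, hhead] at h8
        exact (Option.some.inj h8).symm
      rw [h5, h7]
      exact hcl
  obtain ⟨c1, hc1, hc1'⟩ := gre_list hA (L2 ++ L1) a (insert b A0) _ hPB
    (by
      intro v hv
      rcases Finset.mem_insert.mp hv with rfl | hv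
      · exact hCA _ hbC
      · exact ((hA0m v).mp hv).1)
    (hCA a hne)
    (by
      rw [Finset.mem_insert]
      rintro (h | h)
      · exact hab' h
      · exact ((hA0m a).mp h).2 hne)
    haL
    (by
      intro x hx
      have hxC : x ∈ C := (hmemC x).mpr (Or.inr (Or.inl hx))
      refine ⟨hCA x hxC, ?_⟩
      rw [Finset.mem_insert]
      rintro (h | h)
      · exact hbL (h ▸ hx)
      · exact ((hA0m x).mp h).2 hxC)
    hnd2.2 hchain
  have hcb : c1 b = c u := by
    rw [hc1' b (Finset.mem_insert_self _ _), Function.update_self]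
  have hub : u ≠ b := fun h => hbA0 (h ▸ huA0)
  have hcu : c1 u = c u := by
    rw [hc1' u (Finset.mem_insert_of_mem huA0), Function.update_of_ne hub]
  set B2 : Finset V := insert b A0 ∪ (L2 ++ L1).toFinset with hB2
  have hB2m : ∀ v, v ∈ B2 ↔ v ∈ A ∧ v ≠ a := by
    intro v
    rw [hB2, Finset.mem_union, Finset.mem_insert, List.mem_toFinset, hA0m]
    constructor
    · rintro ((rfl | ⟨h1, h2⟩) | h)
      · exact ⟨hCA _ hbC, hab'.symm⟩
      · exact ⟨h1, fun h => h2 (h ▸ hne)⟩
      · exact ⟨hCA _ ((hmemC v).mpr (Or.inr (Or.inl h))), fun h' => haL (h' ▸ h)⟩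
    · rintro ⟨h1, h2⟩
      by_cases hvC : v ∈ C
      · rcases (hmemC v).mp hvC with h | h | h
        · exact Or.inl (Or.inl h)
        · exact Or.inr h
        · exact absurd h h2
      · exact Or.inl (Or.inr ⟨h1, hvC⟩)
  have haB2 : a ∉ B2 := fun h => ((hB2m a).mp h).2 rfl
  have hins : insert a B2 = A := by
    ext v
    rw [Finset.mem_insert, hB2m]
    constructor
    · rintro (rfl | h)
      · exact hCA _ hne
      · exact h.1
    · intro h
      by_cases hva : v = a
      · exact Or.inl hva
      · exact Or.inr ⟨h, hva⟩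
  have hcard : ((B2.filter (fun u => G.Adj a u)).image c1).card < k := by
    have h1 : (B2.filter (fun u => G.Adj a u)).card ≤ k := by
      refine le_trans (Finset.card_le_card ?_) (hA a (hCA a hne))
      intro v hv
      rw [Finset.mem_filter] at hv ⊢
      exact ⟨((hB2m v).mp hv.1).1, hv.2⟩
    refine lt_of_lt_of_le (lt_of_le_of_ne Finset.card_image_le ?_) h1
    intro h2
    rw [Finset.card_image_iff] at h2
    have h3 : u ∈ B2.filter (fun u => G.Adj a u) := by
      rw [Finset.mem_filter, hB2m]
      exact ⟨⟨huA, fun h => huC (h ▸ hne)⟩, hau⟩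
    have h4 : b ∈ B2.filter (fun u => G.Adj a u) := by
      rw [Finset.mem_filter, hB2m]
      exact ⟨⟨hCA _ hbC, hab'.symm⟩, hab⟩
    exact hub (h2 h3 h4 (by rw [hcu, hcb]))
  obtain ⟨c2, hc2, _⟩ := gre_one hc1 haB2 hcard
  rw [hins] at hc2
  exact ⟨c2, hc2⟩

end Pool.Agent.H44.HYB

end S_BRC

section S_BRM

/-!
Brooks' theorem (proof of Zajac), main part.
-/

set_option autoImplicit false
set_option linter.unusedSectionVars false

namespace Pool.Agent.H44.HYB

open Finset Classical

variable {V : Type*} [Fintype V]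

/-- the first element with a property -/
theorem brm_split {p : V → Prop} (P : List V) (h : ∃ x ∈ P, p x) :
    ∃ (P1 : List V) (u : V) (P2 : List V), P = P1 ++ u :: P2 ∧ p u ∧ ∀ x ∈ P1, ¬ p x := by
  induction P with
  | nil =>
    obtain ⟨x, hx, -⟩ := h
    exact absurd hx List.not_mem_nil
  | cons y P ih =>
    by_cases hy : p y
    · exact ⟨[], y, P, rfl, hy, fun x hx => absurd hx List.not_mem_nil⟩
    · obtain ⟨x, hx, hpx⟩ := h
      have hxP : x ∈ P := by
        rcases List.mem_cons.1 hx with rfl | h
        · exact absurd hpx hy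
        · exact h
      obtain ⟨P1, u, P2, h1, h2, h3⟩ := ih ⟨x, hxP, hpx⟩
      refine ⟨y :: P1, u, P2, by rw [h1]; rfl, h2, fun z hz => ?_⟩
      rcases List.mem_cons.1 hz with rfl | h
      · exact hy
      · exact h3 z h

/-- a longest list -/
theorem brm_longest {Q : List V → Prop} (h0 : Q []) {m : ℕ} (hb : ∀ L, Q L → L.length ≤ m) :
    ∃ L, Q L ∧ ∀ L', Q L' → L'.length ≤ L.length := by
  have h1 : ∃ L, Q L ∧ L.length = Nat.findGreatest (fun j => ∃ L, Q L ∧ L.length = j) m :=
    Nat.findGreatest_spec (P := fun j => ∃ L, Q L ∧ L.length = j) (Nat.zero_le m) ⟨[], h0, rfl⟩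
  obtain ⟨L, hL, hl⟩ := h1
  refine ⟨L, hL, fun L' hL' => ?_⟩
  rw [hl]
  exact Nat.le_findGreatest (hb L' hL') ⟨L', hL', rfl⟩

theorem brm_last {P : List V} {r x : V} {P0 P1 : List V} (h : P = P0 ++ [r])
    (h' : P = P1 ++ [x]) : x = r := by
  have h1 : P0 ++ [r] = P1 ++ [x] := by rw [← h, ← h']
  have h2 := congrArg List.getLast? h1
  simpa using h2.symm

/-- Induction on `|A|`. If some `v ∈ A` has fewer than `k` neighbours in `A`, colour `A \ {v}` and
use `gre_one`. Otherwise take `b ∈ A` (if `A` is empty there is nothing to do); `b` has `k`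
neighbours in `A`, not all adjacent to each other (no clique of `k + 1` vertices), so there are
non-adjacent `a ≠ e` among them. Take a longest list `P = a :: b :: e :: L` without repetitions
in `A` which is a chain for `G.Adj`, and its last vertex `r`; all neighbours of `r` in `A` are on
`P`. (i) If `P` contains all vertices of `A`: `bro_ham` (`b` has `k ≥ 3` neighbours, all on `P`).
(ii) Otherwise let `C` be the part of `P` from the first neighbour of `r` on. All `k ≥ 3` neighbours
of `r` are in `C`. If some vertex of `C` has a neighbour in `A \ C` use the induction hypothesis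
for `A \ C` and `bro_cyc`. If not, colour `C` and `A \ C` by induction (`C ≠ A` since `C ⊆ P`). -/
theorem bro_main {G : SimpleGraph V} {k : ℕ} (hk : 3 ≤ k) (hK : G.CliqueFree (k + 1)) :
    ∀ (n : ℕ) (A : Finset V), A.card = n →
      (∀ v ∈ A, (A.filter (fun u => G.Adj v u)).card ≤ k) → ∃ c, PCol G k A c := by
  intro n
  induction n using Nat.strong_induction_on with
  | _ n ih =>
  intro A hAn hA
  -- subsets inherit the degree bound
  have hsub : ∀ B : Finset V, B ⊆ A → B.card < A.card → ∃ c, PCol G k B c := by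
    intro B hB hlt
    refine ih B.card (by omega) B rfl fun v hv => ?_
    exact le_trans (Finset.card_le_card (Finset.filter_subset_filter _ hB)) (hA v (hB hv))
  rcases A.eq_empty_or_nonempty with rfl | ⟨b, hb⟩
  · exact ⟨fun _ => 0, fun v hv => absurd hv (Finset.notMem_empty v),
      fun v hv => absurd hv (Finset.notMem_empty v)⟩
  by_cases hlow : ∃ v ∈ A, (A.filter (fun u => G.Adj v u)).card < k
  · obtain ⟨v, hv, hvk⟩ := hlow
    obtain ⟨c, hc⟩ := hsub (A.erase v) (Finset.erase_subset _ _) (Finset.card_erase_lt_of_mem hv)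
    obtain ⟨c', hc', -⟩ := gre_one hc (x := v) (Finset.notMem_erase v A) (by
      refine lt_of_le_of_lt (Finset.card_image_le) (lt_of_le_of_lt ?_ hvk)
      exact Finset.card_le_card (Finset.filter_subset_filter _ (Finset.erase_subset _ _)))
    rw [Finset.insert_erase hv] at hc'
    exact ⟨c', hc'⟩
  push Not at hlow
  have hreg : ∀ v ∈ A, (A.filter (fun u => G.Adj v u)).card = k := fun v hv =>
    le_antisymm (hA v hv) (hlow v hv)
  -- two non-adjacent neighbours of `b`
  have hae : ∃ a ∈ A.filter (fun u => G.Adj b u), ∃ e ∈ A.filter (fun u => G.Adj b u),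
      a ≠ e ∧ ¬ G.Adj a e := by
    by_contra hcon
    push Not at hcon
    apply hK (insert b (A.filter (fun u => G.Adj b u)))
    rw [SimpleGraph.isNClique_iff]
    constructor
    · intro x hx y hy hxy
      rw [Finset.mem_coe, Finset.mem_insert] at hx hy
      rcases hx with rfl | hx
      · rcases hy with rfl | hy
        · exact absurd rfl hxy
        · exact (Finset.mem_filter.1 hy).2
      · rcases hy with rfl | hy
        · exact (Finset.mem_filter.1 hx).2.symm
        · exact hcon x hx y hy hxy
    · rw [Finset.card_insert_of_notMem, hreg b hb]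
      rw [Finset.mem_filter]
      exact fun h => G.loopless.irrefl b h.2
  obtain ⟨a, ha, e, he, hane, hnadj⟩ := hae
  rw [Finset.mem_filter] at ha he
  -- a longest path
  set Q : List V → Prop := fun L => (a :: b :: e :: L).Nodup ∧ (a :: b :: e :: L).IsChain G.Adj ∧
    ∀ v ∈ (a :: b :: e :: L), v ∈ A with hQ
  have hQ0 : Q [] := by
    refine ⟨?_, ?_, ?_⟩
    · simp only [List.nodup_cons, List.mem_cons, List.not_mem_nil, or_false, not_or,
        List.nodup_nil, and_true, not_false_eq_true]
      exact ⟨⟨ha.2.ne', hane⟩, he.2.ne⟩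
    · simp only [List.isChain_cons_cons, List.isChain_singleton, and_true]
      exact ⟨ha.2.symm, he.2⟩
    · intro v hv
      simp only [List.mem_cons, List.not_mem_nil, or_false] at hv
      rcases hv with rfl | rfl | rfl
      · exact ha.1
      · exact hb
      · exact he.1
  have hQb : ∀ L, Q L → L.length ≤ A.card := by
    intro L hL
    have h1 : (a :: b :: e :: L).toFinset ⊆ A := fun v hv => hL.2.2 v (List.mem_toFinset.1 hv)
    have h2 := Finset.card_le_card h1
    rw [List.toFinset_card_of_nodup hL.1] at h2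
    simp only [List.length_cons] at h2
    omega
  obtain ⟨L, hL, hmax⟩ := brm_longest hQ0 hQb
  obtain ⟨hnd, hch, hPA⟩ := hL
  set P : List V := a :: b :: e :: L with hP
  have hPne : P ≠ [] := by rw [hP]; exact List.cons_ne_nil _ _
  obtain ⟨P0, r, hP0⟩ : ∃ P0 r, P = P0 ++ [r] := by
    rcases List.eq_nil_or_concat P with h | ⟨P0, r, h⟩
    · exact absurd h hPne
    · exact ⟨P0, r, by simpa using h⟩
  have hrA : r ∈ A := hPA r (by rw [hP0]; simp)
  -- the neighbours of the last vertex
  have hrP : ∀ u ∈ A, G.Adj r u → u ∈ P := by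
    intro u hu hru
    by_contra huP
    have h1 : Q (L ++ [u]) := by
      have h2 : a :: b :: e :: (L ++ [u]) = P ++ [u] := by rw [hP]; rfl
      refine ⟨?_, ?_, ?_⟩
      · rw [h2, List.nodup_append]
        refine ⟨hnd, List.nodup_singleton u, ?_⟩
        intro x hx y hy hxy
        rw [List.mem_singleton] at hy
        subst hy
        subst hxy
        exact huP hx
      · rw [h2, List.isChain_append]
        refine ⟨hch, List.isChain_singleton u, ?_⟩
        intro x hx y hy
        rw [hP0, List.getLast?_append] at hx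
        simp at hx hy
        subst hx
        subst hy
        exact hru
      · intro v hv
        rw [h2, List.mem_append, List.mem_singleton] at hv
        rcases hv with h | rfl
        · exact hPA v h
        · exact hu
    have h3 := hmax _ h1
    rw [List.length_append, List.length_singleton] at h3
    omega
  by_cases hall : ∀ v ∈ A, v ∈ P
  · -- the path contains everything
    have hx : ∃ x ∈ A.filter (fun u => G.Adj b u), x ∉ ({a, e} : Finset V) := by
      by_contra hcon
      push Not at hcon
      have h1 := Finset.card_le_card (fun x hx => hcon x hx : A.filter (fun u => G.Adj b u) ⊆ {a, e})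
      have h2 : ({a, e} : Finset V).card ≤ 2 := Finset.card_le_two
      rw [hreg b hb] at h1
      omega
    obtain ⟨x, hx, hxae⟩ := hx
    rw [Finset.mem_filter] at hx
    simp only [Finset.mem_insert, Finset.mem_singleton, not_or] at hxae
    have hxL : x ∈ L := by
      have h1 := hall x hx.1
      rw [hP] at h1
      simp only [List.mem_cons] at h1
      rcases h1 with h | h | h | h
      · exact absurd h hxae.1
      · exact absurd h.symm hx.2.ne
      · exact absurd h hxae.2
      · exact h
    exact bro_ham (by omega) hA hnd hch (fun v => ⟨hall v, hPA v⟩) hnadj hxL hx.2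
  · push Not at hall
    obtain ⟨w, hwA, hwP⟩ := hall
    -- the cycle
    obtain ⟨y, hy⟩ : (A.filter (fun u => G.Adj r u)).Nonempty := by
      rw [← Finset.card_pos, hreg r hrA]
      omega
    rw [Finset.mem_filter] at hy
    obtain ⟨P1, u1, P2, hsplit, hu1, hP1⟩ := brm_split (p := fun v => G.Adj r v) P
      ⟨y, hrP y hy.1 hy.2, hy.2⟩
    have hne : u1 ≠ r := hu1.ne'
    obtain ⟨C', hC'⟩ : ∃ C', P2 = C' ++ [r] := by
      rcases List.eq_nil_or_concat P2 with h | ⟨C', x, h⟩
      · exfalso
        rw [h] at hsplit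
        exact hne (brm_last hP0 hsplit)
      · have h1 : P2 = C' ++ [x] := by simpa using h
        have h2 : P = (P1 ++ u1 :: C') ++ [x] := by
          rw [hsplit, h1]
          simp
        exact ⟨C', by rw [h1, brm_last hP0 h2]⟩
    set C : List V := u1 :: P2 with hC
    have hCeq : C = u1 :: C' ++ [r] := by rw [hC, hC']; rfl
    have hsuf : C <:+ P := ⟨P1, hsplit.symm⟩
    have hCP : ∀ v ∈ C, v ∈ P := fun v hv => hsuf.subset hv
    have hCnd : C.Nodup := hsuf.sublist.nodup hnd
    have hCch : C.IsChain G.Adj := hch.suffix hsuf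
    have hCA : ∀ v ∈ C, v ∈ A := fun v hv => hPA v (hCP v hv)
    have hrC : ∀ u ∈ A, G.Adj r u → u ∈ C := by
      intro u hu hru
      have h1 := hrP u hu hru
      rw [hsplit, List.mem_append] at h1
      rcases h1 with h | h
      · exact absurd hru (hP1 u h)
      · exact h
    have hC'ne : C' ≠ [] := by
      intro h
      have h1 : A.filter (fun u => G.Adj r u) ⊆ {u1} := by
        intro x hx
        rw [Finset.mem_filter] at hx
        have h2 := hrC x hx.1 hx.2
        rw [hCeq, h] at h2
        simp only [List.cons_append, List.nil_append, List.mem_cons, List.not_mem_nil,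
          or_false] at h2
        rcases h2 with h2 | h2
        · rw [Finset.mem_singleton]; exact h2
        · exact absurd h2.symm hx.2.ne
      have h2 := Finset.card_le_card h1
      rw [hreg r hrA, Finset.card_singleton] at h2
      omega
    have hCsub : C.toFinset ⊆ A := fun v hv => hCA v (List.mem_toFinset.1 hv)
    have hu1C : u1 ∈ C.toFinset := by rw [hC]; simp
    have hdiff : (A \ C.toFinset).card < A.card :=
      Finset.card_lt_card (Finset.sdiff_ssubset hCsub ⟨u1, hu1C⟩)
    obtain ⟨c, hc⟩ := hsub (A \ C.toFinset) Finset.sdiff_subset hdiff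
    by_cases hout : ∃ v ∈ C, ∃ u ∈ A, u ∉ C ∧ G.Adj v u
    · exact bro_cyc hA hCeq hC'ne hCnd hCch hu1 hCA hc hout fun u hu huC hru =>
        huC (hrC u hu hru)
    · push Not at hout
      obtain ⟨c2, hc2⟩ := hsub C.toFinset hCsub (by
        refine Finset.card_lt_card (Finset.ssubset_iff_subset_ne.2 ⟨hCsub, fun h => ?_⟩)
        rw [← h] at hwA
        exact hwP (hCP w (List.mem_toFinset.1 hwA)))
      refine ⟨fun v => if v ∈ C then c2 v else c v, ?_, ?_⟩
      · intro v hv
        by_cases h : v ∈ C
        · simp only [if_pos h]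
          exact hc2.1 v (List.mem_toFinset.2 h)
        · simp only [if_neg h]
          exact hc.1 v (Finset.mem_sdiff.2 ⟨hv, fun h' => h (List.mem_toFinset.1 h')⟩)
      · intro u hu v hv huv
        by_cases h : u ∈ C
        · have hv' : v ∈ C := by
            by_contra hv'
            exact hout u h v hv hv' huv
          simp only [if_pos h, if_pos hv']
          exact hc2.2 u (List.mem_toFinset.2 h) v (List.mem_toFinset.2 hv') huv
        · have hv' : v ∉ C := by
            intro hv'
            exact hout v hv' u hu h huv.symm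
          simp only [if_neg h, if_neg hv']
          exact hc.2 u (Finset.mem_sdiff.2 ⟨hu, fun h' => h (List.mem_toFinset.1 h')⟩) v
            (Finset.mem_sdiff.2 ⟨hv, fun h' => hv' (List.mem_toFinset.1 h')⟩) huv

theorem brooks {G : SimpleGraph V} {d : ℕ} (hd : 1 ≤ d) (hdeg : ∀ v, dg G v ≤ d + 2)
    (hK : G.CliqueFree (d + 3)) : ∃ c, PC G d c := by
  obtain ⟨c, hc⟩ := bro_main (G := G) (k := d + 2) (by omega) hK univ.card univ rfl
    (fun v _ => hdeg v)
  refine ⟨c, fun v => ?_, fun u v huv => hc.2 u (mem_univ u) v (mem_univ v) huv⟩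
  have := hc.1 v (mem_univ v)
  omega

end Pool.Agent.H44.HYB

end S_BRM

section S_KNL

/-!
Complete graphs.
-/

set_option autoImplicit false

namespace Pool.Agent.H44.HYB

private theorem mod_cancel {m i j k : ℕ} (hj : j < m) (hk : k < m)
    (h : (i + j) % m = (i + k) % m) : j = k := by
  have h1 : j ≡ k [MOD m] := Nat.ModEq.add_left_cancel' i h
  have h2 : j % m = k % m := h1
  rwa [Nat.mod_eq_of_lt hj, Nat.mod_eq_of_lt hk] at h2

/-- The labelling of `K_n`, `n ≤ p + 2`, `n ≥ 4`, with the labels `0, ..., n + 2p - 2 =: T`.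
Let `m = (n + 1) / 2` and `m' = n / 2`. The vertices `i < m` get the labels `a i = i`, the vertices
`m + j`, `j < m'`, the labels `T - j`. The edge between `i < m` and `m + j` gets
`p + i + (m' - 1 - j)`, the edge between `i, i' < m` gets `n - 1 + p + ((i + i') mod m)`, the edge
between `m + j` and `m + j'` gets `(j + j') mod m'`. -/
theorem knl (n p : ℕ) (hn : 4 ≤ n) (hp : n ≤ p + 2) :
    ∃ (a : ℕ → ℕ) (b : ℕ → ℕ → ℕ),
      (∀ i < n, a i ≤ n + 2 * p - 2) ∧
      (∀ i < n, ∀ j < n, i ≠ j → a i ≠ a j) ∧
      (∀ i j, b i j = b j i) ∧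
      (∀ i < n, ∀ j < n, i ≠ j → b i j ≤ n + 2 * p - 2) ∧
      (∀ i < n, ∀ j < n, i ≠ j → (p : ℤ) ≤ |(a i : ℤ) - (b i j : ℤ)|) ∧
      (∀ i < n, ∀ j < n, ∀ k < n, i ≠ j → i ≠ k → j ≠ k → b i j ≠ b i k) := by
  obtain ⟨m, m', hm, hmm, hmp, hm0, hm0'⟩ : ∃ m m' : ℕ, m + m' = n ∧ m' ≤ m ∧ m ≤ p ∧ 0 < m ∧
      0 < m' := ⟨(n + 1) / 2, n / 2, by omega, by omega, by omega, by omega, by omega⟩
  let a : ℕ → ℕ := fun i => if i < m then i else n + 2 * p - 2 - (i - m)
  let b : ℕ → ℕ → ℕ := fun i j =>
    if i < m then (if j < m then n - 1 + p + (i + j) % m else p + i + (m' - 1 - (j - m)))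
    else (if j < m then p + j + (m' - 1 - (i - m)) else ((i - m) + (j - m)) % m')
  have ha1 : ∀ i, i < m → a i = i := fun i hi => if_pos hi
  have ha2 : ∀ i, ¬ i < m → a i = n + 2 * p - 2 - (i - m) := fun i hi => if_neg hi
  have b11 : ∀ i j, i < m → j < m → b i j = n - 1 + p + (i + j) % m := by
    intro i j hi hj; simp only [b, if_pos hi, if_pos hj]
  have b12 : ∀ i j, i < m → ¬ j < m → b i j = p + i + (m' - 1 - (j - m)) := by
    intro i j hi hj; simp only [b, if_pos hi, if_neg hj]
  have b21 : ∀ i j, ¬ i < m → j < m → b i j = p + j + (m' - 1 - (i - m)) := by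
    intro i j hi hj; simp only [b, if_neg hi, if_pos hj]
  have b22 : ∀ i j, ¬ i < m → ¬ j < m → b i j = ((i - m) + (j - m)) % m' := by
    intro i j hi hj; simp only [b, if_neg hi, if_neg hj]
  have r1 : ∀ x, x % m < m := fun x => Nat.mod_lt x hm0
  have r2 : ∀ x, x % m' < m' := fun x => Nat.mod_lt x hm0'
  refine ⟨a, b, ?_, ?_, ?_, ?_, ?_, ?_⟩
  · intro i hi
    by_cases h : i < m
    · rw [ha1 i h]; omega
    · rw [ha2 i h]; omega
  · intro i hi j hj hij
    by_cases h : i < m <;> by_cases h' : j < m
    · rw [ha1 i h, ha1 j h']; omega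
    · rw [ha1 i h, ha2 j h']; omega
    · rw [ha2 i h, ha1 j h']; omega
    · rw [ha2 i h, ha2 j h']; omega
  · intro i j
    by_cases h : i < m <;> by_cases h' : j < m
    · rw [b11 i j h h', b11 j i h' h, add_comm i j]
    · rw [b12 i j h h', b21 j i h' h]
    · rw [b21 i j h h', b12 j i h' h]
    · rw [b22 i j h h', b22 j i h' h, add_comm (i - m) (j - m)]
  · intro i hi j hj hij
    by_cases h : i < m <;> by_cases h' : j < m
    · rw [b11 i j h h']; have := r1 (i + j); omega
    · rw [b12 i j h h']; omega
    · rw [b21 i j h h']; omega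
    · rw [b22 i j h h']; have := r2 ((i - m) + (j - m)); omega
  · intro i hi j hj hij
    by_cases h : i < m <;> by_cases h' : j < m
    · rw [b11 i j h h', ha1 i h]
      have := r1 (i + j)
      rw [abs_sub_comm]
      refine le_trans ?_ (le_abs_self _)
      omega
    · rw [b12 i j h h', ha1 i h]
      rw [abs_sub_comm]
      refine le_trans ?_ (le_abs_self _)
      omega
    · rw [b21 i j h h', ha2 i h]
      refine le_trans ?_ (le_abs_self _)
      omega
    · rw [b22 i j h h', ha2 i h]
      have := r2 ((i - m) + (j - m))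
      refine le_trans ?_ (le_abs_self _)
      omega
  · intro i hi j hj k hk hij hik hjk
    by_cases h : i < m <;> by_cases h' : j < m <;> by_cases h'' : k < m
    · rw [b11 i j h h', b11 i k h h'']
      intro heq
      exact hjk (mod_cancel (i := i) h' h'' (by omega))
    · rw [b11 i j h h', b12 i k h h'']
      omega
    · rw [b12 i j h h', b11 i k h h'']
      omega
    · rw [b12 i j h h', b12 i k h h'']
      omega
    · rw [b21 i j h h', b21 i k h h'']
      omega
    · rw [b21 i j h h', b22 i k h h'']
      have := r2 ((i - m) + (k - m))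
      omega
    · rw [b22 i j h h', b21 i k h h'']
      have := r2 ((i - m) + (j - m))
      omega
    · rw [b22 i j h h', b22 i k h h'']
      intro heq
      have := mod_cancel (j := j - m) (k := k - m) (by omega) (by omega) heq
      omega

end Pool.Agent.H44.HYB

end S_KNL
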