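import Mathlib
import Pool.Agent.H28.VAL
import Pool.Agent.H28.Fan
import Pool.Agent.H44.HYB.L1
import Pool.Agent.H44.HYB.L2
import Pool.Agent.H44.HYB.L3
import Pool.Agent.H44.HYB.L4
import Pool.Agent.H44.HYB.L5

set_option autoImplicit false

/-! Brooks-type bound for (p,1)-total labellings, part L6: this file joins several modules to save build time. -/

section S_COR

/-!
The remaining edges can be coloured with `d + 2` colours.
-/

set_option autoImplicit false
set_option linter.unusedSectionVars false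

namespace Pool.Agent.H44.HYB

open Finset Classical

variable {V : Type*} [Fintype V]

/-- The edges of `G` which are in none of the `F j`. -/
def Rest (G : SimpleGraph V) (F : ℕ → SimpleGraph V) : SimpleGraph V where
  Adj a b := G.Adj a b ∧ ∀ j, ¬ (F j).Adj a b
  symm := ⟨fun _ _ h => ⟨h.1.symm, fun j hj => h.2 j hj.symm⟩⟩
  loopless := ⟨fun a h => G.loopless.irrefl a h.1⟩

theorem cor_ncard (H : SimpleGraph V) (v : V) :
    (H.neighborSet v).ncard = (univ.filter (fun u => H.Adj v u)).card := by
  rw [← Set.ncard_coe_finset]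
  congr 1
  ext u
  simp

/-- Otherwise take a critical subgraph `H` (`Pool.Agent.H28.exists_critical`) and let `S` be the
set of the vertices of degree `d + 2` in `H`. By Vizing's adjacency lemma
(`Pool.Agent.H28.val`) `S` is not empty and every vertex of `S` has two neighbours in `S`. The
vertices of `S` are in no edge of an `F j`. Apply `sara`, `sarb`, `FS.ind`, `FS.cov`, `FS.cyc`. -/
theorem cor {G : SimpleGraph V} {d : ℕ} {c : V → ℕ} (hO : Opt G d c)
    (hdeg : ∀ v, dg G v ≤ d + 2) {F : ℕ → SimpleGraph V} (hF : FS G d c F) :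
    Pool.Agent.H28.ECol (Rest G F) (d + 2) := by
  by_contra hno
  obtain ⟨H, hHR, hH, hcrit⟩ := Pool.Agent.H28.exists_critical hno
  have hHG : ∀ a b, H.Adj a b → G.Adj a b := fun a b h => (hHR h).1
  have hdegH : ∀ v, (H.neighborSet v).ncard ≤ d + 2 := by
    intro v
    refine le_trans ?_ (hdeg v)
    rw [cor_ncard]
    exact Finset.card_le_card fun u hu => by
      rw [Finset.mem_filter] at hu ⊢
      exact ⟨hu.1, hHG _ _ hu.2⟩
  obtain ⟨S, hS⟩ : ∃ S : Finset V, ∀ v, v ∈ S ↔ (H.neighborSet v).ncard = d + 2 :=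
    ⟨univ.filter (fun v => (H.neighborSet v).ncard = d + 2), fun v => by simp⟩
  have key : ∀ x y, H.Adj x y → 2 ≤ (S.filter (fun u => H.Adj x u)).card := by
    intro x y hxy
    have hval := Pool.Agent.H28.val (D := d + 2) hdegH hxy hH (hcrit x y hxy)
    have hZ : {z | H.Adj x z ∧ z ≠ y ∧ (H.neighborSet z).ncard = d + 2}.ncard =
        ((S.filter (fun u => H.Adj x u)).erase y).card := by
      rw [← Set.ncard_coe_finset]
      congr 1
      ext z
      simp only [Set.mem_ofPred_eq, Finset.coe_erase, Finset.coe_filter, Set.mem_sdiff,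
        Set.mem_singleton_iff, hS]
      tauto
    rw [hZ] at hval
    by_cases hyS : y ∈ S
    · have hmem : y ∈ S.filter (fun u => H.Adj x u) := Finset.mem_filter.2 ⟨hyS, hxy⟩
      have h1 := (hS y).1 hyS
      rw [Finset.card_erase_of_mem hmem] at hval
      omega
    · have h1 : (H.neighborSet y).ncard ≠ d + 2 := fun h => hyS ((hS y).2 h)
      have h2 := hdegH y
      have h3 := Finset.card_le_card (Finset.erase_subset y (S.filter (fun u => H.Adj x u)))
      omega
  have hunc : ∀ v ∈ S, ∀ j b, ¬ (F j).Adj v b := by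
    intro v hv j b hb
    have h1 := (hS v).1 hv
    rw [cor_ncard] at h1
    have h2 : univ.filter (fun u => H.Adj v u) ⊆ (univ.filter (fun u => G.Adj v u)).erase b := by
      intro u hu
      rw [Finset.mem_filter] at hu
      rw [Finset.mem_erase, Finset.mem_filter]
      refine ⟨?_, Finset.mem_univ _, hHG _ _ hu.2⟩
      rintro rfl
      exact (hHR hu.2).2 j hb
    have h3 := Finset.card_le_card h2
    have h4 : b ∈ univ.filter (fun u => G.Adj v u) :=
      Finset.mem_filter.2 ⟨Finset.mem_univ _, hF.le j v b hb⟩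
    rw [Finset.card_erase_of_mem h4] at h3
    have h5 := hdeg v
    unfold dg at h5
    have h6 : 0 < (univ.filter (fun u => G.Adj v u)).card := Finset.card_pos.2 ⟨b, h4⟩
    omega
  have h2 : ∀ v ∈ S, 2 ≤ (S.filter (fun u => G.Adj v u)).card := by
    intro v hv
    have h1 := (hS v).1 hv
    rw [cor_ncard] at h1
    obtain ⟨y, hy⟩ := Finset.card_pos.1 (by omega : 0 < (univ.filter (fun u => H.Adj v u)).card)
    rw [Finset.mem_filter] at hy
    refine (key v y hy.2).trans (Finset.card_le_card fun u hu => ?_)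
    rw [Finset.mem_filter] at hu ⊢
    exact ⟨hu.1, hHG _ _ hu.2⟩
  have hne : S.Nonempty := by
    by_cases hE : ∃ x y, H.Adj x y
    · obtain ⟨x, y, hxy⟩ := hE
      have h := key x y hxy
      obtain ⟨z, hz⟩ := Finset.card_pos.1 (by omega : 0 < (S.filter (fun u => H.Adj x u)).card)
      exact ⟨z, (Finset.mem_filter.1 hz).1⟩
    · push Not at hE
      exact absurd ⟨fun _ => 0, fun u v huv => absurd huv (hE u v),
        fun u v _ huv => absurd huv (hE u v)⟩ hH
  have hind : ∀ a ∈ S, ∀ b ∈ S, G.Adj a b → c a ≤ d → c b ≤ d → False := by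
    intro a ha b hb hab hca hcb
    rcases hF.ind a b hab hca hcb with ⟨j, b', h⟩ | ⟨j, b', h⟩
    · exact hunc a ha j b' h
    · exact hunc b hb j b' h
  have ht : ∀ v ∈ S, 1 ≤ c v → ¬ Tight G d c v := by
    intro v hv h1 htv
    obtain ⟨j, b, h⟩ := hF.cov v htv h1
    exact hunc v hv j b h
  obtain ⟨C, hC, hCS⟩ := sarb hO hdeg S hne h2 hind
    (fun w hw hcw => sara hO hdeg S h2 hind ht hw hcw)
  obtain ⟨z, hz, _, j, b, h⟩ := hF.cyc C hC
  exact hunc z (hCS z hz) j b h

end Pool.Agent.H44.HYB

end S_COR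

section S_LBA

/-!
The labelling.
-/

set_option autoImplicit false
set_option linter.unusedSectionVars false

namespace Pool.Agent.H44.HYB

open Finset Classical

variable {V : Type*} [Fintype V]

/-- `fV = c`; an edge of `F j` gets the label `p + j` (`j` the least one, `Nat.find`), the other
edges the label `p + d + 1 + e`, `e < d + 2` the colour of `hR`. -/
theorem lba {G : SimpleGraph V} {d : ℕ} {c : V → ℕ} (hc : PC G d c) {F : ℕ → SimpleGraph V}
    (hF : FS G d c F) (R : SimpleGraph V)
    (hR : ∀ a b, R.Adj a b ↔ G.Adj a b ∧ ∀ j, ¬ (F j).Adj a b)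
    (hcol : Pool.Agent.H28.ECol R (d + 2)) (p : ℕ) : Lab G p (2 * d + 2 + p) := by
  obtain ⟨e, he1, he2⟩ := hcol
  have hdist : ∀ a b : V, (c a : ℤ) ≤ d + 1 := fun a _ => by exact_mod_cast hc.1 a
  -- the label of an edge
  let fE : Sym2 V → ℕ := fun x =>
    if h : ∃ j, x ∈ (F j).edgeSet then p + Nat.find h else p + d + 1 + e x
  have hfE1 : ∀ a b : V, (h : ∃ j, (F j).Adj a b) → ∃ j, (F j).Adj a b ∧ fE s(a, b) = p + j := by
    intro a b h
    have h' : ∃ j, s(a, b) ∈ (F j).edgeSet := h
    refine ⟨Nat.find h', Nat.find_spec h', ?_⟩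
    simp only [fE, dif_pos h']
  have hfE2 : ∀ a b : V, G.Adj a b → (¬ ∃ j, (F j).Adj a b) →
      R.Adj a b ∧ fE s(a, b) = p + d + 1 + e s(a, b) := by
    intro a b hab h
    have h' : ¬ ∃ j, s(a, b) ∈ (F j).edgeSet := h
    refine ⟨(hR a b).2 ⟨hab, fun j hj => h ⟨j, hj⟩⟩, ?_⟩
    simp only [fE, dif_neg h']
  have hlt : ∀ a b, R.Adj a b → e s(a, b) < d + 2 := fun a b h => he1 a b h
  refine ⟨c, fE, ?_, ?_, hc.2, ?_, ?_⟩
  · intro v
    have := hc.1 v
    omega
  · intro x hx
    induction x using Sym2.ind with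
    | _ a b =>
      have hab : G.Adj a b := hx
      by_cases h : ∃ j, (F j).Adj a b
      · obtain ⟨j, hj, hj'⟩ := hfE1 a b h
        have := hF.lev j a b hj
        omega
      · obtain ⟨h1, h2⟩ := hfE2 a b hab h
        have := hlt a b h1
        omega
  · intro u v huv
    have hu := hc.1 u
    by_cases h : ∃ j, (F j).Adj u v
    · obtain ⟨j, hj, hj'⟩ := hfE1 u v h
      have := hF.lev j u v hj
      rw [hj', abs_sub_comm]
      refine le_trans ?_ (le_abs_self _)
      push_cast
      omega
    · obtain ⟨h1, h2⟩ := hfE2 u v huv h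
      rw [h2, abs_sub_comm]
      refine le_trans ?_ (le_abs_self _)
      push_cast
      omega
  · intro u v w huv huw hvw
    by_cases h : ∃ j, (F j).Adj u v
    · obtain ⟨j, hj, hj'⟩ := hfE1 u v h
      have l1 := hF.lev j u v hj
      by_cases h' : ∃ j, (F j).Adj u w
      · obtain ⟨i, hi, hi'⟩ := hfE1 u w h'
        rw [hj', hi']
        intro heq
        have : i = j := by omega
        subst this
        exact hvw (hF.mat i u v w hj hi)
      · obtain ⟨h1, h2⟩ := hfE2 u w huw h'
        rw [hj', h2]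
        omega
    · obtain ⟨h1, h2⟩ := hfE2 u v huv h
      by_cases h' : ∃ j, (F j).Adj u w
      · obtain ⟨i, hi, hi'⟩ := hfE1 u w h'
        have l1 := hF.lev i u w hi
        rw [hi', h2]
        omega
      · obtain ⟨h3, h4⟩ := hfE2 u w huw h'
        rw [h2, h4]
        intro heq
        exact he2 u v w h1 h3 hvw (by omega)

end Pool.Agent.H44.HYB

end S_LBA

section S_THA

/-!
The Brooks-type bound.
-/

set_option autoImplicit false
set_option linter.unusedSectionVars false

namespace Pool.Agent.H44.HYB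

open Finset Classical

variable {V : Type*} [Fintype V]

theorem tha {G : SimpleGraph V} {d : ℕ} (hd : 2 ≤ d) (hdeg : ∀ v, dg G v ≤ d + 2)
    (hK : G.CliqueFree (d + 3)) (p : ℕ) : Lab G p (2 * d + 2 + p) := by
  obtain ⟨c0, hc0⟩ := exists_opt (brooks (by omega) hdeg hK)
  obtain ⟨c, Z, g, hO, hZ⟩ := cyc_main hd hc0 hdeg
  obtain ⟨F, hF⟩ := fsm hd hO hdeg hZ
  exact lba hO.proper hF (Rest G F) (fun a b => Iff.rfl) (cor hO hdeg hF) p

end Pool.Agent.H44.HYB

end S_THA

section S_GLU

/-!
The exact bound for `p ≥ Δ - 1`.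
-/

set_option autoImplicit false
set_option linter.unusedSectionVars false

namespace Pool.Agent.H44.HYB

open Finset Classical

variable {V : Type*} [Fintype V]

/-- the vertices of the cliques of `d + 3` vertices -/
def gluX (G : SimpleGraph V) (d : ℕ) (v : V) : Prop := ∃ S : Finset V, G.IsNClique (d + 3) S ∧ v ∈ S

/-- all neighbours of a vertex of such a clique are in the clique -/
theorem glu_mem {G : SimpleGraph V} {d : ℕ} (hdeg : ∀ v, dg G v ≤ d + 2) {S : Finset V}
    (hS : G.IsNClique (d + 3) S) {v u : V} (hv : v ∈ S) (hu : G.Adj v u) : u ∈ S := by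
  by_contra hcon
  have h1 : insert u (S.erase v) ⊆ univ.filter (fun w => G.Adj v w) := by
    intro w hw
    rw [mem_filter]
    refine ⟨mem_univ _, ?_⟩
    rcases mem_insert.1 hw with rfl | hw
    · exact hu
    · have h2 := mem_erase.1 hw
      exact hS.isClique hv h2.2 h2.1.symm
  have h2 := card_le_card h1
  have h3 : u ∉ S.erase v := fun h => hcon (mem_of_mem_erase h)
  rw [card_insert_of_notMem h3, card_erase_of_mem hv, hS.card_eq] at h2
  have h4 := hdeg v
  unfold dg at h4
  omega

theorem glu_X {G : SimpleGraph V} {d : ℕ} (hdeg : ∀ v, dg G v ≤ d + 2) {v u : V}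
    (hv : gluX G d v) (hu : G.Adj v u) : gluX G d u := by
  obtain ⟨S, hS, hvS⟩ := hv
  exact ⟨S, hS, glu_mem hdeg hS hvS hu⟩

/-- the graph outside the cliques -/
def gluG (G : SimpleGraph V) (d : ℕ) : SimpleGraph V where
  Adj a b := G.Adj a b ∧ ¬ gluX G d a ∧ ¬ gluX G d b
  symm := ⟨fun _ _ h => ⟨h.1.symm, h.2.2, h.2.1⟩⟩
  loopless := ⟨fun a h => G.loopless.irrefl a h.1⟩

theorem glu_adj {G : SimpleGraph V} {d : ℕ} (hdeg : ∀ v, dg G v ≤ d + 2) {u v : V}
    (h : G.Adj u v) (hX : ¬ (gluX G d u ∧ gluX G d v)) : (gluG G d).Adj u v := by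
  refine ⟨h, fun hu => hX ⟨hu, glu_X hdeg hu h⟩, fun hv => hX ⟨glu_X hdeg hv h.symm, hv⟩⟩

theorem glu_free (G : SimpleGraph V) (d : ℕ) : (gluG G d).CliqueFree (d + 3) := by
  intro S hS
  have hcl : G.IsNClique (d + 3) S := by
    rw [SimpleGraph.isNClique_iff]
    refine ⟨fun a ha b hb hab => ?_, hS.card_eq⟩
    exact (hS.isClique ha hb hab).1
  have hcard : 1 < S.card := by rw [hS.card_eq]; omega
  obtain ⟨a, ha, b, hb, hab⟩ := one_lt_card.1 hcard
  exact (hS.isClique ha hb hab).2.1 ⟨S, hcl, ha⟩

theorem glu_deg (G : SimpleGraph V) (d : ℕ) (hdeg : ∀ v, dg G v ≤ d + 2) (v : V) :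
    dg (gluG G d) v ≤ d + 2 := by
  refine le_trans (card_le_card ?_) (hdeg v)
  intro u hu
  rw [mem_filter] at hu ⊢
  exact ⟨hu.1, hu.2.1⟩

/-- Let `X` be the set of the vertices in a clique of `D + 1 = d + 3` vertices. A vertex of such a
clique has no neighbour outside it (degree), so there are no edges between `X` and the rest.
Label the rest by `tha` (for the graph of the edges of `G` outside `X`, which has no such clique)
and `X` by `knl` with `n = d + 3`, `i` = the colour of the vertex in a proper colouring of `G` with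
`d + 3` colours (`greedy`); adjacent vertices of `X` are in the same clique. -/
theorem glu {G : SimpleGraph V} {d : ℕ} (hd : 2 ≤ d) (hdeg : ∀ v, dg G v ≤ d + 2) (p : ℕ)
    (hp : d + 1 ≤ p) : Lab G p (d + 1 + 2 * p) := by
  obtain ⟨a, b, ha, hab, hbs, hb, hdist, hbb⟩ := knl (d + 3) p (by omega) (by omega)
  obtain ⟨fV, fE, h1, h2, h3, h4, h5⟩ := tha hd (glu_deg G d hdeg) (glu_free G d) p
  obtain ⟨col, hcol, hprop⟩ := greedy hdeg
  have hlt : ∀ v, col v < d + 3 := fun v => by have := hcol v; omega
  refine ⟨fun v => if gluX G d v then a (col v) else fV v,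
    Sym2.lift ⟨fun u v => if gluX G d u ∧ gluX G d v then b (col u) (col v) else fE s(u, v), ?_⟩,
    ?_, ?_, ?_, ?_, ?_⟩
  · intro u v
    simp only
    by_cases h : gluX G d u ∧ gluX G d v
    · rw [if_pos h, if_pos h.symm, hbs]
    · rw [if_neg h, if_neg (fun h' => h h'.symm), Sym2.eq_swap]
  · intro v
    simp only
    split_ifs with h
    · have := ha (col v) (hlt v)
      omega
    · have := h1 v
      omega
  · intro e he
    induction e using Sym2.ind with
    | _ u v =>
      rw [SimpleGraph.mem_edgeSet] at he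
      rw [Sym2.lift_mk]
      simp only
      split_ifs with h
      · have := hb (col u) (hlt u) (col v) (hlt v) (hprop u v he)
        omega
      · have := h2 s(u, v) ((SimpleGraph.mem_edgeSet _).2 (glu_adj hdeg he h))
        omega
  · intro u v huv
    simp only
    by_cases h : gluX G d u ∧ gluX G d v
    · rw [if_pos h.1, if_pos h.2]
      exact hab _ (hlt u) _ (hlt v) (hprop u v huv)
    · have h' := glu_adj hdeg huv h
      rw [if_neg h'.2.1, if_neg h'.2.2]
      exact h3 u v h'
  · intro u v huv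
    rw [Sym2.lift_mk]
    simp only
    by_cases h : gluX G d u ∧ gluX G d v
    · rw [if_pos h.1, if_pos h]
      exact hdist _ (hlt u) _ (hlt v) (hprop u v huv)
    · have h' := glu_adj hdeg huv h
      rw [if_neg h'.2.1, if_neg h]
      exact h4 u v h'
  · intro u v w huv huw hvw
    rw [Sym2.lift_mk, Sym2.lift_mk]
    simp only
    by_cases h : gluX G d u
    · have hv := glu_X hdeg h huv
      have hw := glu_X hdeg h huw
      rw [if_pos ⟨h, hv⟩, if_pos ⟨h, hw⟩]
      obtain ⟨S, hS, huS⟩ := h
      have hvS := glu_mem hdeg hS huS huv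
      have hwS := glu_mem hdeg hS huS huw
      have hadj : G.Adj v w := hS.isClique hvS hwS hvw
      exact hbb _ (hlt u) _ (hlt v) _ (hlt w) (hprop u v huv) (hprop u w huw) (hprop v w hadj)
    · have hv : ¬ (gluX G d u ∧ gluX G d v) := fun h' => h h'.1
      have hw : ¬ (gluX G d u ∧ gluX G d w) := fun h' => h h'.1
      rw [if_neg hv, if_neg hw]
      exact h5 u v w (glu_adj hdeg huv hv) (glu_adj hdeg huw hw) hvw

end Pool.Agent.H44.HYB

end S_GLU
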